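import Pool.Agent.CDG.SBa

/-!
# CDG.SBb: the small ball estimate if the neighbourhoods are disjoint

PROOF. Let `Q j S` be the number of the `u ∈ H` with `incr f u S = a j`; it depends only on the bits of the `N u`, `u ∈ H`,
which are pairwise disjoint and disjoint from `H`. For each `u` at least one of the `2^|N u| ≤ 2^M` patterns on `N u` gives `a j`, so
`∑_S 2^(-Q j S) ≤ 2^n (1 - 2^(-M-1))^|H|` (`indep_prod`) and by Markov at most `2^n (1-2^(-M-1))^|H| 2^m` of the `S` have `Q j S ≤ m`.
For the other `S` condition on the bits outside `H`: `f S = f S₀ + ∑_{u ∈ H, S u} incr f u S₀` where `S₀` has the bits of `H` switched off, so `sb_vec` with `v u = incr f u S₀`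
and the disjoint sets `{u ∈ H : incr f u S₀ = a j}` bounds the proportion by `(2/√(m+1))^d`.
-/

namespace CDG

open Finset

private lemma SBb_pattern {G : Type} [Fintype G] [DecidableEq G] (A : Finset G) (T : G → Bool) :
    2 ^ Fintype.card G ≤ 2 ^ A.card * (univ.filter fun S : G → Bool => ∀ g ∈ A, T g = S g).card := by
  have h1 : (univ : Finset (G → Bool)).card ≤ ((Finset.powerset A) ×ˢ (univ.filter fun S : G → Bool => ∀ g ∈ A, T g = S g)).card := by
    refine Finset.card_le_card_of_injOn (fun S => (A.filter fun u => S u = true, mix A T S)) ?_ ?_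
    · intro S _
      simp only [coe_product, Set.mem_prod, mem_coe, mem_powerset, mem_filter, mem_univ, true_and]
      refine ⟨Finset.filter_subset _ _, fun g hg => ?_⟩
      simp [mix, hg]
    · intro S _ S' _ h
      simp only [Prod.mk.injEq] at h
      funext u
      by_cases hu : u ∈ A
      · have := Finset.ext_iff.1 h.1 u
        simp only [mem_filter, hu, true_and] at this
        exact Bool.eq_iff_iff.2 this
      · have := congrFun h.2 u
        simpa [mix, hu] using this
  rw [Finset.card_product, Finset.card_powerset, Finset.card_univ, Fintype.card_fun, Fintype.card_bool] at h1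
  exact h1

/-- The probability that few of the increments are `b`. -/
private lemma SBb_few {G : Type} [Fintype G] [DecidableEq G] {d M : ℕ} (f : (G → Bool) → (Fin d → ℤ))
    (H : Finset G) (N : G → Finset G) (b : Fin d → ℤ) (hM : ∀ u ∈ H, (N u).card ≤ M)
    (hdisj : ∀ u ∈ H, ∀ v ∈ H, u ≠ v → Disjoint (N u) (N v))
    (hloc : ∀ u ∈ H, ∀ S S' : G → Bool, (∀ g ∈ N u, S g = S' g) → incr f u S = incr f u S')
    (hatt : ∀ u ∈ H, ∃ S, incr f u S = b) (m : ℕ) :
    ((univ.filter fun S : G → Bool => (H.filter fun u => incr f u S = b).card ≤ m).card : ℝ) ≤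
      2 ^ Fintype.card G * ((1 - (1 / 2) ^ (M + 1)) ^ H.card * 2 ^ m) := by
  have h2 : (0 : ℝ) < 2 ^ Fintype.card G := by positivity
  have hE := indep_prod H N (fun u S => if incr f u S = b then (1 / 2 : ℝ) else 1) hdisj
    (fun u hu S S' hS => by simp only [hloc u hu S S' hS])
  have hval : ∀ u ∈ H, (∑ S : G → Bool, (if incr f u S = b then (1 / 2 : ℝ) else 1)) / 2 ^ Fintype.card G ≤
      1 - (1 / 2) ^ (M + 1) := by
    intro u hu
    obtain ⟨T, hT⟩ := hatt u hu
    rw [div_le_iff₀ h2]
    have h3 : ∀ S : G → Bool, (if incr f u S = b then (1 / 2 : ℝ) else 1) = 1 - (1 / 2) * (if incr f u S = b then (1 : ℝ) else 0) := by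
      intro S; split_ifs <;> norm_num
    rw [Finset.sum_congr rfl fun S _ => h3 S, Finset.sum_sub_distrib, ← Finset.mul_sum, Finset.sum_boole]
    have h4 : ((univ.filter fun S : G → Bool => ∀ g ∈ N u, T g = S g).card : ℝ) ≤
        ((univ.filter fun S : G → Bool => incr f u S = b).card : ℝ) := by
      exact_mod_cast Finset.card_le_card (by
        intro S hS
        simp only [mem_filter, mem_univ, true_and] at hS ⊢
        rw [← hT]
        exact (hloc u hu T S hS).symm)
    have h5 : (2 : ℝ) ^ Fintype.card G ≤ 2 ^ M * ((univ.filter fun S : G → Bool => ∀ g ∈ N u, T g = S g).card : ℝ) := by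
      have h6 : (2 : ℝ) ^ Fintype.card G ≤ 2 ^ (N u).card * ((univ.filter fun S : G → Bool => ∀ g ∈ N u, T g = S g).card : ℝ) := by
        exact_mod_cast SBb_pattern (N u) T
      refine h6.trans ?_
      gcongr
      · norm_num
      · exact hM u hu
    have h6 : (1 / 2 : ℝ) ^ M * 2 ^ Fintype.card G ≤ ((univ.filter fun S : G → Bool => incr f u S = b).card : ℝ) := by
      refine le_trans ?_ h4
      calc (1 / 2 : ℝ) ^ M * 2 ^ Fintype.card G ≤ (1 / 2 : ℝ) ^ M * (2 ^ M * ((univ.filter fun S : G → Bool => ∀ g ∈ N u, T g = S g).card : ℝ)) := by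
            gcongr
        _ = ((1 / 2 : ℝ) * 2) ^ M * ((univ.filter fun S : G → Bool => ∀ g ∈ N u, T g = S g).card : ℝ) := by
            rw [mul_pow]; ring
        _ = _ := by norm_num
    have h7 : ∑ _S : G → Bool, (1 : ℝ) = 2 ^ Fintype.card G := by simp
    rw [h7, pow_succ]
    nlinarith
  have hq0 : (0 : ℝ) ≤ 1 - (1 / 2) ^ (M + 1) := by
    have : (1 / 2 : ℝ) ^ (M + 1) ≤ 1 := pow_le_one₀ (by norm_num) (by norm_num)
    linarith
  have hprod : ∏ u ∈ H, ((∑ S : G → Bool, (if incr f u S = b then (1 / 2 : ℝ) else 1)) / 2 ^ Fintype.card G) ≤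
      (1 - (1 / 2) ^ (M + 1)) ^ H.card := by
    refine (Finset.prod_le_prod (fun u _ => ?_) hval).trans ?_
    · refine div_nonneg (Finset.sum_nonneg fun S _ => ?_) h2.le
      split_ifs <;> norm_num
    · rw [Finset.prod_const]
  have hpt : ∀ S ∈ (univ.filter fun S : G → Bool => (H.filter fun u => incr f u S = b).card ≤ m),
      (1 / 2 : ℝ) ^ m ≤ ∏ u ∈ H, (if incr f u S = b then (1 / 2 : ℝ) else 1) := by
    intro S hS
    rw [mem_filter] at hS
    rw [Finset.prod_ite, Finset.prod_const, Finset.prod_const_one, mul_one]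
    exact pow_le_pow_of_le_one (by norm_num) (by norm_num) hS.2
  have hsum : ((univ.filter fun S : G → Bool => (H.filter fun u => incr f u S = b).card ≤ m).card : ℝ) *
      (1 / 2 : ℝ) ^ m ≤ 2 ^ Fintype.card G * (1 - (1 / 2) ^ (M + 1)) ^ H.card := by
    rw [← nsmul_eq_mul]
    refine (Finset.card_nsmul_le_sum _ _ _ hpt).trans ?_
    calc _ ≤ ∑ S : G → Bool, ∏ u ∈ H, (if incr f u S = b then (1 / 2 : ℝ) else 1) := by
          refine Finset.sum_le_sum_of_subset_of_nonneg (Finset.subset_univ _) fun S _ _ => ?_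
          refine Finset.prod_nonneg fun g _ => ?_
          split_ifs <;> norm_num
      _ ≤ _ := by rw [hE]; gcongr
  have hpow : (1 / 2 : ℝ) ^ m * 2 ^ m = 1 := by
    rw [← mul_pow]; norm_num
  set X := ((univ.filter fun S : G → Bool => (H.filter fun u => incr f u S = b).card ≤ m).card : ℝ)
  calc X = X * (1 / 2 : ℝ) ^ m * 2 ^ m := by rw [mul_assoc, hpow, mul_one]
    _ ≤ 2 ^ Fintype.card G * (1 - (1 / 2) ^ (M + 1)) ^ H.card * 2 ^ m := by gcongr
    _ = _ := by ring

/-- Switching on the bits of `H` one after the other. -/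
private lemma SBb_tele {G : Type} [Fintype G] [DecidableEq G] {d : ℕ} (f : (G → Bool) → (Fin d → ℤ))
    (H : Finset G) (N : G → Finset G) (hN : ∀ u ∈ H, ∀ v ∈ H, v ∉ N u)
    (hloc : ∀ u ∈ H, ∀ S S' : G → Bool, (∀ g ∈ N u, S g = S' g) → incr f u S = incr f u S')
    (ξ T : G → Bool) :
    f (mix H ξ T) = f (mix H (fun _ => false) T) +
      ∑ u : G, (if ξ u = true then (if u ∈ H then incr f u (mix H (fun _ => false) T) else 0) else 0) := by
  set B := mix H (fun _ => false) T with hB
  have key : ∀ H' : Finset G, H' ⊆ H → f (mix H' ξ B) = f B + ∑ u ∈ H', (if ξ u = true then incr f u B else 0) := by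
    intro H'
    induction H' using Finset.induction_on with
    | empty =>
      intro _
      have : mix ∅ ξ B = B := by funext x; simp [mix]
      simp [this]
    | insert a H' ha ih =>
      intro hsub
      have haH : a ∈ H := hsub (mem_insert_self a H')
      have ih' := ih fun x hx => hsub (mem_insert_of_mem hx)
      have hBa : B a = false := by simp [hB, mix, haH]
      have hSa : mix H' ξ B a = false := by simp [mix, ha, hBa]
      have hup : mix (insert a H') ξ B = Function.update (mix H' ξ B) a (ξ a) := by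
        funext x
        by_cases hx : x = a
        · subst hx; simp [mix]
        · simp [mix, hx]
      have hup0 : Function.update (mix H' ξ B) a false = mix H' ξ B := by
        rw [← hSa]; simp
      rw [hup, Finset.sum_insert ha]
      cases hξ : ξ a with
      | false =>
        rw [hup0, ih']
        simp
      | true =>
        have hin : f (Function.update (mix H' ξ B) a true) = f (mix H' ξ B) + incr f a (mix H' ξ B) := by
          unfold incr
          rw [hup0]
          abel
        have hl : incr f a (mix H' ξ B) = incr f a B := hloc a haH _ _ fun g hg => by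
          have : g ∉ H' := fun h => hN a haH g (hsub (mem_insert_of_mem h)) hg
          simp [mix, this]
        rw [hin, ih', hl]
        simp only [if_true]
        abel
  have h1 := key H (Finset.Subset.refl H)
  have h2 : mix H ξ B = mix H ξ T := by
    funext x
    by_cases hx : x ∈ H <;> simp [hB, mix, hx]
  rw [h2] at h1
  rw [h1]
  congr 1
  rw [← Finset.sum_subset (Finset.subset_univ H)]
  · exact Finset.sum_congr rfl fun u hu => by simp [hu]
  · intro u _ hu
    simp [hu]

/-- The main term. -/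
private lemma SBb_main {G : Type} [Fintype G] [DecidableEq G] {d : ℕ} (f : (G → Bool) → (Fin d → ℤ))
    (H : Finset G) (N : G → Finset G) (a : Fin d → (Fin d → ℤ))
    (ha : LinearIndependent ℚ (fun (j : Fin d) (i : Fin d) => ((a j i : ℤ) : ℚ)))
    (hN : ∀ u ∈ H, ∀ v ∈ H, v ∉ N u)
    (hloc : ∀ u ∈ H, ∀ S S' : G → Bool, (∀ g ∈ N u, S g = S' g) → incr f u S = incr f u S')
    (m : ℕ) :
    ((univ.filter fun S : G → Bool => f S = 0 ∧ ∀ j, m ≤ (H.filter fun u => incr f u S = a j).card).card : ℝ) ≤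
      2 ^ Fintype.card G * (2 / √((m : ℝ) + 1)) ^ d := by
  have h2 : (0 : ℝ) < 2 ^ Fintype.card G := by positivity
  have hinj : ∀ j k, j ≠ k → a j ≠ a k := by
    intro j k hjk h
    exact hjk (ha.injective (by simp only [h]))
  have hmix := mix_sum H (fun S => if f S = 0 ∧ ∀ j, m ≤ (H.filter fun u => incr f u S = a j).card then (1 : ℝ) else 0)
  rw [Finset.sum_comm, Finset.sum_boole] at hmix
  have hone : ∀ T : G → Bool, ∑ ξ : G → Bool, (if f (mix H ξ T) = 0 ∧ ∀ j, m ≤ (H.filter fun u => incr f u (mix H ξ T) = a j).card then (1 : ℝ) else 0) ≤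
      2 ^ Fintype.card G * (2 / √((m : ℝ) + 1)) ^ d := by
    intro T
    set B := mix H (fun _ => false) T with hB
    have hincr : ∀ ξ : G → Bool, ∀ u ∈ H, incr f u (mix H ξ T) = incr f u B := by
      intro ξ u hu
      refine hloc u hu _ _ fun g hg => ?_
      have : g ∉ H := fun h => hN u hu g h hg
      simp [hB, mix, this]
    by_cases hQ : ∀ j, m ≤ (H.filter fun u => incr f u B = a j).card
    · have h := sb_vec a ha (fun j => H.filter fun u => incr f u B = a j) (by
        intro j k hjk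
        rw [Finset.disjoint_left]
        intro u hu hu'
        rw [mem_filter] at hu hu'
        exact hinj j k hjk (hu.2.symm.trans hu'.2)) (fun u => if u ∈ H then incr f u B else 0) (by
        intro j u hu
        rw [mem_filter] at hu
        simp only [hu.1, if_true]
        exact hu.2) (f B) m hQ
      refine le_trans ?_ h
      rw [Finset.sum_boole]
      exact_mod_cast Finset.card_le_card (by
        intro ξ hξ
        simp only [mem_filter, mem_univ, true_and] at hξ ⊢
        rw [← SBb_tele f H N hN hloc ξ T]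
        exact hξ.1)
    · have : ∀ ξ : G → Bool, ¬ (f (mix H ξ T) = 0 ∧ ∀ j, m ≤ (H.filter fun u => incr f u (mix H ξ T) = a j).card) := by
        intro ξ h
        apply hQ
        intro j
        refine (h.2 j).trans (le_of_eq ?_)
        congr 1
        exact Finset.filter_congr fun u hu => by rw [hincr ξ u hu]
      rw [Finset.sum_congr rfl fun ξ _ => if_neg (this ξ)]
      simp only [Finset.sum_const_zero]
      positivity
  have htot : 2 ^ Fintype.card G * ((univ.filter fun S : G → Bool => f S = 0 ∧ ∀ j, m ≤ (H.filter fun u => incr f u S = a j).card).card : ℝ) ≤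
      2 ^ Fintype.card G * (2 ^ Fintype.card G * (2 / √((m : ℝ) + 1)) ^ d) := by
    rw [← hmix]
    refine (Finset.sum_le_sum fun T _ => hone T).trans ?_
    rw [Finset.sum_const, nsmul_eq_mul]
    simp
  exact le_of_mul_le_mul_left htot h2

theorem sb_indep (d M : ℕ) : ∃ C : ℝ, 0 < C ∧ ∀ (G : Type) [Fintype G] [DecidableEq G]
    (f : (G → Bool) → (Fin d → ℤ)) (H : Finset G) (N : G → Finset G) (a : Fin d → (Fin d → ℤ)),
    LinearIndependent ℚ (fun (j : Fin d) (i : Fin d) => ((a j i : ℤ) : ℚ)) →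
    (∀ u ∈ H, (N u).card ≤ M) → (∀ u ∈ H, ∀ v ∈ H, v ∉ N u) →
    (∀ u ∈ H, ∀ v ∈ H, u ≠ v → Disjoint (N u) (N v)) →
    (∀ u ∈ H, ∀ S S' : G → Bool, (∀ g ∈ N u, S g = S' g) → incr f u S = incr f u S') →
    (∀ u ∈ H, ∀ j, ∃ S, incr f u S = a j) →
    ((univ.filter fun S : G → Bool => f S = 0).card : ℝ) ≤
      C * 2 ^ Fintype.card G / √((H.card : ℝ) + 1) ^ d := by
  classical
  set q : ℝ := 1 - (1 / 2) ^ (M + 1) with hq
  have hq0 : 0 ≤ q := by
    have : (1 / 2 : ℝ) ^ (M + 1) ≤ 1 := pow_le_one₀ (by norm_num) (by norm_num)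
    rw [hq]; linarith
  have hq1 : q < 1 := by
    have : (0 : ℝ) < (1 / 2 : ℝ) ^ (M + 1) := by positivity
    rw [hq]; linarith
  obtain ⟨L', hL'⟩ := exists_pow_lt_of_lt_one (show (0 : ℝ) < 1 / 4 by norm_num) hq1
  set L := L' + 1 with hL
  have hLq : q ^ L ≤ 1 / 4 := by
    rw [hL, pow_succ]
    nlinarith [pow_nonneg hq0 L']
  have ht : Filter.Tendsto (fun n : ℕ => (n : ℝ) ^ d * (1 / 2 : ℝ) ^ n) Filter.atTop (nhds 0) :=
    tendsto_pow_const_mul_const_pow_of_abs_lt_one d (by norm_num [abs_of_pos])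
  obtain ⟨K, hK⟩ := ht.bddAbove_range
  have hKp : ∀ m : ℕ, ((m : ℝ) + 1) ^ d * (1 / 2 : ℝ) ^ m ≤ 2 * max K 0 := by
    intro m
    have h1 : ((m + 1 : ℕ) : ℝ) ^ d * (1 / 2 : ℝ) ^ (m + 1) ≤ K := hK ⟨m + 1, rfl⟩
    push_cast at h1
    rw [pow_succ (1 / 2 : ℝ) m] at h1
    have := le_max_left K 0
    linarith
  refine ⟨(√(L : ℝ)) ^ d * (2 ^ d + d * (2 * max K 0)) + 1, by positivity, ?_⟩
  intro G _ _ f H N a ha hM hN hdisj hloc hatt
  set s := H.card with hs
  set m := s / L with hm
  have h2 : (0 : ℝ) < 2 ^ Fintype.card G := by positivity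
  -- all `S`
  have hcov : (univ.filter fun S : G → Bool => f S = 0) ⊆
      (univ.filter fun S : G → Bool => f S = 0 ∧ ∀ j, m ≤ (H.filter fun u => incr f u S = a j).card) ∪
      (univ : Finset (Fin d)).biUnion fun j => (univ.filter fun S : G → Bool => (H.filter fun u => incr f u S = a j).card ≤ m) := by
    intro S hS
    simp only [mem_filter, mem_univ, true_and, mem_union, mem_biUnion] at hS ⊢
    by_cases h : ∀ j, m ≤ (H.filter fun u => incr f u S = a j).card
    · exact Or.inl ⟨hS, h⟩
    · push Not at h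
      obtain ⟨j, hj⟩ := h
      exact Or.inr ⟨j, hj.le⟩
  have hcount : ((univ.filter fun S : G → Bool => f S = 0).card : ℝ) ≤
      2 ^ Fintype.card G * (2 / √((m : ℝ) + 1)) ^ d + d * (2 ^ Fintype.card G * (q ^ s * 2 ^ m)) := by
    have h3 : ((univ.filter fun S : G → Bool => f S = 0).card : ℝ) ≤
        ((univ.filter fun S : G → Bool => f S = 0 ∧ ∀ j, m ≤ (H.filter fun u => incr f u S = a j).card).card : ℝ) +
        (((univ : Finset (Fin d)).biUnion fun j => (univ.filter fun S : G → Bool => (H.filter fun u => incr f u S = a j).card ≤ m)).card : ℝ) := by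
      exact_mod_cast (Finset.card_le_card hcov).trans (Finset.card_union_le _ _)
    have h4 : (((univ : Finset (Fin d)).biUnion fun j => (univ.filter fun S : G → Bool => (H.filter fun u => incr f u S = a j).card ≤ m)).card : ℝ) ≤
        ∑ j : Fin d, (((univ.filter fun S : G → Bool => (H.filter fun u => incr f u S = a j).card ≤ m)).card : ℝ) := by
      exact_mod_cast Finset.card_biUnion_le
    have h5 : ∑ j : Fin d, (((univ.filter fun S : G → Bool => (H.filter fun u => incr f u S = a j).card ≤ m)).card : ℝ) ≤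
        ∑ _j : Fin d, (2 ^ Fintype.card G * (q ^ s * 2 ^ m)) :=
      Finset.sum_le_sum fun j _ => SBb_few f H N (a j) hM hdisj hloc (fun u hu => hatt u hu j) m
    calc ((univ.filter fun S : G → Bool => f S = 0).card : ℝ)
        ≤ 2 ^ Fintype.card G * (2 / √((m : ℝ) + 1)) ^ d + ∑ _j : Fin d, (2 ^ Fintype.card G * (q ^ s * 2 ^ m)) :=
          h3.trans (add_le_add (SBb_main f H N a ha hN hloc m) (h4.trans h5))
      _ = _ := by
          rw [Finset.sum_const, Finset.card_univ, Fintype.card_fin, nsmul_eq_mul]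
  have hqs : q ^ s * 2 ^ m ≤ (1 / 2 : ℝ) ^ m := by
    have h3 : q ^ s ≤ (1 / 4 : ℝ) ^ m := by
      calc q ^ s ≤ q ^ (L * m) := pow_le_pow_of_le_one hq0 hq1.le (by rw [hm]; exact Nat.mul_div_le s L)
        _ = (q ^ L) ^ m := by rw [pow_mul]
        _ ≤ (1 / 4 : ℝ) ^ m := pow_le_pow_left₀ (pow_nonneg hq0 L) hLq m
    calc q ^ s * 2 ^ m ≤ (1 / 4 : ℝ) ^ m * 2 ^ m := by gcongr
      _ = (1 / 2 : ℝ) ^ m := by rw [← mul_pow]; norm_num
  have hsm : (s : ℝ) + 1 ≤ L * ((m : ℝ) + 1) := by
    have : s + 1 ≤ L * (m + 1) := by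
      have := Nat.lt_mul_div_succ s (show 0 < L by omega)
      rw [← hm] at this
      omega
    exact_mod_cast this
  set r := √((s : ℝ) + 1) with hr
  set w := √((m : ℝ) + 1) with hw
  set l := √(L : ℝ) with hl
  have hrp : 0 < r := Real.sqrt_pos.2 (by positivity)
  have hwp : 0 < w := Real.sqrt_pos.2 (by positivity)
  have hlp : 0 ≤ l := Real.sqrt_nonneg _
  have hrw : r ≤ l * w := by
    rw [hr, hl, hw, ← Real.sqrt_mul (by positivity)]
    exact Real.sqrt_le_sqrt hsm
  have hw1 : w ≤ (m : ℝ) + 1 := by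
    rw [hw, Real.sqrt_le_left (by positivity)]
    have : (0 : ℝ) ≤ m := by positivity
    nlinarith
  rw [le_div_iff₀ (by positivity)]
  have hrd : r ^ d ≤ l ^ d * w ^ d := by
    rw [← mul_pow]
    exact pow_le_pow_left₀ hrp.le hrw d
  have hA : (2 / w) ^ d * r ^ d ≤ l ^ d * 2 ^ d := by
    calc (2 / w) ^ d * r ^ d ≤ (2 / w) ^ d * (l ^ d * w ^ d) := by gcongr
      _ = l ^ d * 2 ^ d := by
          rw [div_pow]; field_simp
  have hB : (1 / 2 : ℝ) ^ m * r ^ d ≤ l ^ d * (2 * max K 0) := by
    calc (1 / 2 : ℝ) ^ m * r ^ d ≤ (1 / 2 : ℝ) ^ m * (l ^ d * w ^ d) := by gcongr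
      _ = l ^ d * (w ^ d * (1 / 2 : ℝ) ^ m) := by ring
      _ ≤ l ^ d * (((m : ℝ) + 1) ^ d * (1 / 2 : ℝ) ^ m) := by gcongr
      _ ≤ l ^ d * (2 * max K 0) := by
          exact mul_le_mul_of_nonneg_left (hKp m) (by positivity)
  calc ((univ.filter fun S : G → Bool => f S = 0).card : ℝ) * r ^ d
      ≤ (2 ^ Fintype.card G * (2 / w) ^ d + d * (2 ^ Fintype.card G * (q ^ s * 2 ^ m))) * r ^ d := by gcongr
    _ ≤ (2 ^ Fintype.card G * (2 / w) ^ d + d * (2 ^ Fintype.card G * (1 / 2 : ℝ) ^ m)) * r ^ d := by gcongr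
    _ = 2 ^ Fintype.card G * ((2 / w) ^ d * r ^ d + d * ((1 / 2 : ℝ) ^ m * r ^ d)) := by ring
    _ ≤ 2 ^ Fintype.card G * (l ^ d * 2 ^ d + d * (l ^ d * (2 * max K 0))) := by gcongr
    _ ≤ (l ^ d * (2 ^ d + d * (2 * max K 0)) + 1) * 2 ^ Fintype.card G := by nlinarith

end CDG
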