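import Pool.Agent.CDG.Defs

/-!
# CDG.Greedy: an independent set in a graph of bounded degree

PROOF. Strong induction on `U.card`. `U = ∅`: `H = ∅`. Otherwise take `u ∈ U`, `U' = U \ ({u} ∪ {v ∈ U : R u v})`, which has at least `U.card - (D+1)` elements, `H = insert u H'` with `H'` for `U'`.
(Similar lemmas exist in the team's libraries, for instance `Pool/Agent/RCay`.)
-/

namespace CDG

open Finset

theorem greedy {α : Type*} [DecidableEq α] (R : α → α → Prop) [DecidableRel R]
    (hsym : ∀ u v, R u v → R v u) (D : ℕ) (U : Finset α)
    (h : ∀ u ∈ U, (U.filter fun v => R u v).card ≤ D) :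
    ∃ H ⊆ U, (∀ u ∈ H, ∀ v ∈ H, u ≠ v → ¬ R u v) ∧ U.card ≤ (D + 1) * H.card := by
  induction U using Finset.strongInduction with
  | H U ih =>
    rcases U.eq_empty_or_nonempty with rfl | ⟨u, hu⟩
    · exact ⟨∅, by simp, by simp, by simp⟩
    · set T : Finset α := insert u (U.filter fun v => R u v) with hT
      have hTc : T.card ≤ D + 1 := (Finset.card_insert_le _ _).trans (by have := h u hu; omega)
      have hss : U \ T ⊂ U := by
        refine ⟨Finset.sdiff_subset, fun hcon => ?_⟩
        have := hcon hu
        simp [hT] at this
      obtain ⟨H, hHU, hH, hc⟩ := ih (U \ T) hss (fun w hw => by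
        refine (Finset.card_le_card ?_).trans (h w (Finset.sdiff_subset hw))
        exact Finset.filter_subset_filter _ Finset.sdiff_subset)
      have huH : u ∉ H := fun hh => by
        have := hHU hh
        simp [hT] at this
      have hsep : ∀ v ∈ H, ¬ R u v := fun v hv hr => by
        have := hHU hv
        simp only [hT, mem_sdiff, mem_insert, mem_filter, not_or, not_and] at this
        exact this.2.2 this.1 hr
      refine ⟨insert u H, ?_, ?_, ?_⟩
      · intro w hw
        rcases Finset.mem_insert.1 hw with rfl | hw
        · exact hu
        · exact Finset.sdiff_subset (hHU hw)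
      · intro v hv w hw hvw
        rcases Finset.mem_insert.1 hv with hv' | hv' <;> rcases Finset.mem_insert.1 hw with hw' | hw'
        · exact absurd (hv'.trans hw'.symm) hvw
        · rw [hv']; exact hsep w hw'
        · rw [hw']; exact fun hr => hsep v hv' (hsym _ _ hr)
        · exact hH v hv' w hw' hvw
      · rw [Finset.card_insert_of_notMem huH]
        have : U.card ≤ (U \ T).card + T.card := by
          rw [← Finset.card_union_of_disjoint Finset.sdiff_disjoint]
          exact Finset.card_le_card (by intro x hx; by_cases hxT : x ∈ T <;> simp [hx, hxT])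
        nlinarith

end CDG
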