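import Pool.Agent.CDG.Defs

/-!
# CDG.Alg: the increment of a statistic at one bit

PROOF. `incr_Phi`: the bit of `u` occurs in `rel S 1 y = (S y, S y⁻¹)` only for `y = u`, `u⁻¹`, and in `rel S x y = (S (x⁻¹y), S (y⁻¹x))` only for `y = xu`, `xu⁻¹`; these four `y` are different (`u ≠ u⁻¹`, `x ≠ 1`, `x ≠ u²`, `x ≠ u⁻²`), so the sum over `y` of the differences is the sum over
these four `y` (`Finset.sum_subset` or: all other terms vanish), and none of the elements of `PP x u` nor `u⁻¹` is `u`. `Phi_of_F`, `PhiT_of_F`: group the `y` by the values: `PhiT ψ S t x = ∑_{c,c'} F S t x c c' • ψ c c'` (`Finset.sum_fiberwise` or `Finset.sum_comp`).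
-/

namespace CDG

open Finset

/-- The increment of `Phi φ S x` at the bit of `u`: `b` is the bit of `u⁻¹`, `τ₁, ..., τ₄` are the bits of `PP x u`. -/
def Wf {d : ℕ} (φ : Bool × Bool → Bool × Bool → (Fin d → ℤ)) (b : Bool) (τ₁ τ₂ τ₃ τ₄ : Bool × Bool) :
    Fin d → ℤ :=
  (φ (true, b) τ₁ - φ (false, b) τ₁) + (φ (b, true) τ₂ - φ (b, false) τ₂) +
    (φ τ₃ (true, b) - φ τ₃ (false, b)) + (φ τ₄ (b, true) - φ τ₄ (b, false))

/-- A statistic for several individualised vertices. -/
def PhiT {G : Type} [Group G] [Fintype G] {m d : ℕ} (ψ : (Fin m → Bool × Bool) → Bool × Bool → (Fin d → ℤ))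
    (S : G → Bool) (t : Fin m → G) (x : G) : Fin d → ℤ :=
  ∑ y : G, ψ (fun i => rel S (t i) y) (rel S x y)

theorem PhiT_of_F {G : Type} [Group G] [Fintype G] {m d : ℕ}
    (ψ : (Fin m → Bool × Bool) → Bool × Bool → (Fin d → ℤ)) {S : G → Bool} {t : Fin m → G} {x x' : G}
    (h : F S t x = F S t x') : PhiT ψ S t x = PhiT ψ S t x' := by
  have key : ∀ z : G, PhiT ψ S t z = ∑ p : (Fin m → Bool × Bool) × (Bool × Bool), F S t z p.1 p.2 • ψ p.1 p.2 := by
    intro z
    unfold PhiT F
    rw [← Finset.sum_fiberwise (s := univ) (g := fun y : G => ((fun i => rel S (t i) y, rel S z y) :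
      (Fin m → Bool × Bool) × (Bool × Bool)))]
    refine Finset.sum_congr rfl fun p _ => ?_
    rw [← Finset.sum_const]
    refine Finset.sum_congr ?_ ?_
    · ext y
      simp only [mem_filter, mem_univ, true_and]
      constructor
      · intro hy
        rw [← hy]
        exact ⟨fun i => rfl, rfl⟩
      · rintro ⟨h1, h2⟩
        exact Prod.ext (funext h1) h2
    · intro y hy
      simp only [mem_filter, mem_univ, true_and] at hy
      rw [← hy.2, funext hy.1]
  rw [key, key, h]

theorem Phi_of_F {G : Type} [Group G] [Fintype G] {d : ℕ} (φ : Bool × Bool → Bool × Bool → (Fin d → ℤ))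
    {m : ℕ} {S : G → Bool} {t : Fin (m + 1) → G} (ht : t 0 = 1) {x x' : G} (h : F S t x = F S t x') :
    Phi φ S x = Phi φ S x' := by
  have := PhiT_of_F (fun c c' => φ (c 0) c') h
  unfold PhiT at this
  simpa only [Phi, ht] using this

theorem incr_Phi {G : Type} [Group G] [Fintype G] [DecidableEq G] {d : ℕ}
    (φ : Bool × Bool → Bool × Bool → (Fin d → ℤ)) {x u : G} (hx : x ≠ 1) (hu : u * u ≠ 1)
    (h1 : x ≠ u * u) (h2 : x ≠ u⁻¹ * u⁻¹) (S : G → Bool) :
    incr (fun S => Phi φ S x) u S =
      Wf φ (S u⁻¹) (S (x⁻¹ * u), S (u⁻¹ * x)) (S (x⁻¹ * u⁻¹), S (u * x)) (S (x * u), S (u⁻¹ * x⁻¹))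
        (S (x * u⁻¹), S (u * x⁻¹)) := by
  have e1 : u⁻¹ ≠ u := fun h => hu (by nth_rewrite 1 [← h]; simp)
  have e2 : x⁻¹ * u ≠ u := fun h => hx (by simpa using h)
  have e3 : u⁻¹ * x ≠ u := fun h => h1 (by
    have := congrArg (fun z => u * z) h
    simpa using this)
  have e4 : x⁻¹ * u⁻¹ ≠ u := fun h => h2 (by
    have : x⁻¹ = u * u := by
      have := congrArg (fun z => z * u) h
      simpa using this
    rw [← mul_inv_rev, ← this, inv_inv])
  have e5 : u * x ≠ u := fun h => hx (by simpa using h)
  have e6 : x * u ≠ u := fun h => hx (by simpa using h)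
  have e7 : u⁻¹ * x⁻¹ ≠ u := fun h => h2 (by
    have : x⁻¹ = u * u := by
      have := congrArg (fun z => u * z) h
      simpa using this
    rw [← mul_inv_rev, ← this, inv_inv])
  have e8 : x * u⁻¹ ≠ u := fun h => h1 (by
    have := congrArg (fun z => z * u) h
    simpa using this)
  have e9 : u * x⁻¹ ≠ u := fun h => hx (by simpa using h)
  have key : incr (fun S => Phi φ S x) u S =
      ∑ y : G, (φ (rel (Function.update S u true) 1 y) (rel (Function.update S u true) x y) -
        φ (rel (Function.update S u false) 1 y) (rel (Function.update S u false) x y)) := by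
    unfold incr Phi
    rw [← Finset.sum_sub_distrib]
  have hsub : ∑ y ∈ ({u, u⁻¹, x * u, x * u⁻¹} : Finset G),
      (φ (rel (Function.update S u true) 1 y) (rel (Function.update S u true) x y) -
        φ (rel (Function.update S u false) 1 y) (rel (Function.update S u false) x y)) =
      ∑ y : G, (φ (rel (Function.update S u true) 1 y) (rel (Function.update S u true) x y) -
        φ (rel (Function.update S u false) 1 y) (rel (Function.update S u false) x y)) := by
    refine Finset.sum_subset (Finset.subset_univ _) fun y _ hy => ?_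
    simp only [mem_insert, mem_singleton, not_or] at hy
    obtain ⟨y1, y2, y3, y4⟩ := hy
    have a1 : y⁻¹ ≠ u := fun h => y2 (by rw [← h, inv_inv])
    have a2 : x⁻¹ * y ≠ u := fun h => y3 (by rw [← h]; group)
    have a3 : y⁻¹ * x ≠ u := fun h => y4 (by rw [← h]; group)
    simp [rel, Function.update_of_ne y1, Function.update_of_ne a1, Function.update_of_ne a2, Function.update_of_ne a3]
  rw [key, ← hsub]
  rw [Finset.sum_insert, Finset.sum_insert, Finset.sum_insert, Finset.sum_singleton]
  · have b1 : (x * u)⁻¹ = u⁻¹ * x⁻¹ := by group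
    have b2 : (x * u⁻¹)⁻¹ = u * x⁻¹ := by group
    have b3 : x⁻¹ * (x * u) = u := by group
    have b4 : x⁻¹ * (x * u⁻¹) = u⁻¹ := by group
    have b5 : u⁻¹ * x⁻¹ * x = u⁻¹ := by group
    have b6 : u * x⁻¹ * x = u := by group
    simp only [rel, Wf, inv_one, one_mul, mul_one, inv_inv, b1, b2, b3, b4, b5, b6, Function.update_self,
      Function.update_of_ne e1, Function.update_of_ne e2, Function.update_of_ne e3, Function.update_of_ne e4,
      Function.update_of_ne e5, Function.update_of_ne e6, Function.update_of_ne e7, Function.update_of_ne e8,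
      Function.update_of_ne e9]
    abel
  · intro h
    rw [mem_singleton] at h
    exact e1 (mul_left_cancel h).symm
  · intro h
    simp only [mem_insert, mem_singleton] at h
    rcases h with h | h
    · apply h2
      have := congrArg (fun z => z * u⁻¹) h
      simpa using this.symm
    · apply hx
      have := congrArg (fun z => z * u) h
      simpa using this.symm
  · intro h
    simp only [mem_insert, mem_singleton] at h
    rcases h with h | h | h
    · exact e1 h.symm
    · exact e6 h.symm
    · exact e8 h.symm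

theorem not_mem_PP {G : Type} [Group G] [DecidableEq G] {x u : G} (hx : x ≠ 1) (h1 : x ≠ u * u)
    (h2 : x ≠ u⁻¹ * u⁻¹) : u ∉ PP x u ∧ u⁻¹ ∉ PP x u := by
  constructor
  · intro h
    simp only [PP, mem_insert, mem_singleton] at h
    rcases h with h | h | h | h | h | h | h | h
    · apply hx; have := congrArg (fun z => x * z * u⁻¹) h; simpa using this
    · apply h1; have := congrArg (fun z => u * z) h; simpa using this.symm
    · apply h2; have := congrArg (fun z => x * z * u⁻¹) h; simpa [mul_assoc] using this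
    · apply hx; simpa using h
    · apply hx; simpa using h
    · apply h2; have := congrArg (fun z => u⁻¹ * (u⁻¹ * (u * z * x))) h; simpa [mul_assoc] using this
    · apply h1; have := congrArg (fun z => z * u) h; simpa [mul_assoc] using this.symm
    · apply hx; simpa using h
  · intro h
    simp only [PP, mem_insert, mem_singleton] at h
    rcases h with h | h | h | h | h | h | h | h
    · apply h1; have := congrArg (fun z => x * z * u) h; simpa [mul_assoc] using this
    · apply hx; have := congrArg (fun z => u * z) h; simpa using this.symm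
    · apply hx; have := congrArg (fun z => x * z * u) h; simpa [mul_assoc] using this
    · apply h2; have := congrArg (fun z => u⁻¹ * z) h; simpa [mul_assoc] using this.symm
    · apply h2; have := congrArg (fun z => z * u⁻¹) h; simpa [mul_assoc] using this.symm
    · apply hx; have := congrArg (fun z => u * z) h; simpa using this
    · apply hx; have := congrArg (fun z => z * u) h; simpa [mul_assoc] using this.symm
    · apply h1; have := congrArg (fun z => u * (z * x)) h; simpa [mul_assoc] using this

/-- The increment at one bit of the statistic for a pair. -/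
theorem incr_pair {G : Type} [Group G] [Fintype G] [DecidableEq G] {d : ℕ}
    (φ : Bool × Bool → Bool × Bool → (Fin d → ℤ)) {x x' u : G} (hx : x ≠ 1) (hx' : x' ≠ 1)
    (h : GoodU x x' u) (S : G → Bool) :
    incr (fun S => Phi φ S x - Phi φ S x') u S =
      Wf φ (S u⁻¹) (S (x⁻¹ * u), S (u⁻¹ * x)) (S (x⁻¹ * u⁻¹), S (u * x)) (S (x * u), S (u⁻¹ * x⁻¹))
        (S (x * u⁻¹), S (u * x⁻¹)) -
      Wf φ (S u⁻¹) (S (x'⁻¹ * u), S (u⁻¹ * x')) (S (x'⁻¹ * u⁻¹), S (u * x')) (S (x' * u), S (u⁻¹ * x'⁻¹))
        (S (x' * u⁻¹), S (u * x'⁻¹)) := by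
  rw [← incr_Phi φ hx h.sq h.h1 h.h2 S, ← incr_Phi φ hx' h.sq h.h1' h.h2' S]
  funext i
  simp only [incr, Pi.sub_apply]
  ring

end CDG
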