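import Mathlib

/-!
# CDG.Ind: functions of disjoint sets of bits are independent

`indep_two`: exchange the bits of two functions `S`, `S'` on `A`. `indep_prod`: induction on `H`.
-/

namespace CDG

open Finset

/-- The bits of `S` on `A` and those of `S'` elsewhere. -/
def mix {G : Type} [DecidableEq G] (A : Finset G) (S S' : G → Bool) : G → Bool :=
  fun x => if x ∈ A then S x else S' x

theorem mix_sum {G : Type} [Fintype G] [DecidableEq G] (A : Finset G) (F : (G → Bool) → ℝ) :
    ∑ S : G → Bool, ∑ S' : G → Bool, F (mix A S S') = 2 ^ Fintype.card G * ∑ S : G → Bool, F S := by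
  let e : (G → Bool) × (G → Bool) ≃ (G → Bool) × (G → Bool) :=
    { toFun := fun p => (mix A p.1 p.2, mix A p.2 p.1)
      invFun := fun p => (mix A p.1 p.2, mix A p.2 p.1)
      left_inv := by
        intro p
        refine Prod.ext ?_ ?_ <;> funext x <;> by_cases hx : x ∈ A <;> simp [mix, hx]
      right_inv := by
        intro p
        refine Prod.ext ?_ ?_ <;> funext x <;> by_cases hx : x ∈ A <;> simp [mix, hx] }
  calc ∑ S : G → Bool, ∑ S' : G → Bool, F (mix A S S')
      = ∑ p : (G → Bool) × (G → Bool), F (e p).1 := by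
        rw [Fintype.sum_prod_type]; rfl
    _ = ∑ p : (G → Bool) × (G → Bool), F p.1 := Equiv.sum_comp e (fun p => F p.1)
    _ = 2 ^ Fintype.card G * ∑ S : G → Bool, F S := by
        rw [Fintype.sum_prod_type]
        simp only [Finset.sum_const, Finset.card_univ, Fintype.card_fun, Fintype.card_bool, nsmul_eq_mul, ← Finset.mul_sum]
        push_cast
        rfl

theorem indep_two {G : Type} [Fintype G] [DecidableEq G] (A : Finset G) (f g : (G → Bool) → ℝ)
    (hf : ∀ S S' : G → Bool, (∀ x ∈ A, S x = S' x) → f S = f S')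
    (hg : ∀ S S' : G → Bool, (∀ x, x ∉ A → S x = S' x) → g S = g S') :
    2 ^ Fintype.card G * ∑ S : G → Bool, f S * g S = (∑ S : G → Bool, f S) * ∑ S : G → Bool, g S := by
  let mix : (G → Bool) → (G → Bool) → (G → Bool) := fun S S' x => if x ∈ A then S x else S' x
  let e : (G → Bool) × (G → Bool) ≃ (G → Bool) × (G → Bool) :=
    { toFun := fun p => (mix p.1 p.2, mix p.2 p.1)
      invFun := fun p => (mix p.1 p.2, mix p.2 p.1)
      left_inv := by
        intro p
        refine Prod.ext ?_ ?_ <;> funext x <;> by_cases hx : x ∈ A <;> simp [mix, hx]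
      right_inv := by
        intro p
        refine Prod.ext ?_ ?_ <;> funext x <;> by_cases hx : x ∈ A <;> simp [mix, hx] }
  calc 2 ^ Fintype.card G * ∑ S : G → Bool, f S * g S
      = ∑ p : (G → Bool) × (G → Bool), f p.1 * g p.1 := by
        rw [Fintype.sum_prod_type]
        simp only [Finset.sum_const, Finset.card_univ, Fintype.card_fun, Fintype.card_bool, nsmul_eq_mul, ← Finset.mul_sum]
        push_cast
        rfl
    _ = ∑ p : (G → Bool) × (G → Bool), f (e p).1 * g (e p).1 :=
        (Equiv.sum_comp e (fun p => f p.1 * g p.1)).symm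
    _ = ∑ p : (G → Bool) × (G → Bool), f p.1 * g p.2 := by
        refine Finset.sum_congr rfl fun p _ => ?_
        have h1 : f (e p).1 = f p.1 := hf _ _ fun x hx => by simp [e, mix, hx]
        have h2 : g (e p).1 = g p.2 := hg _ _ fun x hx => by simp [e, mix, hx]
        rw [h1, h2]
    _ = (∑ S : G → Bool, f S) * ∑ S : G → Bool, g S := by
        rw [Fintype.sum_prod_type, Finset.sum_mul_sum]

theorem indep_prod {G : Type} [Fintype G] [DecidableEq G] {ι : Type*} [DecidableEq ι] (H : Finset ι)
    (N : ι → Finset G) (w : ι → (G → Bool) → ℝ)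
    (hdisj : ∀ i ∈ H, ∀ j ∈ H, i ≠ j → Disjoint (N i) (N j))
    (hdep : ∀ i ∈ H, ∀ S S' : G → Bool, (∀ x ∈ N i, S x = S' x) → w i S = w i S') :
    ∑ S : G → Bool, ∏ i ∈ H, w i S =
      2 ^ Fintype.card G * ∏ i ∈ H, ((∑ S : G → Bool, w i S) / 2 ^ Fintype.card G) := by
  induction H using Finset.induction_on with
  | empty => simp
  | insert a H ha ih =>
    have h2 : (2 : ℝ) ^ Fintype.card G ≠ 0 := by positivity
    have ih' := ih (fun i hi j hj => hdisj i (mem_insert_of_mem hi) j (mem_insert_of_mem hj))
      (fun i hi => hdep i (mem_insert_of_mem hi))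
    have h := indep_two (N a) (w a) (fun S => ∏ i ∈ H, w i S) (hdep a (mem_insert_self a H)) (by
      intro S S' hS
      refine Finset.prod_congr rfl fun i hi => hdep i (mem_insert_of_mem hi) S S' fun x hx => hS x ?_
      have := hdisj i (mem_insert_of_mem hi) a (mem_insert_self a H) (by rintro rfl; exact ha hi)
      exact Finset.disjoint_left.1 this hx)
    simp only [Finset.prod_insert ha]
    have h3 : ∑ S : G → Bool, w a S * ∏ i ∈ H, w i S =
        (∑ S : G → Bool, w a S) * (∑ S : G → Bool, ∏ i ∈ H, w i S) / 2 ^ Fintype.card G := by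
      rw [eq_div_iff h2, mul_comm, h]
    rw [h3, ih']
    field_simp

end CDG
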