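import Pool.Agent.CDG.Greedy
import Pool.Agent.CDG.Ind

/-!
# CDG.Diff: the neighbourhoods of two vertices differ in many points

PROOF. Fix `t ≠ 1`, `D S = #{g : S g ≠ S (tg)}`. Greedy: there is `H ⊆ G` with `3 |H| ≥ n` such that the pairs `{g, tg}`, `g ∈ H`, are pairwise disjoint (`R g h` if `g ≠ h` and the pairs meet: `h = tg` or `h = t⁻¹g`: at most 2). `D S ≥ D_H S = #{g ∈ H : S g ≠ S (tg)}`, and `∑_S 2^(-D_H S) = 2^n (3/4)^|H|` (product over the
disjoint pairs). So `#{S : D S ≤ n/24} ≤ 2^n 2^(n/24) (3/4)^(n/3) ≤ 2^n (0.94)^n`; summed over the `t`: `≤ 2^n n (0.94)^n ≤ C 2^n/√n`.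
-/

namespace CDG

open Finset

private lemma Diff_flip {G : Type} [Fintype G] [DecidableEq G] (g h : G) (hgh : h ≠ g) :
    ∑ S : G → Bool, (if S g ≠ S h then (1 / 2 : ℝ) else 1) = 2 ^ Fintype.card G * (3 / 4) := by
  let e : (G → Bool) ≃ (G → Bool) :=
    { toFun := fun S => Function.update S g (!S g)
      invFun := fun S => Function.update S g (!S g)
      left_inv := by intro S; simp
      right_inv := by intro S; simp }
  have h1 : ∑ S : G → Bool, (if S g ≠ S h then (1 / 2 : ℝ) else 1) =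
      ∑ S : G → Bool, (if (e S) g ≠ (e S) h then (1 / 2 : ℝ) else 1) :=
    (Equiv.sum_comp e (fun S => if S g ≠ S h then (1 / 2 : ℝ) else 1)).symm
  have h2 : ∑ S : G → Bool, (if S g ≠ S h then (1 / 2 : ℝ) else 1) +
      ∑ S : G → Bool, (if (e S) g ≠ (e S) h then (1 / 2 : ℝ) else 1) =
      ∑ S : G → Bool, (3 / 2 : ℝ) := by
    rw [← Finset.sum_add_distrib]
    refine Finset.sum_congr rfl fun S _ => ?_
    simp only [e, Equiv.coe_fn_mk, Function.update_self, Function.update_of_ne hgh]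
    cases S g <;> cases S h <;> norm_num
  rw [← h1] at h2
  simp only [Finset.sum_const, Finset.card_univ, Fintype.card_fun, Fintype.card_bool, nsmul_eq_mul] at h2
  push_cast at h2
  linarith

theorem diff_one {G : Type} [Group G] [Fintype G] [DecidableEq G] (t : G) (ht : t ≠ 1) :
    ((univ.filter fun S : G → Bool =>
      24 * (univ.filter fun g => S g ≠ S (t * g)).card ≤ Fintype.card G).card : ℝ) ≤
      2 ^ Fintype.card G * (19 / 20 : ℝ) ^ Fintype.card G := by
  classical
  set n := Fintype.card G with hn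
  obtain ⟨H, -, hH, hHc⟩ := greedy (fun g h : G => h = t * g ∨ g = t * h) (by
    intro u v h
    exact h.symm) 2 (univ : Finset G) (by
    intro u _
    have : (univ.filter fun v => v = t * u ∨ u = t * v) ⊆ {t * u, t⁻¹ * u} := by
      intro v hv
      simp only [mem_filter, mem_univ, true_and] at hv
      rcases hv with h | h
      · simp [h]
      · simp [h]
    exact (Finset.card_le_card this).trans (Finset.card_le_two))
  have hne : ∀ g : G, t * g ≠ g := fun g h => ht (by simpa using h)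
  have hE := indep_prod H (fun g => ({g, t * g} : Finset G)) (fun g S => if S g ≠ S (t * g) then (1 / 2 : ℝ) else 1)
    (by
      intro g hg h hh hgh
      rw [Finset.disjoint_left]
      intro x hx hx'
      simp only [mem_insert, mem_singleton] at hx hx'
      have hR := hH g hg h hh hgh
      rcases hx with rfl | rfl <;> rcases hx' with h' | h'
      · exact hgh h'
      · exact hR (Or.inr h')
      · exact hR (Or.inl h'.symm)
      · exact hgh (mul_left_cancel h'))
    (by
      intro g _ S S' hS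
      have h1 := hS g (by simp)
      have h2 := hS (t * g) (by simp)
      simp only [h1, h2])
  have hval : ∀ g ∈ H, (∑ S : G → Bool, (if S g ≠ S (t * g) then (1 / 2 : ℝ) else 1)) / 2 ^ Fintype.card G = 3 / 4 := by
    intro g _
    rw [Diff_flip g (t * g) (hne g)]
    field_simp
  rw [Finset.prod_congr rfl hval, Finset.prod_const] at hE
  -- Markov
  have hpt : ∀ S ∈ (univ.filter fun S : G → Bool => 24 * (univ.filter fun g => S g ≠ S (t * g)).card ≤ n),
      (1 / 2 : ℝ) ^ (n / 24) ≤ ∏ g ∈ H, (if S g ≠ S (t * g) then (1 / 2 : ℝ) else 1) := by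
    intro S hS
    rw [mem_filter] at hS
    rw [Finset.prod_ite, Finset.prod_const, Finset.prod_const_one, mul_one]
    refine pow_le_pow_of_le_one (by norm_num) (by norm_num) ?_
    have : (H.filter fun g => S g ≠ S (t * g)).card ≤ (univ.filter fun g => S g ≠ S (t * g)).card :=
      Finset.card_le_card (Finset.filter_subset_filter _ (Finset.subset_univ _))
    have h3 := hS.2
    rw [Nat.le_div_iff_mul_le (by norm_num)]
    omega
  have hsum : ((univ.filter fun S : G → Bool => 24 * (univ.filter fun g => S g ≠ S (t * g)).card ≤ n).card : ℝ) *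
      (1 / 2 : ℝ) ^ (n / 24) ≤ 2 ^ n * (3 / 4 : ℝ) ^ H.card := by
    rw [← nsmul_eq_mul]
    refine (Finset.card_nsmul_le_sum _ _ _ hpt).trans ?_
    rw [← hE]
    refine Finset.sum_le_sum_of_subset_of_nonneg (Finset.subset_univ _) fun S _ _ => ?_
    refine Finset.prod_nonneg fun g _ => ?_
    split_ifs <;> norm_num
  have hHn : n ≤ 3 * H.card := by
    rw [hn, ← Finset.card_univ]; omega
  have h34 : (3 / 4 : ℝ) ^ H.card ≤ (91 / 100 : ℝ) ^ n := by
    calc (3 / 4 : ℝ) ^ H.card ≤ ((91 / 100 : ℝ) ^ 3) ^ H.card := by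
          gcongr; norm_num
      _ = (91 / 100 : ℝ) ^ (3 * H.card) := by rw [pow_mul]
      _ ≤ (91 / 100 : ℝ) ^ n := pow_le_pow_of_le_one (by norm_num) (by norm_num) hHn
  have h2 : (2 : ℝ) ^ (n / 24) ≤ (103 / 100 : ℝ) ^ n := by
    calc (2 : ℝ) ^ (n / 24) ≤ ((103 / 100 : ℝ) ^ 24) ^ (n / 24) := by
          gcongr; norm_num
      _ = (103 / 100 : ℝ) ^ (24 * (n / 24)) := by rw [pow_mul]
      _ ≤ (103 / 100 : ℝ) ^ n := pow_le_pow_right₀ (by norm_num) (Nat.mul_div_le n 24)
  have hpow : (1 / 2 : ℝ) ^ (n / 24) * 2 ^ (n / 24) = 1 := by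
    rw [← mul_pow]; norm_num
  set X := ((univ.filter fun S : G → Bool => 24 * (univ.filter fun g => S g ≠ S (t * g)).card ≤ n).card : ℝ)
  calc X = X * (1 / 2 : ℝ) ^ (n / 24) * 2 ^ (n / 24) := by rw [mul_assoc, hpow, mul_one]
    _ ≤ 2 ^ n * (3 / 4 : ℝ) ^ H.card * 2 ^ (n / 24) := by gcongr
    _ ≤ 2 ^ n * (91 / 100 : ℝ) ^ n * (103 / 100 : ℝ) ^ n := by gcongr
    _ = 2 ^ n * ((91 / 100) * (103 / 100) : ℝ) ^ n := by rw [mul_pow, mul_assoc]
    _ ≤ 2 ^ n * (19 / 20 : ℝ) ^ n := by gcongr; norm_num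

theorem diff_all : ∃ C : ℝ, 0 < C ∧ ∀ (G : Type) [Group G] [Fintype G] [DecidableEq G],
    ((univ.filter fun S : G → Bool => ∃ t : G, t ≠ 1 ∧
      24 * (univ.filter fun g => S g ≠ S (t * g)).card ≤ Fintype.card G).card : ℝ) ≤
      C * 2 ^ Fintype.card G / √(Fintype.card G : ℝ) := by
  have ht : Filter.Tendsto (fun n : ℕ => (n : ℝ) ^ 2 * (19 / 20 : ℝ) ^ n) Filter.atTop (nhds 0) :=
    tendsto_pow_const_mul_const_pow_of_abs_lt_one 2 (by norm_num [abs_of_pos])
  obtain ⟨K, hK⟩ := ht.bddAbove_range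
  refine ⟨max K 1, by positivity, fun G _ _ _ => ?_⟩
  classical
  set n := Fintype.card G with hn
  have hn1 : 1 ≤ n := Fintype.card_pos
  have hKn : (n : ℝ) ^ 2 * (19 / 20 : ℝ) ^ n ≤ K := hK ⟨n, rfl⟩
  have hsub : (univ.filter fun S : G → Bool => ∃ t : G, t ≠ 1 ∧
      24 * (univ.filter fun g => S g ≠ S (t * g)).card ≤ n) ⊆
      ((univ : Finset G).filter (fun t => t ≠ 1)).biUnion fun t =>
        (univ.filter fun S : G → Bool => 24 * (univ.filter fun g => S g ≠ S (t * g)).card ≤ n) := by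
    intro S hS
    simp only [mem_filter, mem_univ, true_and] at hS
    obtain ⟨t, ht1, ht2⟩ := hS
    simp only [mem_biUnion, mem_filter, mem_univ, true_and]
    exact ⟨t, ht1, ht2⟩
  have h1 : ((univ.filter fun S : G → Bool => ∃ t : G, t ≠ 1 ∧
      24 * (univ.filter fun g => S g ≠ S (t * g)).card ≤ n).card : ℝ) ≤
      n * (2 ^ n * (19 / 20 : ℝ) ^ n) := by
    calc _ ≤ ((((univ : Finset G).filter (fun t => t ≠ 1)).biUnion fun t =>
        (univ.filter fun S : G → Bool => 24 * (univ.filter fun g => S g ≠ S (t * g)).card ≤ n)).card : ℝ) := by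
          exact_mod_cast Finset.card_le_card hsub
      _ ≤ ∑ t ∈ (univ : Finset G).filter (fun t => t ≠ 1),
        ((univ.filter fun S : G → Bool => 24 * (univ.filter fun g => S g ≠ S (t * g)).card ≤ n).card : ℝ) := by
          exact_mod_cast Finset.card_biUnion_le
      _ ≤ ∑ t ∈ (univ : Finset G).filter (fun t => t ≠ 1), (2 ^ n * (19 / 20 : ℝ) ^ n) := by
          refine Finset.sum_le_sum fun t ht => diff_one t (by simpa using ht)
      _ ≤ n * (2 ^ n * (19 / 20 : ℝ) ^ n) := by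
          rw [Finset.sum_const, nsmul_eq_mul]
          gcongr
          exact_mod_cast (Finset.card_filter_le _ _).trans (by rw [Finset.card_univ])
  refine h1.trans ?_
  have hs : (0 : ℝ) < √(n : ℝ) := Real.sqrt_pos.2 (by exact_mod_cast hn1)
  rw [le_div_iff₀ hs]
  have hs2 : √(n : ℝ) ≤ n := by
    rw [Real.sqrt_le_left (by positivity)]
    have : (1 : ℝ) ≤ n := by exact_mod_cast hn1
    nlinarith
  calc (n : ℝ) * (2 ^ n * (19 / 20 : ℝ) ^ n) * √(n : ℝ) ≤ (n : ℝ) * (2 ^ n * (19 / 20 : ℝ) ^ n) * n := by gcongr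
    _ = ((n : ℝ) ^ 2 * (19 / 20 : ℝ) ^ n) * 2 ^ n := by ring
    _ ≤ K * 2 ^ n := by gcongr
    _ ≤ max K 1 * 2 ^ n := by gcongr; exact le_max_left _ _

end CDG
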