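import Pool.Agent.CDG.SB
import Pool.Agent.CDG.Alg

/-!
# CDG.Exc: the exceptional pairs: their number, and one free dimension

PROOF. `exc_count`: if `u² ≠ 1` and `GoodU x x' u` fails then one of the equations `x = u²`, `x = u⁻²`, `x' = u²`, `x' = u⁻²`, `a = b` with `a ∈ PP x u`, `b ∈ PP x' u` (8 · 8 equations) holds; each of these 68 equations has at most `n²` solutions `(x, x', u)`, because it determines `x'` (or, for the first two, `x`) by the two
other unknowns. So `∑_{x,x'} #{u : ...} ≤ 68 n²`, and Markov.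
`pair_A`: `f S = #{y : S y ∧ S (x⁻¹y)} - #{y : S y ∧ S (x'⁻¹y)}` (`d = 1`), `U = G`, `N u = {x⁻¹u, xu, x'⁻¹u, x'u}`; the increment at `u` is `[x⁻¹u] + [xu] - [x'⁻¹u] - [x'u]` (the two `y` are `u` and `xu ≠ u`); for `S` = indicator of `xu` it is `≥ 1` as `xu ≠ x'⁻¹u`, `x'u`. `small_ball 1 4`.
`pair_B`: `x' = x⁻¹ ≠ x`: `f S = #{y : S y ∧ S (y⁻¹x)} - #{y : S y ∧ S (y⁻¹x⁻¹)}`, `U = {u : u⁻¹x ≠ x⁻¹u⁻¹}`, `N u = {u⁻¹x, xu⁻¹, u⁻¹x⁻¹, x⁻¹u⁻¹} \ {u}`. `|U| ≥ n/2`: the complement `W` of `U` consists of the `w` with `w⁻¹xw = x⁻¹`; if `w₀ ∈ W` then `w ↦ w₀w⁻¹` maps `W` injectively into the elements which commute with `x`, and these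
do not invert `x` (`x ≠ x⁻¹`). Increment: if `u² ≠ x`, the pairs `(y, y⁻¹x)` which contain `u` are `(u, u⁻¹x)`, `(xu⁻¹, u)` and the increment of the first count is `[u⁻¹x] + [xu⁻¹]`; if `u² = x` it is the pair `(u, u)` only, increment `1`. The same for `x⁻¹`.
Nonzero value: if `u² = x` (then `u² ≠ x⁻¹`) at `S = 0`: `1`; if `u² = x⁻¹` at `S = 0`: `-1`; otherwise at `S` = indicator of `u⁻¹x`: `≥ 1` (`u⁻¹x ≠ u⁻¹x⁻¹`, and `≠ x⁻¹u⁻¹` as `u ∈ U`). `small_ball 1 4`.
`exc_pair`: `pair_A` if `x' ≠ x⁻¹`, otherwise `pair_B`; the counts are `Phi φ S x 0` with `φ c c' = ![if c.1 ∧ c'.1 then 1 else 0]` resp. `![if c.1 ∧ c'.2 then 1 else 0]`, so `Phi_of_F` applies.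
-/

namespace CDG

open Finset

private lemma Exc_card8 {G : Type} [DecidableEq G] (a b c d e f g h : G) :
    ({a, b, c, d, e, f, g, h} : Finset G).card ≤ 8 :=
  (Finset.card_insert_le _ _).trans (Nat.succ_le_succ ((Finset.card_insert_le _ _).trans
    (Nat.succ_le_succ Finset.card_le_six)))

private lemma Exc_inv {G : Type} [Group G] [DecidableEq G] {x u g : G} (h : g ∈ PP x u) :
    x ∈ ({u * g⁻¹, u * g, u⁻¹ * g⁻¹, u⁻¹ * g, g * u⁻¹, g⁻¹ * u⁻¹, g * u, g⁻¹ * u} : Finset G) := by
  simp only [PP, mem_insert, mem_singleton] at h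
  simp only [mem_insert, mem_singleton]
  rcases h with rfl | rfl | rfl | rfl | rfl | rfl | rfl | rfl
  · left; group
  · right; left; group
  · right; right; left; group
  · right; right; right; left; group
  · right; right; right; right; left; group
  · right; right; right; right; right; left; group
  · right; right; right; right; right; right; left; group
  · right; right; right; right; right; right; right; group

open Classical in
theorem exc_count {G : Type} [Group G] [Fintype G] [DecidableEq G] :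
    ((univ : Finset (G × G)).filter fun p =>
      Fintype.card G < 8 * (univ.filter fun u : G => u * u ≠ 1 ∧ ¬ GoodU p.1 p.2 u).card).card ≤
      1000 * Fintype.card G := by
  set n := Fintype.card G with hn
  have hn0 : 0 < n := Fintype.card_pos
  -- for fixed `u`, `x`
  have h1 : ∀ u x : G, (univ.filter fun x' : G => u * u ≠ 1 ∧ ¬ GoodU x x' u).card ≤
      66 + (if x = u * u ∨ x = u⁻¹ * u⁻¹ then n else 0) := by
    intro u x
    by_cases hx : x = u * u ∨ x = u⁻¹ * u⁻¹
    · rw [if_pos hx]
      refine (Finset.card_filter_le _ _).trans ?_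
      rw [card_univ]
      omega
    · rw [if_neg hx, add_zero]
      push Not at hx
      have hsub : (univ.filter fun x' : G => u * u ≠ 1 ∧ ¬ GoodU x x' u) ⊆
          ({u * u, u⁻¹ * u⁻¹} : Finset G) ∪ (PP x u).biUnion fun g =>
            ({u * g⁻¹, u * g, u⁻¹ * g⁻¹, u⁻¹ * g, g * u⁻¹, g⁻¹ * u⁻¹, g * u, g⁻¹ * u} : Finset G) := by
        intro x' hx'
        simp only [mem_filter, mem_univ, true_and] at hx'
        rw [mem_union, mem_biUnion]
        by_contra hcon
        push Not at hcon
        obtain ⟨hc1, hc2⟩ := hcon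
        simp only [mem_insert, mem_singleton, not_or] at hc1
        apply hx'.2
        refine ⟨hx'.1, hx.1, hx.2, hc1.1, hc1.2, ?_⟩
        rw [Finset.disjoint_left]
        intro g hg hg'
        exact hc2 g hg (Exc_inv hg')
      refine (Finset.card_le_card hsub).trans ((Finset.card_union_le _ _).trans ?_)
      have h2 : ({u * u, u⁻¹ * u⁻¹} : Finset G).card ≤ 2 := Finset.card_le_two
      have h3 : ((PP x u).biUnion fun g =>
            ({u * g⁻¹, u * g, u⁻¹ * g⁻¹, u⁻¹ * g, g * u⁻¹, g⁻¹ * u⁻¹, g * u, g⁻¹ * u} : Finset G)).card ≤ 8 * 8 := by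
        refine Finset.card_biUnion_le.trans ((Finset.sum_le_sum fun g _ => Exc_card8 _ _ _ _ _ _ _ _).trans ?_)
        rw [Finset.sum_const, smul_eq_mul]
        exact Nat.mul_le_mul_right _ (Exc_card8 _ _ _ _ _ _ _ _)
      omega
  have h2 : ∀ u : G, ∑ x : G, (univ.filter fun x' : G => u * u ≠ 1 ∧ ¬ GoodU x x' u).card ≤ 68 * n := by
    intro u
    refine (Finset.sum_le_sum fun x _ => h1 u x).trans ?_
    rw [Finset.sum_add_distrib, Finset.sum_const, card_univ, smul_eq_mul, ← hn, ← Finset.sum_filter, Finset.sum_const,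
      smul_eq_mul]
    have h3 : (univ.filter fun x : G => x = u * u ∨ x = u⁻¹ * u⁻¹).card ≤ 2 := by
      refine (Finset.card_le_card (t := {u * u, u⁻¹ * u⁻¹}) ?_).trans Finset.card_le_two
      intro x hx
      simpa using hx
    nlinarith
  have h3 : ∑ p : G × G, (univ.filter fun u : G => u * u ≠ 1 ∧ ¬ GoodU p.1 p.2 u).card ≤ 68 * n * n := by
    have h4 : ∑ p : G × G, (univ.filter fun u : G => u * u ≠ 1 ∧ ¬ GoodU p.1 p.2 u).card =
        ∑ u : G, ∑ x : G, (univ.filter fun x' : G => u * u ≠ 1 ∧ ¬ GoodU x x' u).card := by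
      simp only [Finset.card_filter]
      rw [Fintype.sum_prod_type]
      rw [Finset.sum_comm' (s := univ) (t := fun _ => univ) (t' := univ) (s' := fun _ => univ) (by simp)]
      rw [Finset.sum_comm]
      refine Eq.trans ?_ (Finset.sum_comm)
      refine Finset.sum_congr rfl fun x _ => ?_
      rw [Finset.sum_comm]
    rw [h4]
    refine (Finset.sum_le_sum fun u _ => h2 u).trans ?_
    rw [Finset.sum_const, card_univ, smul_eq_mul, ← hn]
    exact le_of_eq (by ring)
  set E := ((univ : Finset (G × G)).filter fun p =>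
      n < 8 * (univ.filter fun u : G => u * u ≠ 1 ∧ ¬ GoodU p.1 p.2 u).card) with hE
  have h4 : E.card * n ≤ 8 * (68 * n * n) := by
    calc E.card * n = E.card • n := by rw [smul_eq_mul]
      _ ≤ ∑ p ∈ E, 8 * (univ.filter fun u : G => u * u ≠ 1 ∧ ¬ GoodU p.1 p.2 u).card := by
          refine Finset.card_nsmul_le_sum _ _ _ fun p hp => ?_
          exact (Finset.mem_filter.1 hp).2.le
      _ ≤ ∑ p : G × G, 8 * (univ.filter fun u : G => u * u ≠ 1 ∧ ¬ GoodU p.1 p.2 u).card :=
          Finset.sum_le_sum_of_subset (Finset.subset_univ _)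
      _ ≤ 8 * (68 * n * n) := by
          rw [← Finset.mul_sum]
          exact Nat.mul_le_mul_left _ h3
  have h5 : E.card * n ≤ (1000 * n) * n := by nlinarith
  exact Nat.le_of_mul_le_mul_right h5 hn0

/-- The value of a bit. -/
private def bi (b : Bool) : ℤ := if b = true then 1 else 0

private def cA {G : Type} [Group G] [Fintype G] (x : G) (S : G → Bool) : ℤ :=
  ∑ y : G, (if S y = true ∧ S (x⁻¹ * y) = true then 1 else 0)

private def cB {G : Type} [Group G] [Fintype G] (x : G) (S : G → Bool) : ℤ :=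
  ∑ y : G, (if S y = true ∧ S (y⁻¹ * x) = true then 1 else 0)

private lemma Exc_incA {G : Type} [Group G] [Fintype G] [DecidableEq G] {x : G} (hx : x ≠ 1) (u : G)
    (S : G → Bool) :
    cA x (Function.update S u true) - cA x (Function.update S u false) = bi (S (x⁻¹ * u)) + bi (S (x * u)) := by
  have e1 : x⁻¹ * u ≠ u := fun h => hx (by simpa using h)
  have e2 : x * u ≠ u := fun h => hx (by simpa using h)
  unfold cA
  rw [← Finset.sum_sub_distrib, ← Finset.sum_subset (Finset.subset_univ ({u, x * u} : Finset G))]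
  · rw [Finset.sum_pair e2.symm]
    have e3 : x⁻¹ * (x * u) = u := by group
    simp only [e3, Function.update_self, Function.update_of_ne e1, Function.update_of_ne e2, bi]
    simp
  · intro y _ hy
    simp only [mem_insert, mem_singleton, not_or] at hy
    have a1 : x⁻¹ * y ≠ u := fun h => hy.2 (by rw [← h]; group)
    simp [Function.update_of_ne hy.1, Function.update_of_ne a1]

private lemma Exc_incB {G : Type} [Group G] [Fintype G] [DecidableEq G] (x : G) (u : G)
    (S : G → Bool) :
    cB x (Function.update S u true) - cB x (Function.update S u false) =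
      if u * u = x then 1 else bi (S (u⁻¹ * x)) + bi (S (x * u⁻¹)) := by
  have hz : ∀ y, y ≠ u → y ≠ x * u⁻¹ →
      (if Function.update S u true y = true ∧ Function.update S u true (y⁻¹ * x) = true then (1 : ℤ) else 0) -
      (if Function.update S u false y = true ∧ Function.update S u false (y⁻¹ * x) = true then (1 : ℤ) else 0) = 0 := by
    intro y h1 h2
    have a1 : y⁻¹ * x ≠ u := fun h => h2 (by rw [← h]; group)
    simp [Function.update_of_ne h1, Function.update_of_ne a1]
  unfold cB
  rw [← Finset.sum_sub_distrib]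
  split_ifs with h
  · have e1 : x * u⁻¹ = u := by rw [← h]; group
    have e2 : u⁻¹ * x = u := by rw [← h]; group
    rw [Finset.sum_eq_single u]
    · simp [e2]
    · intro y _ hy
      exact hz y hy (by rw [e1]; exact hy)
    · intro h; exact absurd (mem_univ _) h
  · have e1 : x * u⁻¹ ≠ u := fun hh => h (by nth_rewrite 1 [← hh]; group)
    have e2 : u⁻¹ * x ≠ u := fun hh => h (by nth_rewrite 2 [← hh]; group)
    have e3 : (x * u⁻¹)⁻¹ * x = u := by group
    rw [← Finset.sum_subset (Finset.subset_univ ({u, x * u⁻¹} : Finset G))]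
    · rw [Finset.sum_pair e1.symm]
      simp only [e3, Function.update_self, Function.update_of_ne e1, Function.update_of_ne e2, bi]
      simp
    · intro y _ hy
      simp only [mem_insert, mem_singleton, not_or] at hy
      exact hz y hy.1 hy.2

private lemma Exc_span {α : Type*} (w : α → (Fin 1 → ℤ)) (s : α) (hs : w s 0 ≠ 0) :
    Submodule.span ℚ (Set.range fun s : α => fun i => ((w s i : ℤ) : ℚ)) = ⊤ := by
  rw [eq_top_iff]
  intro v _
  have hq : ((w s 0 : ℤ) : ℚ) ≠ 0 := by exact_mod_cast hs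
  have : v = (v 0 / ((w s 0 : ℤ) : ℚ)) • (fun i => ((w s i : ℤ) : ℚ)) := by
    funext i
    have hi : i = 0 := Subsingleton.elim _ _
    subst hi
    simp only [Pi.smul_apply, smul_eq_mul]
    field_simp
  rw [this]
  exact Submodule.smul_mem _ _ (Submodule.subset_span ⟨s, rfl⟩)

private lemma Exc_bi (b : Bool) : 0 ≤ bi b ∧ bi b ≤ 1 := by
  cases b <;> simp [bi]

private lemma Exc_card4 {G : Type} [DecidableEq G] (a b c d : G) : ({a, b, c, d} : Finset G).card ≤ 4 :=
  Finset.card_le_four

private lemma Exc_cA {G : Type} [Group G] [Fintype G] (x : G) (S : G → Bool) :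
    cA x S = ((univ.filter fun y => S y = true ∧ S (x⁻¹ * y) = true).card : ℤ) := by
  unfold cA
  rw [Finset.sum_boole]

private lemma Exc_cB {G : Type} [Group G] [Fintype G] (x : G) (S : G → Bool) :
    cB x S = ((univ.filter fun y => S y = true ∧ S (y⁻¹ * x) = true).card : ℤ) := by
  unfold cB
  rw [Finset.sum_boole]

theorem pair_A : ∃ C : ℝ, 0 < C ∧ ∀ (G : Type) [Group G] [Fintype G] [DecidableEq G] (x x' : G),
    x ≠ 1 → x' ≠ 1 → x ≠ x' → x' ≠ x⁻¹ →
    ((univ.filter fun S : G → Bool => (univ.filter fun y => S y = true ∧ S (x⁻¹ * y) = true).card =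
      (univ.filter fun y => S y = true ∧ S (x'⁻¹ * y) = true).card).card : ℝ) ≤
      C * 2 ^ Fintype.card G / √(Fintype.card G : ℝ) := by
  obtain ⟨C, hC, hsb⟩ := small_ball 1 4
  refine ⟨C, hC, fun G _ _ _ x x' hx hx' hxx hxi => ?_⟩
  have hn : 0 < Fintype.card G := Fintype.card_pos
  set f : (G → Bool) → (Fin 1 → ℤ) := fun S _ => cA x S - cA x' S with hf
  have hinc : ∀ u S i, incr f u S i = bi (S (x⁻¹ * u)) + bi (S (x * u)) - (bi (S (x'⁻¹ * u)) + bi (S (x' * u))) := by
    intro u S i
    rw [← Exc_incA hx, ← Exc_incA hx']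
    simp only [incr, hf, Pi.sub_apply]
    ring
  have hloc : Loc f (univ : Finset G) (fun u => {x⁻¹ * u, x * u, x'⁻¹ * u, x' * u}) 4 := by
    refine ⟨fun u _ => Exc_card4 _ _ _ _, ?_, ?_, ?_, ?_, ?_⟩
    · intro g
      refine (Finset.card_le_card (t := {x * g, x⁻¹ * g, x' * g, x'⁻¹ * g}) ?_).trans (Exc_card4 _ _ _ _)
      intro u hu
      simp only [mem_filter, mem_univ, true_and, mem_insert, mem_singleton] at hu ⊢
      rcases hu with rfl | rfl | rfl | rfl
      · left; group
      · right; left; group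
      · right; right; left; group
      · right; right; right; group
    · intro u _ hu
      simp only [mem_insert, mem_singleton] at hu
      rcases hu with h | h | h | h
      · exact hx (by simpa using h)
      · exact hx (by simpa using h)
      · exact hx' (by simpa using h)
      · exact hx' (by simpa using h)
    · intro u _ S S' h
      funext i
      rw [hinc, hinc, h (x⁻¹ * u) (by simp), h (x * u) (by simp), h (x'⁻¹ * u) (by simp), h (x' * u) (by simp)]
    · intro u _ S i
      rw [hinc, abs_le]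
      have h1 := Exc_bi (S (x⁻¹ * u))
      have h2 := Exc_bi (S (x * u))
      have h3 := Exc_bi (S (x'⁻¹ * u))
      have h4 := Exc_bi (S (x' * u))
      push_cast
      constructor <;> linarith [h1.1, h1.2, h2.1, h2.2, h3.1, h3.2, h4.1, h4.2]
    · intro u _
      refine Exc_span (fun S => incr f u S) (fun z => decide (z = x * u)) ?_
      show incr f u (fun z => decide (z = x * u)) 0 ≠ 0
      rw [hinc]
      have a1 : x'⁻¹ * u ≠ x * u := fun h => hxi (by
        have := mul_right_cancel h
        rw [← this, inv_inv])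
      have a2 : x' * u ≠ x * u := fun h => hxx (mul_right_cancel h).symm
      have h1 := Exc_bi (decide (x⁻¹ * u = x * u))
      simp only [a1, a2, decide_false]
      have h3 : bi (decide True) = 1 := by simp [bi]
      have h4 : bi false = 0 := by simp [bi]
      rw [h3, h4]
      omega
  have h := hsb G f univ _ hloc
  have hset : (univ.filter fun S : G → Bool => (univ.filter fun y => S y = true ∧ S (x⁻¹ * y) = true).card =
      (univ.filter fun y => S y = true ∧ S (x'⁻¹ * y) = true).card) = univ.filter fun S : G → Bool => f S = 0 := by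
    refine Finset.filter_congr fun S _ => ?_
    constructor
    · intro h
      funext i
      simp only [hf, Exc_cA, h, sub_self, Pi.zero_apply]
    · intro h
      have := congrFun h 0
      simp only [hf, Exc_cA, Pi.zero_apply] at this
      omega
  rw [hset]
  refine h.trans ?_
  rw [pow_one, card_univ]
  have hp1 : 0 < √(Fintype.card G : ℝ) := Real.sqrt_pos.2 (by exact_mod_cast hn)
  gcongr
  linarith

theorem pair_B : ∃ C : ℝ, 0 < C ∧ ∀ (G : Type) [Group G] [Fintype G] [DecidableEq G] (x : G),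
    x ≠ x⁻¹ →
    ((univ.filter fun S : G → Bool => (univ.filter fun y => S y = true ∧ S (y⁻¹ * x) = true).card =
      (univ.filter fun y => S y = true ∧ S (y⁻¹ * x⁻¹) = true).card).card : ℝ) ≤
      C * 2 ^ Fintype.card G / √(Fintype.card G : ℝ) := by
  obtain ⟨C, hC, hsb⟩ := small_ball 1 4
  refine ⟨2 * C, by positivity, fun G _ _ _ x hx => ?_⟩
  have hn : 0 < Fintype.card G := Fintype.card_pos
  set f : (G → Bool) → (Fin 1 → ℤ) := fun S _ => cB x S - cB x⁻¹ S with hf
  have hinc : ∀ u S i, incr f u S i = (if u * u = x then 1 else bi (S (u⁻¹ * x)) + bi (S (x * u⁻¹))) -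
      (if u * u = x⁻¹ then 1 else bi (S (u⁻¹ * x⁻¹)) + bi (S (x⁻¹ * u⁻¹))) := by
    intro u S i
    rw [← Exc_incB, ← Exc_incB]
    simp only [incr, hf, Pi.sub_apply]
    ring
  set U : Finset G := univ.filter fun u => u⁻¹ * x ≠ x⁻¹ * u⁻¹ with hU
  have hUc : Fintype.card G ≤ 2 * U.card := by
    set W : Finset G := univ.filter fun u => ¬ (u⁻¹ * x ≠ x⁻¹ * u⁻¹) with hW
    have h1 : U.card + W.card = Fintype.card G := by
      rw [← card_univ]; exact Finset.card_filter_add_card_filter_not _
    rcases W.eq_empty_or_nonempty with h | ⟨w₀, hw₀⟩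
    · rw [h, card_empty] at h1; omega
    · have h2 : W.card ≤ U.card := by
        refine Finset.card_le_card_of_injOn (fun w => w₀ * w⁻¹) ?_ ?_
        · intro w hw
          simp only [hW, coe_filter, mem_univ, true_and, Set.mem_ofPred_eq, not_not] at hw
          simp only [hW, mem_filter, mem_univ, true_and, not_not] at hw₀
          simp only [hU, coe_filter, mem_univ, true_and, Set.mem_ofPred_eq]
          intro hcon
          -- `c = w₀ w⁻¹` commutes with `x`
          have hc1 : w⁻¹ * x * w = x⁻¹ := by rw [hw]; group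
          have hc2 : w₀ * x⁻¹ * w₀⁻¹ = x := by
            have : x⁻¹ = w₀⁻¹ * x * w₀ := by rw [hw₀]; group
            rw [this]; group
          have hc3 : (w₀ * w⁻¹) * x = x * (w₀ * w⁻¹) := by
            calc (w₀ * w⁻¹) * x = w₀ * (w⁻¹ * x * w) * w⁻¹ := by group
              _ = w₀ * x⁻¹ * w₀⁻¹ * (w₀ * w⁻¹) := by rw [hc1]; group
              _ = x * (w₀ * w⁻¹) := by rw [hc2]
          have hc4 : (w₀ * w⁻¹)⁻¹ * x = x * (w₀ * w⁻¹)⁻¹ := by
            calc (w₀ * w⁻¹)⁻¹ * x = (w₀ * w⁻¹)⁻¹ * (x * (w₀ * w⁻¹)) * (w₀ * w⁻¹)⁻¹ := by group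
              _ = (w₀ * w⁻¹)⁻¹ * ((w₀ * w⁻¹) * x) * (w₀ * w⁻¹)⁻¹ := by rw [hc3]
              _ = x * (w₀ * w⁻¹)⁻¹ := by group
          rw [hc4] at hcon
          exact hx (mul_right_cancel hcon)
        · intro a _ b _ hab
          exact inv_injective (mul_left_cancel hab)
      omega
  have hloc : Loc f U (fun u => ({u⁻¹ * x, x * u⁻¹, u⁻¹ * x⁻¹, x⁻¹ * u⁻¹} : Finset G).erase u) 4 := by
    refine ⟨?_, ?_, ?_, ?_, ?_, ?_⟩
    · intro u _
      exact (Finset.card_le_card (Finset.erase_subset _ _)).trans (Exc_card4 _ _ _ _)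
    · intro g
      refine (Finset.card_le_card (t := {x * g⁻¹, g⁻¹ * x, x⁻¹ * g⁻¹, g⁻¹ * x⁻¹}) ?_).trans (Exc_card4 _ _ _ _)
      intro u hu
      simp only [mem_filter, mem_erase, mem_insert, mem_singleton] at hu ⊢
      rcases hu.2.2 with rfl | rfl | rfl | rfl
      · left; group
      · right; left; group
      · right; right; left; group
      · right; right; right; group
    · intro u _ hu
      exact (Finset.mem_erase.1 hu).1 rfl
    · intro u _ S S' h
      funext i
      rw [hinc, hinc]
      congr 1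
      · split_ifs with h1
        · rfl
        · have e1 : x * u⁻¹ ≠ u := fun hh => h1 (by nth_rewrite 1 [← hh]; group)
          have e2 : u⁻¹ * x ≠ u := fun hh => h1 (by nth_rewrite 2 [← hh]; group)
          rw [h (u⁻¹ * x) (by simp [e2]), h (x * u⁻¹) (by simp [e1])]
      · split_ifs with h1
        · rfl
        · have e1 : x⁻¹ * u⁻¹ ≠ u := fun hh => h1 (by nth_rewrite 1 [← hh]; group)
          have e2 : u⁻¹ * x⁻¹ ≠ u := fun hh => h1 (by nth_rewrite 2 [← hh]; group)
          rw [h (u⁻¹ * x⁻¹) (by simp [e2]), h (x⁻¹ * u⁻¹) (by simp [e1])]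
    · intro u _ S i
      rw [hinc, abs_le]
      have h1 := Exc_bi (S (u⁻¹ * x))
      have h2 := Exc_bi (S (x * u⁻¹))
      have h3 := Exc_bi (S (u⁻¹ * x⁻¹))
      have h4 := Exc_bi (S (x⁻¹ * u⁻¹))
      push_cast
      split_ifs <;> constructor <;> linarith [h1.1, h1.2, h2.1, h2.2, h3.1, h3.2, h4.1, h4.2]
    · intro u hu
      have hu' : u⁻¹ * x ≠ x⁻¹ * u⁻¹ := (Finset.mem_filter.1 hu).2
      have hb : bi false = 0 := by simp [bi]
      by_cases h1 : u * u = x
      · refine Exc_span (fun S => incr f u S) (fun _ => false) ?_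
        show incr f u (fun _ => false) 0 ≠ 0
        rw [hinc, if_pos h1, if_neg (by rw [h1]; exact hx), hb]
        norm_num
      · by_cases h2 : u * u = x⁻¹
        · refine Exc_span (fun S => incr f u S) (fun _ => false) ?_
          show incr f u (fun _ => false) 0 ≠ 0
          rw [hinc, if_neg h1, if_pos h2, hb]
          norm_num
        · refine Exc_span (fun S => incr f u S) (fun z => decide (z = u⁻¹ * x)) ?_
          show incr f u (fun z => decide (z = u⁻¹ * x)) 0 ≠ 0
          rw [hinc, if_neg h1, if_neg h2]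
          have a1 : u⁻¹ * x⁻¹ ≠ u⁻¹ * x := fun h => hx (mul_left_cancel h).symm
          have a2 : x⁻¹ * u⁻¹ ≠ u⁻¹ * x := fun h => hu' h.symm
          have h3 := Exc_bi (decide (x * u⁻¹ = u⁻¹ * x))
          simp only [a1, a2, decide_false]
          have h4 : bi (decide True) = 1 := by simp [bi]
          rw [h4, hb]
          omega
  have h := hsb G f U _ hloc
  have hset : (univ.filter fun S : G → Bool => (univ.filter fun y => S y = true ∧ S (y⁻¹ * x) = true).card =
      (univ.filter fun y => S y = true ∧ S (y⁻¹ * x⁻¹) = true).card) = univ.filter fun S : G → Bool => f S = 0 := by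
    refine Finset.filter_congr fun S _ => ?_
    constructor
    · intro h
      funext i
      simp only [hf, Exc_cB, h, sub_self, Pi.zero_apply]
    · intro h
      have := congrFun h 0
      simp only [hf, Exc_cB, Pi.zero_apply] at this
      omega
  rw [hset]
  refine h.trans ?_
  rw [pow_one]
  have hnr : (0 : ℝ) < Fintype.card G := by exact_mod_cast hn
  have hp1 : 0 < √(Fintype.card G : ℝ) := Real.sqrt_pos.2 hnr
  have hp2 : 0 < √((U.card : ℝ) + 1) := Real.sqrt_pos.2 (by positivity)
  rw [div_le_div_iff₀ hp2 hp1]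
  have h1 : √(Fintype.card G : ℝ) ≤ 2 * √((U.card : ℝ) + 1) := by
    have h4 : (2 : ℝ) = √4 := by
      rw [show (4 : ℝ) = 2 ^ 2 by norm_num, Real.sqrt_sq (by norm_num)]
    rw [h4, ← Real.sqrt_mul (by norm_num)]
    apply Real.sqrt_le_sqrt
    have : (Fintype.card G : ℝ) ≤ 2 * U.card := by exact_mod_cast hUc
    linarith
  calc C * 2 ^ Fintype.card G * √(Fintype.card G : ℝ) ≤ C * 2 ^ Fintype.card G * (2 * √((U.card : ℝ) + 1)) := by gcongr
    _ = _ := by ring

theorem exc_pair : ∃ C : ℝ, 0 < C ∧ ∀ (G : Type) [Group G] [Fintype G] [DecidableEq G] (x x' : G),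
    x ≠ 1 → x' ≠ 1 → x ≠ x' →
    ((univ.filter fun S : G → Bool => F S (fun _ : Fin 1 => (1 : G)) x = F S (fun _ : Fin 1 => (1 : G)) x').card : ℝ) ≤
      C * 2 ^ Fintype.card G / √(Fintype.card G : ℝ) := by
  obtain ⟨C₁, hC₁, hA⟩ := pair_A
  obtain ⟨C₂, hC₂, hB⟩ := pair_B
  refine ⟨C₁ + C₂, by positivity, fun G _ _ _ x x' hx hx' hxx => ?_⟩
  have hn : 0 < Fintype.card G := Fintype.card_pos
  have hp1 : 0 < √(Fintype.card G : ℝ) := Real.sqrt_pos.2 (by exact_mod_cast hn)
  by_cases hxi : x' = x⁻¹
  · have h := hB G x (by rw [← hxi]; exact hxx)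
    refine le_trans ?_ (h.trans (by gcongr; linarith))
    exact_mod_cast Finset.card_le_card (by
      intro S hS
      simp only [mem_filter, mem_univ, true_and] at hS ⊢
      have h1 := Phi_of_F (d := 1) (fun c c' => fun _ => if c.1 = true ∧ c'.2 = true then (1 : ℤ) else 0)
        (t := fun _ : Fin 1 => (1 : G)) rfl hS
      have h2 := congrFun h1 0
      simp only [Phi, Finset.sum_apply, rel, inv_one, one_mul, Finset.sum_boole, hxi] at h2
      exact_mod_cast h2)
  · have h := hA G x x' hx hx' hxx hxi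
    refine le_trans ?_ (h.trans (by gcongr; linarith))
    exact_mod_cast Finset.card_le_card (by
      intro S hS
      simp only [mem_filter, mem_univ, true_and] at hS ⊢
      have h1 := Phi_of_F (d := 1) (fun c c' => fun _ => if c.1 = true ∧ c'.1 = true then (1 : ℤ) else 0)
        (t := fun _ : Fin 1 => (1 : G)) rfl hS
      have h2 := congrFun h1 0
      simp only [Phi, Finset.sum_apply, rel, inv_one, one_mul, Finset.sum_boole] at h2
      exact_mod_cast h2)

end CDG
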