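import Pool.Agent.CDG.Gen
import Pool.Agent.CDG.Exc
import Pool.Agent.CDG.Diff

/-!
# CDG.Comb: almost all `S` are good

PROOF. `good_count`: let `Y` be the set of the `y` with `y ≠ t i` for all `i`. `Coll S = #{y ∈ Y : ∃ z ∈ Y, z ≠ y, F S t z = F S t y}`; `∑_S Coll S ≤ ∑_{y ≠ z ∈ Y} #{S : F S t y = F S t z} ≤ K 2^n √n`, so `#{S : 48 Coll S ≥ n} ≤ 48 K 2^n/√n`. If `n ≤ 48 (m+1)` the claim is trivial for `C ≥ 48 (m+1)`. If `48 Coll S < n`, `48 m < n` and
`24 #{g : S g ≠ S (tg)} > n` for all `t ≠ 1` (`diff_all`), then `S` is good: for `x ≠ x'` the set of the `y` with `S (x⁻¹y) ≠ S (x'⁻¹y)` (`g = x⁻¹y`, `x'⁻¹y = (x'⁻¹x) g`) has more than `n/24` elements, so it contains a `y ∈ Y` without collision, and `rel S x y ≠ rel S x' y`.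
`good_gen`: for `t = fun _ : Fin 1 => 1` the sum over the pairs is at most `n² · C 2^n n^(-3/2)` (the pairs with `8 #{...} ≤ n`, `gen_pair`) plus `1000 n · C 2^n n^(-1/2)` (`exc_count`, `exc_pair`).
-/

namespace CDG

open Finset

private lemma Comb_good {G : Type} [Group G] [Fintype G] [DecidableEq G] {m : ℕ} (S : G → Bool) (t : Fin m → G)
    (Coll : Finset G)
    (hColl : ∀ y, y ∉ Coll → (∀ i, y ≠ t i) → ∀ z, (∀ i, z ≠ t i) → z ≠ y → F S t z ≠ F S t y)
    (h1 : 48 * Coll.card < Fintype.card G) (h2 : 48 * m ≤ Fintype.card G)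
    (h3 : ∀ w : G, w ≠ 1 → Fintype.card G < 24 * (univ.filter fun g => S g ≠ S (w * g)).card) :
    Good S t := by
  intro x x' hxx
  have hw : x'⁻¹ * x ≠ 1 := fun h => hxx (by
    have := congrArg (fun z => x' * z) h
    simpa using this)
  have h4 := h3 _ hw
  have h5 : (univ.filter fun g => S g ≠ S (x'⁻¹ * x * g)).card ≤
      (univ.filter fun y => S (x⁻¹ * y) ≠ S (x'⁻¹ * y)).card := by
    refine Finset.card_le_card_of_injOn (fun g => x * g) ?_ ?_
    · intro g hg
      simp only [coe_filter, mem_univ, true_and, Set.mem_ofPred_eq] at hg ⊢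
      rwa [inv_mul_cancel_left, ← mul_assoc]
    · intro a _ b _ hab
      exact mul_left_cancel hab
  have h6 : ((univ : Finset (Fin m)).image t).card ≤ m := by
    refine Finset.card_image_le.trans ?_
    simp
  have h7 : ¬ (univ.filter fun y => S (x⁻¹ * y) ≠ S (x'⁻¹ * y)) ⊆ Coll ∪ (univ : Finset (Fin m)).image t := by
    intro hsub
    have h8 := (Finset.card_le_card hsub).trans (Finset.card_union_le _ _)
    omega
  rw [Finset.not_subset] at h7
  obtain ⟨y, hy1, hy2⟩ := h7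
  rw [mem_union, not_or] at hy2
  have hyt : ∀ i, y ≠ t i := fun i h => hy2.2 (Finset.mem_image.2 ⟨i, mem_univ i, h.symm⟩)
  refine ⟨y, hyt, hColl y hy2.1 hyt, ?_⟩
  intro h
  have := congrArg Prod.fst h
  simp only [rel] at this
  exact (Finset.mem_filter.1 hy1).2 this

open Classical in
theorem good_count (m : ℕ) (K : ℝ) (hK : 0 ≤ K) : ∃ C : ℝ, 0 < C ∧
    ∀ (G : Type) [Group G] [Fintype G] [DecidableEq G] (t : Fin m → G),
    (∑ p ∈ (univ : Finset (G × G)).filter (fun p => (∀ i, p.1 ≠ t i) ∧ (∀ i, p.2 ≠ t i) ∧ p.1 ≠ p.2),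
      ((univ.filter fun S : G → Bool => F S t p.1 = F S t p.2).card : ℝ)) ≤
        K * 2 ^ Fintype.card G * √(Fintype.card G : ℝ) →
    ((univ.filter fun S : G → Bool => ¬ Good S t).card : ℝ) ≤
      C * 2 ^ Fintype.card G / √(Fintype.card G : ℝ) := by
  obtain ⟨D, hD, hdiff⟩ := diff_all
  refine ⟨D + 48 * K + 48 * (m + 1), by positivity, ?_⟩
  intro G _ _ _ t hsum
  set n := Fintype.card G with hn
  have hn0 : 0 < n := Fintype.card_pos
  have hnr : (1 : ℝ) ≤ n := by exact_mod_cast hn0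
  have hs : (0 : ℝ) < √(n : ℝ) := Real.sqrt_pos.2 (by linarith)
  have hsq : √(n : ℝ) * √(n : ℝ) = n := Real.mul_self_sqrt (by linarith)
  have htriv : ((univ.filter fun S : G → Bool => ¬ Good S t).card : ℝ) ≤ 2 ^ n := by
    have := Finset.card_filter_le (univ : Finset (G → Bool)) fun S => ¬ Good S t
    rw [Finset.card_univ, Fintype.card_fun, Fintype.card_bool] at this
    exact_mod_cast this
  rcases Nat.lt_or_ge (48 * (m + 1)) n with hbig | hsmall
  swap
  · refine htriv.trans ?_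
    rw [le_div_iff₀ hs, mul_comm]
    have h1 : √(n : ℝ) ≤ n := by nlinarith [Real.one_le_sqrt.2 hnr]
    have h2 : (n : ℝ) ≤ 48 * (m + 1) := by exact_mod_cast hsmall
    have h3 : √(n : ℝ) ≤ D + 48 * K + 48 * (m + 1) := by nlinarith
    gcongr
  -- collisions
  set P : Finset (G × G) := (univ : Finset (G × G)).filter (fun p => (∀ i, p.1 ≠ t i) ∧ (∀ i, p.2 ≠ t i) ∧ p.1 ≠ p.2) with hP
  let Coll : (G → Bool) → Finset G := fun S => (P.filter fun p => F S t p.1 = F S t p.2).image Prod.fst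
  have hCollc : ∀ S, (Coll S).card ≤ (P.filter fun p => F S t p.1 = F S t p.2).card := fun S => Finset.card_image_le
  have hColl : ∀ S y, y ∉ Coll S → (∀ i, y ≠ t i) → ∀ z, (∀ i, z ≠ t i) → z ≠ y → F S t z ≠ F S t y := by
    intro S y hy hyt z hzt hzy h
    apply hy
    refine Finset.mem_image.2 ⟨(y, z), ?_, rfl⟩
    rw [mem_filter, hP, mem_filter]
    exact ⟨⟨mem_univ _, hyt, hzt, hzy.symm⟩, h.symm⟩
  have hsumColl : ∑ S : G → Bool, ((Coll S).card : ℝ) ≤ K * 2 ^ n * √(n : ℝ) := by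
    refine le_trans ?_ hsum
    calc ∑ S : G → Bool, ((Coll S).card : ℝ)
        ≤ ∑ S : G → Bool, ∑ p ∈ P, (if F S t p.1 = F S t p.2 then (1 : ℝ) else 0) := by
          refine Finset.sum_le_sum fun S _ => ?_
          rw [Finset.sum_boole]
          exact_mod_cast hCollc S
      _ = ∑ p ∈ P, ((univ.filter fun S : G → Bool => F S t p.1 = F S t p.2).card : ℝ) := by
          rw [Finset.sum_comm]
          refine Finset.sum_congr rfl fun p _ => ?_
          rw [Finset.sum_boole]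
  have hmark : ((univ.filter fun S : G → Bool => n ≤ 48 * (Coll S).card).card : ℝ) ≤ 48 * K * 2 ^ n / √(n : ℝ) := by
    have h1 : ((univ.filter fun S : G → Bool => n ≤ 48 * (Coll S).card).card : ℝ) * n ≤ 48 * (K * 2 ^ n * √(n : ℝ)) := by
      calc ((univ.filter fun S : G → Bool => n ≤ 48 * (Coll S).card).card : ℝ) * n
          = (univ.filter fun S : G → Bool => n ≤ 48 * (Coll S).card).card • (n : ℝ) := by rw [nsmul_eq_mul]
        _ ≤ ∑ S ∈ (univ.filter fun S : G → Bool => n ≤ 48 * (Coll S).card), (48 * ((Coll S).card : ℝ)) := by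
            refine Finset.card_nsmul_le_sum _ _ _ fun S hS => ?_
            exact_mod_cast (Finset.mem_filter.1 hS).2
        _ ≤ ∑ S : G → Bool, (48 * ((Coll S).card : ℝ)) :=
            Finset.sum_le_sum_of_subset_of_nonneg (Finset.subset_univ _) fun S _ _ => by positivity
        _ ≤ 48 * (K * 2 ^ n * √(n : ℝ)) := by
            rw [← Finset.mul_sum]
            gcongr
    rw [le_div_iff₀ hs]
    have h2 : ((univ.filter fun S : G → Bool => n ≤ 48 * (Coll S).card).card : ℝ) * √(n : ℝ) * √(n : ℝ) ≤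
        48 * K * 2 ^ n * √(n : ℝ) := by
      rw [mul_assoc, hsq]
      linarith
    exact le_of_mul_le_mul_right h2 hs
  -- the bad sets
  have hcov : (univ.filter fun S : G → Bool => ¬ Good S t) ⊆
      (univ.filter fun S : G → Bool => ∃ w : G, w ≠ 1 ∧
        24 * (univ.filter fun g => S g ≠ S (w * g)).card ≤ n) ∪
      (univ.filter fun S : G → Bool => n ≤ 48 * (Coll S).card) := by
    intro S hS
    rw [mem_filter] at hS
    rw [mem_union, mem_filter, mem_filter]
    by_contra hcon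
    push Not at hcon
    apply hS.2
    refine Comb_good S t (Coll S) (hColl S) ?_ ?_ ?_
    · exact hcon.2 (mem_univ _)
    · omega
    · intro w hw
      exact hcon.1 (mem_univ _) w hw
  have hc : ((univ.filter fun S : G → Bool => ¬ Good S t).card : ℝ) ≤
      ((univ.filter fun S : G → Bool => ∃ w : G, w ≠ 1 ∧
        24 * (univ.filter fun g => S g ≠ S (w * g)).card ≤ n).card : ℝ) +
      ((univ.filter fun S : G → Bool => n ≤ 48 * (Coll S).card).card : ℝ) := by
    exact_mod_cast (Finset.card_le_card hcov).trans (Finset.card_union_le _ _)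
  have hd : ((univ.filter fun S : G → Bool => ∃ w : G, w ≠ 1 ∧
        24 * (univ.filter fun g => S g ≠ S (w * g)).card ≤ n).card : ℝ) ≤ D * 2 ^ n / √(n : ℝ) := by
    have := hdiff G
    convert this using 2
  refine (hc.trans (add_le_add hd hmark)).trans ?_
  rw [← add_div]
  gcongr
  have h9 : (0 : ℝ) ≤ 48 * (m + 1) * 2 ^ n := by positivity
  nlinarith

open Classical in
theorem good_gen : ∃ C : ℝ, 0 < C ∧ ∀ (G : Type) [Group G] [Fintype G] [DecidableEq G],
    (∃ g : G, g * g ≠ 1) →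
    ((univ.filter fun S : G → Bool => ¬ Good S (fun _ : Fin 1 => (1 : G))).card : ℝ) ≤
      C * 2 ^ Fintype.card G / √(Fintype.card G : ℝ) := by
  obtain ⟨C₁, hC₁, hgen⟩ := gen_pair
  obtain ⟨C₂, hC₂, hexc⟩ := exc_pair
  obtain ⟨C, hC, hmain⟩ := good_count 1 (C₁ + 1000 * C₂) (by positivity)
  refine ⟨C, hC, fun G _ _ _ hsq => hmain G _ ?_⟩
  set n := Fintype.card G with hn
  have hn0 : 0 < n := Fintype.card_pos
  have hnr : (1 : ℝ) ≤ n := by exact_mod_cast hn0
  have hs : (0 : ℝ) < √(n : ℝ) := Real.sqrt_pos.2 (by linarith)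
  have hsq' : √(n : ℝ) * √(n : ℝ) = n := Real.mul_self_sqrt (by linarith)
  set P : Finset (G × G) := (univ : Finset (G × G)).filter
    (fun p => (∀ _i : Fin 1, p.1 ≠ 1) ∧ (∀ _i : Fin 1, p.2 ≠ 1) ∧ p.1 ≠ p.2) with hP
  have hPm : ∀ p ∈ P, p.1 ≠ 1 ∧ p.2 ≠ 1 ∧ p.1 ≠ p.2 := by
    intro p hp
    rw [hP, mem_filter] at hp
    exact ⟨hp.2.1 0, hp.2.2.1 0, hp.2.2.2⟩
  set E : G × G → Prop := fun p => n < 8 * (univ.filter fun u : G => u * u ≠ 1 ∧ ¬ GoodU p.1 p.2 u).card with hE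
  rw [← Finset.sum_filter_add_sum_filter_not P E]
  have h1 : ∑ p ∈ P.filter E, ((univ.filter fun S : G → Bool => F S (fun _ : Fin 1 => (1 : G)) p.1 = F S (fun _ : Fin 1 => (1 : G)) p.2).card : ℝ) ≤
      (1000 * n) * (C₂ * 2 ^ n / √(n : ℝ)) := by
    calc _ ≤ ∑ p ∈ P.filter E, (C₂ * 2 ^ n / √(n : ℝ)) := by
          refine Finset.sum_le_sum fun p hp => ?_
          obtain ⟨a, b, c⟩ := hPm p (Finset.mem_filter.1 hp).1
          convert hexc G p.1 p.2 a b c using 2
      _ = ((P.filter E).card : ℝ) * (C₂ * 2 ^ n / √(n : ℝ)) := by rw [Finset.sum_const, nsmul_eq_mul]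
      _ ≤ (1000 * n) * (C₂ * 2 ^ n / √(n : ℝ)) := by
          gcongr
          have h2 : (P.filter E).card ≤ 1000 * n := by
            refine (Finset.card_le_card ?_).trans (exc_count (G := G))
            intro p hp
            rw [mem_filter] at hp
            rw [mem_filter]
            exact ⟨mem_univ _, hp.2⟩
          exact_mod_cast h2
  have h2 : ∑ p ∈ P.filter (fun p => ¬ E p), ((univ.filter fun S : G → Bool => F S (fun _ : Fin 1 => (1 : G)) p.1 = F S (fun _ : Fin 1 => (1 : G)) p.2).card : ℝ) ≤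
      ((n : ℝ) * n) * (C₁ * 2 ^ n / √(n : ℝ) ^ 3) := by
    calc _ ≤ ∑ p ∈ P.filter (fun p => ¬ E p), (C₁ * 2 ^ n / √(n : ℝ) ^ 3) := by
          refine Finset.sum_le_sum fun p hp => ?_
          obtain ⟨a, b, c⟩ := hPm p (Finset.mem_filter.1 hp).1
          have h3 : ¬ E p := (Finset.mem_filter.1 hp).2
          convert hgen G hsq p.1 p.2 a b (by
            simp only [hE, not_lt] at h3
            exact h3) using 2
      _ = ((P.filter (fun p => ¬ E p)).card : ℝ) * (C₁ * 2 ^ n / √(n : ℝ) ^ 3) := by rw [Finset.sum_const, nsmul_eq_mul]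
      _ ≤ ((n : ℝ) * n) * (C₁ * 2 ^ n / √(n : ℝ) ^ 3) := by
          gcongr
          have h4 : (P.filter (fun p => ¬ E p)).card ≤ n * n := by
            refine (Finset.card_le_univ _).trans ?_
            rw [Fintype.card_prod]
          exact_mod_cast h4
  refine (add_le_add h1 h2).trans (le_of_eq ?_)
  have h5 : (n : ℝ) / √(n : ℝ) = √(n : ℝ) := by
    rw [div_eq_iff hs.ne', hsq']
  have h6 : ((n : ℝ) * n) / √(n : ℝ) ^ 3 = √(n : ℝ) := by
    rw [div_eq_iff (by positivity)]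
    calc (n : ℝ) * n = (√(n : ℝ) * √(n : ℝ)) * (√(n : ℝ) * √(n : ℝ)) := by rw [hsq']
      _ = _ := by ring
  calc (1000 * n : ℝ) * (C₂ * 2 ^ n / √(n : ℝ)) + ((n : ℝ) * n) * (C₁ * 2 ^ n / √(n : ℝ) ^ 3)
      = 1000 * C₂ * 2 ^ n * ((n : ℝ) / √(n : ℝ)) + C₁ * 2 ^ n * (((n : ℝ) * n) / √(n : ℝ) ^ 3) := by ring
    _ = (C₁ + 1000 * C₂) * 2 ^ n * √(n : ℝ) := by rw [h5, h6]; ring

end CDG
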