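import Pool.Agent.WLIter.Defs

/-!
# CDG: almost all Cayley digraphs of every finite group are identified by 2-dimensional Weisfeiler-Leman.  Definitions

THEOREM. There is `C` such that for every finite group `G` of order `n` with an element `g`, `g² ≠ 1`, for all but at most `C 2^n/√n` of the subsets
`S` of `G` the Cayley digraph of `S` (`x → y` if `x⁻¹y ∈ S`) is identified by the 2-dimensional Weisfeiler-Leman algorithm (4 rounds) among all finite digraphs; for
elementary abelian 2-groups the same with dimension 3.

METHOD. Individualise the vertex `1` (for elementary abelian 2-groups: `1` and `a`). `F S t x c c'` (number of the `y` with given arcs to the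
individualised vertices `t` and given arcs to `x`) is known to the algorithm after one round. If `F S t x = F S t x'` for few pairs only, most vertices `y` have unique colours, and
since the neighbourhoods of any two vertices differ in many points, the next round is discrete (`Good`); then the digraph is identified (`WLId.lean`). For a pair `x ≠ x'`
the event `F S t x = F S t x'` is a small ball event (`small_ball`): the increment of a suitable `f : (G → Bool) → ℤ^d` at the bit of `u` depends only on the bits of a set `N u` of bounded size, and takes values which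
span `ℚ^d`; `d = 3` for all pairs with `O(n)` exceptions, `d = 1` for all pairs.
-/

namespace CDG

open Finset Pool.Agent.WLIter

/-- The `k`-ary structure of a digraph: a tuple carries the arcs between its entries. -/
def dgStr (k : ℕ) {V : Type*} (A : V → V → Prop) : (Fin k → V) → (Fin k → Fin k → Prop) :=
  fun x i j => A (x i) (x j)

/-- `k`-dimensional WL identifies the digraph `A` in 4 rounds among all finite digraphs. -/
def Identified (k : ℕ) {V : Type} [Fintype V] [DecidableEq V] (A : V → V → Prop) : Prop :=
  ∀ (V' : Type) [Fintype V'] [DecidableEq V'] (B : V' → V' → Prop),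
    wlMultiset (dgStr k A) 4 = wlMultiset (dgStr k B) 4 → ∃ e : V ≃ V', ∀ x y, A x y ↔ B (e x) (e y)

/-- The Cayley digraph of `S`. -/
def cay {G : Type} [Group G] (S : Finset G) : G → G → Prop := fun x y => x⁻¹ * y ∈ S

/-- The arcs between `x` and `y`. -/
def rel {G : Type} [Group G] (S : G → Bool) (x y : G) : Bool × Bool := (S (x⁻¹ * y), S (y⁻¹ * x))

/-- The number of the `y` with the arcs `c i` to the individualised vertices `t i` and the arcs `c'` to `x`. -/
def F {G : Type} [Group G] [Fintype G] {m : ℕ} (S : G → Bool) (t : Fin m → G) (x : G)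
    (c : Fin m → Bool × Bool) (c' : Bool × Bool) : ℕ :=
  (univ.filter fun y => (∀ i, rel S (t i) y = c i) ∧ rel S x y = c').card

/-- Any two vertices are separated by a vertex with a unique colour. -/
def Good {G : Type} [Group G] [Fintype G] {m : ℕ} (S : G → Bool) (t : Fin m → G) : Prop :=
  ∀ x x' : G, x ≠ x' → ∃ y, (∀ i, y ≠ t i) ∧ (∀ z, (∀ i, z ≠ t i) → z ≠ y → F S t z ≠ F S t y) ∧
    rel S x y ≠ rel S x' y

/-- The increment of `f` at the bit of `u`. -/
def incr {G : Type} [DecidableEq G] {d : ℕ} (f : (G → Bool) → (Fin d → ℤ)) (u : G) (S : G → Bool) :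
    Fin d → ℤ :=
  f (Function.update S u true) - f (Function.update S u false)

/-- The assumptions of the small ball estimate: the increment of `f` at the bit of `u ∈ U` is bounded, depends only on the bits of `N u`, and its values span. -/
structure Loc {G : Type} [DecidableEq G] {d : ℕ} (f : (G → Bool) → (Fin d → ℤ)) (U : Finset G)
    (N : G → Finset G) (M : ℕ) : Prop where
  card_le : ∀ u ∈ U, (N u).card ≤ M
  mem_le : ∀ g, (U.filter fun u => g ∈ N u).card ≤ M
  not_mem : ∀ u ∈ U, u ∉ N u
  loc : ∀ u ∈ U, ∀ S S' : G → Bool, (∀ g ∈ N u, S g = S' g) → incr f u S = incr f u S'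
  bdd : ∀ u ∈ U, ∀ S i, |incr f u S i| ≤ M
  span : ∀ u ∈ U, Submodule.span ℚ (Set.range fun S : G → Bool => fun i => ((incr f u S i : ℤ) : ℚ)) = ⊤

/-- A statistic of the second round. -/
def Phi {G : Type} [Group G] [Fintype G] {d : ℕ} (φ : Bool × Bool → Bool × Bool → (Fin d → ℤ))
    (S : G → Bool) (x : G) : Fin d → ℤ :=
  ∑ y : G, φ (rel S 1 y) (rel S x y)

/-- The number of arcs. -/
def mm (c : Bool × Bool) : ℕ := (if c.1 then 1 else 0) + (if c.2 then 1 else 0)

/-- The statistics used if `x⁻¹u` or `x⁻¹u⁻¹` is not an involution for many `u`. -/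
def phI (c c' : Bool × Bool) : Fin 3 → ℤ :=
  ![if mm c = 0 ∧ mm c' = 0 then 1 else 0, if mm c = 2 ∧ mm c' = 2 then 1 else 0,
    if (mm c = 0 ∧ mm c' = 2) ∨ (mm c = 2 ∧ mm c' = 0) then 1 else 0]

/-- The statistics used if both are involutions for many `u`. -/
def phII (c c' : Bool × Bool) : Fin 3 → ℤ :=
  ![if c = (true, false) ∧ c' = (true, true) then 1 else 0,
    if c = (false, true) ∧ c' = (true, true) then 1 else 0,
    if c = (true, true) ∧ c' = (true, true) then 1 else 0]

/-- The elements (other than `u`, `u⁻¹`) whose bits occur together with the bit of `u` in `Phi φ S x`. -/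
def PP {G : Type} [Group G] [DecidableEq G] (x u : G) : Finset G :=
  {x⁻¹ * u, u⁻¹ * x, x⁻¹ * u⁻¹, u * x, x * u, u⁻¹ * x⁻¹, x * u⁻¹, u * x⁻¹}

/-- `u` has no accidental coincidences for the pair `x`, `x'`. -/
structure GoodU {G : Type} [Group G] [DecidableEq G] (x x' u : G) : Prop where
  sq : u * u ≠ 1
  h1 : x ≠ u * u
  h2 : x ≠ u⁻¹ * u⁻¹
  h1' : x' ≠ u * u
  h2' : x' ≠ u⁻¹ * u⁻¹
  disj : Disjoint (PP x u) (PP x' u)

end CDG
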