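import Pool.Agent.CDG.Comb

/-!
# CDG.El: elementary abelian 2-groups, two individualised vertices

PROOF. `g² = 1` for all `g`, so `g⁻¹ = g` and `G` is commutative (`(gh)² = 1`). `t = ![1, a]`. For `x, x' ∉ {1, a}`, `x ≠ x'`:
if `x' ≠ ax`: `d = 3`, `f S = Ψ x - Ψ x'` with `Ψ S x = PhiT ψ S t x`, `ψ c c' = ![[(c 0).1 ∧ ¬(c 1).1 ∧ c'.1], [¬(c 0).1 ∧ (c 1).1 ∧ c'.1], [(c 0).1 ∧ (c 1).1 ∧ c'.1]]`, that is the numbers of the `y` with `(S y, S (ay)) = (1,0), (0,1), (1,1)` and `S (xy) = 1`. `U = G`, `N u = {au, xu, axu, x'u, ax'u}` (`u ∉ N u`).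
The bit of `u` occurs for `y = u`, `au`, `xu` (and `x'u`); with `b = [au]`, `p = [xu]`, `q = [axu]` the increment of `Ψ x` is `p (e_(1b) - e_(0b)) + q (e_(b1) - e_(b0)) + e_(pq)`, where `e_(10), e_(01), e_(11)` is the standard basis and `e_(00) = 0`. At `(b,p,q) = (0,0,0)`: `0`; `(0,1,0)`: `(2,0,0)`; `(0,0,1)`: `(0,2,0)`;
`(1,1,0)`: `(1,-1,1)`. For `S` supported on `{au, xu, axu}` (disjoint from `{x'u, ax'u}` since `x' ≠ x, ax`; `au ∉ {xu, axu, x'u, ax'u}`) the increment of `Ψ x'` is `0` (`p' = q' = 0`). So the values span; `small_ball 3 20`.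
If `x' = ax` (at most `n` pairs): `pair_A` (`x' ≠ x⁻¹ = x`), as `#{y : S y ∧ S (x⁻¹y)}` is a function of `F S t x` (`Phi_of_F`).
The sum over the pairs is `≤ n² C 2^n n^(-3/2) + n C 2^n n^(-1/2)`; `good_count`.
-/

namespace CDG

open Finset

private def ElE (p q : Bool) : Fin 3 → ℤ :=
  if p = true then (if q = true then ![0, 0, 1] else ![1, 0, 0]) else (if q = true then ![0, 1, 0] else 0)

private def ElG (p q r : Bool) : Fin 3 → ℤ := if r = true then ElE p q else 0

private def ElW (b p q : Bool) : Fin 3 → ℤ :=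
  (ElG true b p - ElG false b p) + (ElG b true q - ElG b false q) + (ElG p q true - ElG p q false)

private def ElPs {G : Type} [Group G] [Fintype G] (a x : G) (S : G → Bool) : Fin 3 → ℤ :=
  ∑ y : G, ElG (S y) (S (a * y)) (S (x * y))

private lemma El_bdd : ∀ (b p q : Bool) (i : Fin 3), -3 ≤ ElW b p q i ∧ ElW b p q i ≤ 3 := by decide

private lemma El_zero : ∀ b : Bool, ElW b false false = 0 := by decide

private lemma El_v1 : ElW false true false - ElW false false false = ![2, 0, 0] := by decide

private lemma El_v2 : ElW false false true - ElW false false false = ![0, 2, 0] := by decide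

private lemma El_v3 : ElW true true false - ElW false false false = ![1, -1, 1] := by decide

private lemma El_comm {G : Type} [Group G] (h : ∀ g : G, g * g = 1) (x y : G) : x * y = y * x := by
  have h1 : ∀ g : G, g⁻¹ = g := fun g => inv_eq_of_mul_eq_one_right (h g)
  have h2 := h1 (x * y)
  rw [mul_inv_rev, h1, h1] at h2
  exact h2.symm

private lemma El_inc {G : Type} [Group G] [Fintype G] [DecidableEq G] (h : ∀ g : G, g * g = 1) {a x : G}
    (ha : a ≠ 1) (hx : x ≠ 1) (hxa : x ≠ a) (u : G) (S : G → Bool) :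
    ElPs a x (Function.update S u true) - ElPs a x (Function.update S u false) =
      ElW (S (a * u)) (S (x * u)) (S (a * x * u)) := by
  have hc := El_comm h
  have e1 : a * u ≠ u := fun hh => ha (by simpa using hh)
  have e2 : x * u ≠ u := fun hh => hx (by simpa using hh)
  have e3 : a * x * u ≠ u := fun hh => hxa (by
    have h1 : a * x = 1 := by simpa using hh
    have h2 : a * (a * x) = a * 1 := by rw [h1]
    rw [← mul_assoc, h a, one_mul, mul_one] at h2
    exact h2)
  have e4 : a * u ≠ x * u := fun hh => hxa (mul_right_cancel hh).symm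
  unfold ElPs
  rw [← Finset.sum_sub_distrib, ← Finset.sum_subset (Finset.subset_univ ({u, a * u, x * u} : Finset G))]
  · rw [Finset.sum_insert, Finset.sum_insert, Finset.sum_singleton]
    · have f1 : a * (a * u) = u := by rw [← mul_assoc, h a, one_mul]
      have f2 : x * (x * u) = u := by rw [← mul_assoc, h x, one_mul]
      have f3 : a * (x * u) = a * x * u := by rw [mul_assoc]
      have f4 : x * (a * u) = a * x * u := by rw [← mul_assoc, hc x a]
      simp only [f1, f2, f3, f4, Function.update_self, Function.update_of_ne e1, Function.update_of_ne e2,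
        Function.update_of_ne e3, ElW]
      abel
    · rw [mem_singleton]; exact e4
    · simp only [mem_insert, mem_singleton, not_or]
      exact ⟨e1.symm, e2.symm⟩
  · intro y _ hy
    simp only [mem_insert, mem_singleton, not_or] at hy
    have a1 : a * y ≠ u := fun hh => hy.2.1 (by rw [← hh, ← mul_assoc, h a, one_mul])
    have a2 : x * y ≠ u := fun hh => hy.2.2 (by rw [← hh, ← mul_assoc, h x, one_mul])
    rw [Function.update_of_ne hy.1, Function.update_of_ne hy.1, Function.update_of_ne a1,
      Function.update_of_ne a1, Function.update_of_ne a2, Function.update_of_ne a2, sub_self]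

private def ElPsi (c : Fin 2 → Bool × Bool) (c' : Bool × Bool) : Fin 3 → ℤ := ElG (c 0).1 (c 1).1 c'.1

theorem el_pair : ∃ C : ℝ, 0 < C ∧ ∀ (G : Type) [Group G] [Fintype G] [DecidableEq G],
    (∀ g : G, g * g = 1) → ∀ a x x' : G, a ≠ 1 → x ≠ 1 → x ≠ a → x' ≠ 1 → x' ≠ a → x' ≠ x → x' ≠ a * x →
    ((univ.filter fun S : G → Bool => F S ![1, a] x = F S ![1, a] x').card : ℝ) ≤
      C * 2 ^ Fintype.card G / √(Fintype.card G : ℝ) ^ 3 := by
  obtain ⟨C, hC, hsb⟩ := small_ball 3 20
  refine ⟨C, hC, fun G _ _ _ hsq a x x' ha hx hxa hx' hxa' hxx hax => ?_⟩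
  have hn : 0 < Fintype.card G := Fintype.card_pos
  have hinv : ∀ g : G, g⁻¹ = g := fun g => inv_eq_of_mul_eq_one_right (hsq g)
  have hc := El_comm hsq
  have hcan : ∀ g z : G, g * (g * z) = z := fun g z => by rw [← mul_assoc, hsq g, one_mul]
  set f : (G → Bool) → (Fin 3 → ℤ) := fun S => ElPs a x S - ElPs a x' S with hf
  have hinc : ∀ u S, incr f u S = ElW (S (a * u)) (S (x * u)) (S (a * x * u)) -
      ElW (S (a * u)) (S (x' * u)) (S (a * x' * u)) := by
    intro u S
    rw [← El_inc hsq ha hx hxa, ← El_inc hsq ha hx' hxa']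
    simp only [incr, hf]
    abel
  have hprod : ∀ g h : G, g ≠ h → ∀ u, g * u ≠ h * u := fun g h hgh u hh => hgh (mul_right_cancel hh)
  have hax1 : a * x ≠ 1 := fun hh => hxa (by
    have := congrArg (fun z => a * z) hh
    simpa [hcan] using this)
  have hax1' : a * x' ≠ 1 := fun hh => hxa' (by
    have := congrArg (fun z => a * z) hh
    simpa [hcan] using this)
  have hloc : Loc f (univ : Finset G) (fun u => {a * u, x * u, a * x * u, x' * u, a * x' * u}) 20 := by
    refine ⟨fun u _ => ?_, ?_, ?_, ?_, ?_, ?_⟩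
    · exact Finset.card_le_five.trans (by norm_num)
    · intro g
      refine (Finset.card_le_card (t := {a * g, x * g, a * x * g, x' * g, a * x' * g}) ?_).trans
        (Finset.card_le_five.trans (by norm_num))
      intro u hu
      simp only [mem_filter, mem_univ, true_and, mem_insert, mem_singleton] at hu ⊢
      rcases hu with rfl | rfl | rfl | rfl | rfl
      · left; rw [hcan]
      · right; left; rw [hcan]
      · right; right; left; rw [hcan (a * x)]
      · right; right; right; left; rw [hcan]
      · right; right; right; right; rw [hcan (a * x')]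
    · intro u _ hu
      simp only [mem_insert, mem_singleton] at hu
      rcases hu with h | h | h | h | h
      · exact ha (by simpa using h)
      · exact hx (by simpa using h)
      · exact hax1 (by simpa using h)
      · exact hx' (by simpa using h)
      · exact hax1' (by simpa using h)
    · intro u _ S S' h
      rw [hinc, hinc, h (a * u) (by simp), h (x * u) (by simp), h (a * x * u) (by simp), h (x' * u) (by simp),
        h (a * x' * u) (by simp)]
    · intro u _ S i
      rw [hinc, Pi.sub_apply, abs_le]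
      have h1 := El_bdd (S (a * u)) (S (x * u)) (S (a * x * u)) i
      have h2 := El_bdd (S (a * u)) (S (x' * u)) (S (a * x' * u)) i
      push_cast
      constructor <;> linarith [h1.1, h1.2, h2.1, h2.2]
    · intro u _
      let Sf : Bool → Bool → Bool → G → Bool := fun b p q z =>
        if z = a * u then b else if z = x * u then p else if z = a * x * u then q else false
      have d1 : x * u ≠ a * u := hprod _ _ hxa u
      have d2 : a * x * u ≠ a * u := hprod _ _ (fun h => hx (by
        have := congrArg (fun z => a * z) h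
        simpa [hcan, hsq] using this)) u
      have d3 : a * x * u ≠ x * u := hprod _ _ (fun h => ha (by simpa using h)) u
      have d4 : x' * u ≠ a * u := hprod _ _ hxa' u
      have d5 : x' * u ≠ x * u := hprod _ _ hxx u
      have d6 : x' * u ≠ a * x * u := hprod _ _ hax u
      have d7 : a * x' * u ≠ a * u := hprod _ _ (fun h => hx' (by
        have := congrArg (fun z => a * z) h
        simpa [hcan, hsq] using this)) u
      have d8 : a * x' * u ≠ x * u := hprod _ _ (fun h => hax (by rw [← h, hcan])) u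
      have d9 : a * x' * u ≠ a * x * u := hprod _ _ (fun h => hxx (mul_left_cancel h)) u
      have hval : ∀ b p q, incr f u (Sf b p q) = ElW b p q := by
        intro b p q
        rw [hinc]
        have s1 : Sf b p q (a * u) = b := by simp [Sf]
        have s2 : Sf b p q (x * u) = p := by simp [Sf, d1]
        have s3 : Sf b p q (a * x * u) = q := by simp [Sf, d2, d3]
        have s4 : Sf b p q (x' * u) = false := by simp [Sf, d4, d5, d6]
        have s5 : Sf b p q (a * x' * u) = false := by simp [Sf, d7, d8, d9]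
        rw [s1, s2, s3, s4, s5, El_zero, sub_zero]
      apply span_of_diff (fun S : G → Bool => incr f u S) (Sf false true false) (Sf false false false)
        (Sf false false true) (Sf false false false) (Sf true true false) (Sf false false false)
      simp only [hval, El_v1, El_v2, El_v3]
      rw [Fintype.linearIndependent_iff]
      intro c hc
      have c0 := congrFun hc 0
      have c1 := congrFun hc 1
      have c2 := congrFun hc 2
      simp only [Fin.sum_univ_three, Pi.add_apply, Pi.smul_apply, smul_eq_mul, Pi.zero_apply] at c0 c1 c2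
      simp at c0 c1 c2
      rw [c2] at c0 c1
      intro i
      fin_cases i
      · show c 0 = 0
        linarith
      · show c 1 = 0
        linarith
      · exact c2
  have h := hsb G f univ _ hloc
  have hsub : ((univ.filter fun S : G → Bool => F S ![1, a] x = F S ![1, a] x').card : ℝ) ≤
      ((univ.filter fun S : G → Bool => f S = 0).card : ℝ) := by
    exact_mod_cast Finset.card_le_card (by
      intro S hS
      simp only [mem_filter, mem_univ, true_and] at hS ⊢
      have h1 := PhiT_of_F ElPsi hS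
      simp only [PhiT, ElPsi, rel, Matrix.cons_val_zero, Matrix.cons_val_one, one_mul, hinv] at h1
      simp only [hf, ElPs, sub_eq_zero]
      exact h1)
  refine hsub.trans (h.trans ?_)
  rw [card_univ]
  have hp1 : 0 < √(Fintype.card G : ℝ) := Real.sqrt_pos.2 (by exact_mod_cast hn)
  gcongr
  linarith

open Classical in
theorem good_el : ∃ C : ℝ, 0 < C ∧ ∀ (G : Type) [Group G] [Fintype G] [DecidableEq G],
    (∀ g : G, g * g = 1) → ∀ a : G, a ≠ 1 →
    ((univ.filter fun S : G → Bool => ¬ Good S ![1, a]).card : ℝ) ≤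
      C * 2 ^ Fintype.card G / √(Fintype.card G : ℝ) := by
  obtain ⟨C₁, hC₁, hgen⟩ := el_pair
  obtain ⟨C₂, hC₂, hA⟩ := pair_A
  obtain ⟨C, hC, hmain⟩ := good_count 2 (C₁ + C₂) (by positivity)
  refine ⟨C, hC, fun G _ _ _ hsq a ha => hmain G _ ?_⟩
  have hinv : ∀ g : G, g⁻¹ = g := fun g => inv_eq_of_mul_eq_one_right (hsq g)
  set n := Fintype.card G with hn
  have hn0 : 0 < n := Fintype.card_pos
  have hnr : (1 : ℝ) ≤ n := by exact_mod_cast hn0
  have hs : (0 : ℝ) < √(n : ℝ) := Real.sqrt_pos.2 (by linarith)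
  have hsq' : √(n : ℝ) * √(n : ℝ) = n := Real.mul_self_sqrt (by linarith)
  set P : Finset (G × G) := (univ : Finset (G × G)).filter
    (fun p => (∀ i : Fin 2, p.1 ≠ ![1, a] i) ∧ (∀ i : Fin 2, p.2 ≠ ![1, a] i) ∧ p.1 ≠ p.2) with hP
  have hPm : ∀ p ∈ P, p.1 ≠ 1 ∧ p.1 ≠ a ∧ p.2 ≠ 1 ∧ p.2 ≠ a ∧ p.1 ≠ p.2 := by
    intro p hp
    rw [hP, mem_filter] at hp
    exact ⟨hp.2.1 0, hp.2.1 1, hp.2.2.1 0, hp.2.2.1 1, hp.2.2.2⟩
  rw [← Finset.sum_filter_add_sum_filter_not P (fun p => p.2 = a * p.1)]
  have h1 : ∑ p ∈ P.filter (fun p => p.2 = a * p.1), ((univ.filter fun S : G → Bool => F S ![1, a] p.1 = F S ![1, a] p.2).card : ℝ) ≤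
      n * (C₂ * 2 ^ n / √(n : ℝ)) := by
    calc _ ≤ ∑ p ∈ P.filter (fun p => p.2 = a * p.1), (C₂ * 2 ^ n / √(n : ℝ)) := by
          refine Finset.sum_le_sum fun p hp => ?_
          obtain ⟨h1, h2, h3, h4, h5⟩ := hPm p (Finset.mem_filter.1 hp).1
          refine le_trans ?_ (hA G p.1 p.2 h1 h3 h5 (by rw [hinv]; exact h5.symm))
          exact_mod_cast Finset.card_le_card (by
            intro S hS
            simp only [mem_filter, mem_univ, true_and] at hS ⊢
            have h1 := Phi_of_F (d := 1) (fun c c' => fun _ => if c.1 = true ∧ c'.1 = true then (1 : ℤ) else 0)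
              (t := ![1, a]) rfl hS
            have h2 := congrFun h1 0
            simp only [Phi, Finset.sum_apply, rel, inv_one, one_mul, Finset.sum_boole] at h2
            exact_mod_cast h2)
      _ = ((P.filter (fun p => p.2 = a * p.1)).card : ℝ) * (C₂ * 2 ^ n / √(n : ℝ)) := by
          rw [Finset.sum_const, nsmul_eq_mul]
      _ ≤ n * (C₂ * 2 ^ n / √(n : ℝ)) := by
          gcongr
          have h2 : (P.filter (fun p => p.2 = a * p.1)).card ≤ n := by
            rw [hn, ← card_univ]
            refine Finset.card_le_card_of_injOn (fun p => p.1) (fun _ _ => mem_coe.2 (mem_univ _)) ?_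
            intro p hp q hq hpq
            have hp2 := (Finset.mem_filter.1 (mem_coe.1 hp)).2
            have hq2 := (Finset.mem_filter.1 (mem_coe.1 hq)).2
            have hpq' : p.1 = q.1 := hpq
            exact Prod.ext hpq' (by rw [hp2, hq2, hpq'])
          exact_mod_cast h2
  have h2 : ∑ p ∈ P.filter (fun p => ¬ p.2 = a * p.1), ((univ.filter fun S : G → Bool => F S ![1, a] p.1 = F S ![1, a] p.2).card : ℝ) ≤
      ((n : ℝ) * n) * (C₁ * 2 ^ n / √(n : ℝ) ^ 3) := by
    calc _ ≤ ∑ p ∈ P.filter (fun p => ¬ p.2 = a * p.1), (C₁ * 2 ^ n / √(n : ℝ) ^ 3) := by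
          refine Finset.sum_le_sum fun p hp => ?_
          obtain ⟨h1, h2, h3, h4, h5⟩ := hPm p (Finset.mem_filter.1 hp).1
          have h6 := (Finset.mem_filter.1 hp).2
          convert hgen G hsq a p.1 p.2 ha h1 h2 h3 h4 h5.symm h6 using 2
      _ = ((P.filter (fun p => ¬ p.2 = a * p.1)).card : ℝ) * (C₁ * 2 ^ n / √(n : ℝ) ^ 3) := by
          rw [Finset.sum_const, nsmul_eq_mul]
      _ ≤ ((n : ℝ) * n) * (C₁ * 2 ^ n / √(n : ℝ) ^ 3) := by
          gcongr
          have h4 : (P.filter (fun p => ¬ p.2 = a * p.1)).card ≤ n * n := by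
            refine (Finset.card_le_univ _).trans ?_
            rw [Fintype.card_prod]
          exact_mod_cast h4
  refine (add_le_add h1 h2).trans (le_of_eq ?_)
  have h5 : (n : ℝ) / √(n : ℝ) = √(n : ℝ) := by
    rw [div_eq_iff hs.ne', hsq']
  have h6 : ((n : ℝ) * n) / √(n : ℝ) ^ 3 = √(n : ℝ) := by
    rw [div_eq_iff (by positivity)]
    calc (n : ℝ) * n = (√(n : ℝ) * √(n : ℝ)) * (√(n : ℝ) * √(n : ℝ)) := by rw [hsq']
      _ = _ := by ring
  calc (n : ℝ) * (C₂ * 2 ^ n / √(n : ℝ)) + ((n : ℝ) * n) * (C₁ * 2 ^ n / √(n : ℝ) ^ 3)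
      = C₂ * 2 ^ n * ((n : ℝ) / √(n : ℝ)) + C₁ * 2 ^ n * (((n : ℝ) * n) / √(n : ℝ) ^ 3) := by ring
    _ = (C₁ + C₂) * 2 ^ n * √(n : ℝ) := by rw [h5, h6]; ring

end CDG
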