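import Pool.Agent.CDG.Defs
import Pool.Agent.WLIter.WL

/-!
# CDG.WLId: a good digraph is identified

PROOF. `A x y = (S (x⁻¹y) = true)`, `k = j + 2`; tuples `(t, x) = Fin.snoc t x`. Use `Pool.Agent.WLIter.wl_succ_iff` (equal colours in round `r+1` iff equal in round `r` and a bijection `e` with `wl r (x[w/i]) = wl r (y[e w/i])` for all `w`, `i`).
(1) `wl 0` of `(t, x)` determines the arcs between all its entries and the equalities (`σ = id` in the second component).
(2) If `wl 1 (t,x) = wl 1 (t,x')` then `F S t x = F S t x'`: the bijection `e` has `wl 0 (t,w) = wl 0 (t,e w)` (last place) and `wl 0 ((t,x)[w/0]) = wl 0 ((t,x')[e w/0])`, which gives the arcs `rel S (t i) w`, and `rel S w x`, so `e` maps the set counted by `F S t x c c'` onto that of `F S t x' c c'`;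
and `x = t i` iff `x' = t i`.
(3) `Good` implies: `wl 2 (t, ·)` is injective: for `x ≠ x'` with `wl 2 (t,x) = wl 2 (t,x')` take `y` of `Good`, the bijection gives `z = e y` with `wl 1 (t,y) = wl 1 (t,z)` and `wl 1 ((t,x)[y/0]) = wl 1 ((t,x')[z/0])`; by (2) and uniqueness `z = y` (`z ≠ t i` because `y ≠ t i`), so `rel S x y = rel S x' y`: contradiction.
(4) `wlMultiset 4` equal: some tuple of `V'` has the colour `wl 4` of `(t, t 0)`; write it `(t', x₀')`. `wl_succ_iff`: `e : G ≃ V'` with `wl 3 (t,w) = wl 3 (t',e w)` for all `w`. For fixed `x`: `e_x : G ≃ V'` with `wl 2 (t,w) = wl 2 (t',e_x w)` and `wl 2 ((t,x)[w/0]) = wl 2 ((t',e x)[e_x w/0])`. Since `wl 2 (t',e w) = wl 2 (t,w)` and `wl 2 (t,·)` is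
injective, `e_x w = e w`; the second equation gives `A w x ↔ B (e w) (e x)` and `A x w ↔ B (e x) (e w)`.
-/

namespace CDG

open Finset Pool.Agent.WLIter

private def sn {j : ℕ} {V : Type} (t : Fin (j + 1) → V) (x : V) : Fin (j + 2) → V :=
  Fin.snoc (α := fun _ => V) t x

private lemma sn_last {j : ℕ} {V : Type} (t : Fin (j + 1) → V) (x : V) : sn t x (Fin.last (j + 1)) = x := by
  simp [sn]

private lemma sn_cast {j : ℕ} {V : Type} (t : Fin (j + 1) → V) (x : V) (i : Fin (j + 1)) :
    sn t x (Fin.castSucc i) = t i := by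
  simp [sn]

private lemma sn_upd {j : ℕ} {V : Type} (t : Fin (j + 1) → V) (x w : V) :
    Function.update (sn t x) (Fin.last (j + 1)) w = sn t w := by
  unfold sn
  exact Fin.update_snoc_last (α := fun _ => V) ..

private lemma sn_upd0_last {j : ℕ} {V : Type} (t : Fin (j + 1) → V) (x w : V) :
    Function.update (sn t x) (Fin.castSucc 0) w (Fin.last (j + 1)) = x := by
  rw [Function.update_of_ne (Fin.castSucc_lt_last 0).ne', sn_last]

private lemma WLId_at {k : ℕ} {V V' : Type} [Fintype V] [DecidableEq V] [Fintype V'] [DecidableEq V']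
    {A : V → V → Prop} {B : V' → V' → Prop} {x : Fin k → V} {y : Fin k → V'}
    (h : wl (dgStr k A) 0 x = wl (dgStr k B) 0 y) :
    (∀ i j, x i = x j ↔ y i = y j) ∧ (∀ i j, A (x i) (x j) ↔ B (y i) (y j)) := by
  have h1 := Prod.ext_iff.1 h
  refine ⟨fun i j => ?_, fun i j => ?_⟩
  · have := congrFun (congrFun h1.1 i) j
    exact iff_of_eq this
  · have := congrFun (congrFun (congrFun h1.2 id) i) j
    exact iff_of_eq this

private lemma WLId_rel {G : Type} [Group G] {S : G → Bool} {x y x' y' : G}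
    (h1 : S (x⁻¹ * y) = true ↔ S (x'⁻¹ * y') = true) (h2 : S (y⁻¹ * x) = true ↔ S (y'⁻¹ * x') = true) :
    rel S x y = rel S x' y' := by
  unfold rel
  rw [Bool.eq_iff_iff.2 h1, Bool.eq_iff_iff.2 h2]

private lemma WLId_F {G : Type} [Group G] [Fintype G] [DecidableEq G] {j : ℕ} {S : G → Bool}
    {t : Fin (j + 1) → G} {x x' : G}
    (h : wl (dgStr (j + 2) (fun x y : G => S (x⁻¹ * y) = true)) 1 (sn t x) =
      wl (dgStr (j + 2) (fun x y : G => S (x⁻¹ * y) = true)) 1 (sn t x')) :
    F S t x = F S t x' := by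
  obtain ⟨-, e, he⟩ := (wl_succ_iff _ _ 0 _ _).1 h
  have h1 : ∀ w i, rel S (t i) w = rel S (t i) (e w) := by
    intro w i
    have h2 := he w (Fin.last (j + 1))
    rw [sn_upd, sn_upd] at h2
    obtain ⟨-, h3⟩ := WLId_at h2
    have a := h3 (Fin.castSucc i) (Fin.last (j + 1))
    have b := h3 (Fin.last (j + 1)) (Fin.castSucc i)
    simp only [sn_cast, sn_last] at a b
    exact WLId_rel a b
  have h2 : ∀ w, rel S x w = rel S x' (e w) := by
    intro w
    obtain ⟨-, h3⟩ := WLId_at (he w (Fin.castSucc 0))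
    have a := h3 (Fin.last (j + 1)) (Fin.castSucc 0)
    have b := h3 (Fin.castSucc 0) (Fin.last (j + 1))
    simp only [sn_upd0_last, Function.update_self] at a b
    exact WLId_rel a b
  funext c c'
  unfold F
  refine Finset.card_bijective e e.bijective fun w => ?_
  simp only [mem_filter, mem_univ, true_and]
  rw [← h2 w]
  constructor
  · rintro ⟨ha, hb⟩
    exact ⟨fun i => by rw [← h1 w i]; exact ha i, hb⟩
  · rintro ⟨ha, hb⟩
    exact ⟨fun i => by rw [h1 w i]; exact ha i, hb⟩

private lemma WLId_inj {G : Type} [Group G] [Fintype G] [DecidableEq G] {j : ℕ} {S : G → Bool}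
    {t : Fin (j + 1) → G} (hg : Good S t) {x x' : G}
    (h : wl (dgStr (j + 2) (fun x y : G => S (x⁻¹ * y) = true)) 2 (sn t x) =
      wl (dgStr (j + 2) (fun x y : G => S (x⁻¹ * y) = true)) 2 (sn t x')) :
    x = x' := by
  by_contra hne
  obtain ⟨y, hyt, huniq, hrel⟩ := hg x x' hne
  obtain ⟨-, e, he⟩ := (wl_succ_iff _ _ 1 _ _).1 h
  have h1 := he y (Fin.last (j + 1))
  rw [sn_upd, sn_upd] at h1
  have h2 := wl_of_succ _ _ 0 _ _ h1
  obtain ⟨h3, -⟩ := WLId_at h2
  have hz : ∀ i, e y ≠ t i := by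
    intro i hi
    have := h3 (Fin.last (j + 1)) (Fin.castSucc i)
    simp only [sn_cast, sn_last] at this
    exact hyt i (this.2 hi)
  have hey : e y = y := by
    by_contra hcon
    exact huniq (e y) hz hcon (WLId_F h1).symm
  have h4 := he y (Fin.castSucc 0)
  rw [hey] at h4
  obtain ⟨-, h5⟩ := WLId_at (wl_of_succ _ _ 0 _ _ h4)
  have a := h5 (Fin.last (j + 1)) (Fin.castSucc 0)
  have b := h5 (Fin.castSucc 0) (Fin.last (j + 1))
  simp only [sn_upd0_last, Function.update_self] at a b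
  exact hrel (WLId_rel a b)

theorem good_identified {G : Type} [Group G] [Fintype G] [DecidableEq G] {j : ℕ} (S : G → Bool)
    (t : Fin (j + 1) → G) (h : Good S t) :
    Identified (j + 2) (fun x y : G => S (x⁻¹ * y) = true) := by
  intro V' _ _ B hm
  have hmem : wl (dgStr (j + 2) (fun x y : G => S (x⁻¹ * y) = true)) 4 (sn t (t 0)) ∈
      wlMultiset (dgStr (j + 2) B) 4 := by
    rw [← hm]
    exact Multiset.mem_map_of_mem _ (Finset.mem_univ _)
  obtain ⟨y', -, hy'⟩ := Multiset.mem_map.1 hmem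
  set t' : Fin (j + 1) → V' := Fin.init (α := fun _ => V') y' with ht'
  have hsn : y' = sn t' (y' (Fin.last (j + 1))) := by
    unfold sn
    rw [ht', Fin.snoc_init_self]
  obtain ⟨-, e, he⟩ := (wl_succ_iff _ _ 3 _ _).1 hy'.symm
  have h3 : ∀ w, wl (dgStr (j + 2) (fun x y : G => S (x⁻¹ * y) = true)) 3 (sn t w) =
      wl (dgStr (j + 2) B) 3 (sn t' (e w)) := by
    intro w
    have := he w (Fin.last (j + 1))
    rw [hsn, sn_upd, sn_upd] at this
    exact this
  refine ⟨e, fun x y => ?_⟩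
  obtain ⟨-, f, hf⟩ := (wl_succ_iff _ _ 2 _ _).1 (h3 x)
  have h4 := hf y (Fin.last (j + 1))
  rw [sn_upd, sn_upd] at h4
  have h5 : e.symm (f y) = y := by
    have h6 := wl_of_succ _ _ 2 _ _ (h3 (e.symm (f y)))
    rw [Equiv.apply_symm_apply] at h6
    exact WLId_inj h (h6.trans h4.symm)
  have h6 : f y = e y := by
    rw [← h5, Equiv.apply_symm_apply, h5]
  have h7 := hf y (Fin.castSucc 0)
  rw [h6] at h7
  obtain ⟨-, h8⟩ := WLId_at (wl_of_le _ _ (Nat.zero_le 2) _ _ h7)
  have a := h8 (Fin.last (j + 1)) (Fin.castSucc 0)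
  simp only [sn_upd0_last, Function.update_self] at a
  exact a

end CDG
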