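import Pool.Agent.CDG.El
import Pool.Agent.CDG.WLId

/-!
# CDG.Final: almost all Cayley digraphs of a finite group are identified

PROOF. `S ↦ (fun g => decide (g ∈ S))` is injective from the finsets to the functions `G → Bool`; `good_identified` and `good_gen`, `good_el`.
-/

namespace CDG

open Finset Pool.Agent.WLIter

open Classical in
private lemma transfer {G : Type} [Group G] [Fintype G] [DecidableEq G] {j : ℕ} (t : Fin (j + 1) → G) :
    (((univ : Finset (Finset G)).filter fun S => ¬ Identified (j + 2) (cay S)).card : ℝ) ≤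
      ((univ.filter fun S : G → Bool => ¬ Good S t).card : ℝ) := by
  norm_cast
  refine Finset.card_le_card_of_injOn (fun S : Finset G => fun g => decide (g ∈ S)) ?_ ?_
  · intro S hS
    simp only [coe_filter, mem_univ, true_and, Set.mem_ofPred_eq] at hS ⊢
    intro hg
    apply hS
    have h := good_identified (j := j) (fun g => decide (g ∈ S)) t hg
    have he : (fun x y : G => (decide (x⁻¹ * y ∈ S)) = true) = cay S := by
      funext x y
      simp [cay]
    rw [he] at h
    exact h
  · intro S _ T _ h
    ext g
    have := congrFun h g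
    simpa using this

open Classical in
theorem main_gen : ∃ C : ℝ, 0 < C ∧ ∀ (G : Type) [Group G] [Fintype G] [DecidableEq G],
    (∃ g : G, g * g ≠ 1) →
    (((univ : Finset (Finset G)).filter fun S => ¬ Identified 2 (cay S)).card : ℝ) ≤
      C * 2 ^ Fintype.card G / √(Fintype.card G : ℝ) := by
  obtain ⟨C, hC, h⟩ := good_gen
  refine ⟨C, hC, fun G _ _ _ hg => ?_⟩
  exact (transfer (fun _ : Fin 1 => (1 : G))).trans (h G hg)

open Classical in
theorem main_el : ∃ C : ℝ, 0 < C ∧ ∀ (G : Type) [Group G] [Fintype G] [DecidableEq G],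
    (∀ g : G, g * g = 1) →
    (((univ : Finset (Finset G)).filter fun S => ¬ Identified 3 (cay S)).card : ℝ) ≤
      C * 2 ^ Fintype.card G / √(Fintype.card G : ℝ) := by
  obtain ⟨C, hC, h⟩ := good_el
  refine ⟨max C 1, lt_of_lt_of_le hC (le_max_left _ _), fun G _ _ _ hg => ?_⟩
  have hn : (0 : ℝ) < √(Fintype.card G : ℝ) := Real.sqrt_pos.2 (by exact_mod_cast Fintype.card_pos)
  by_cases ha : ∃ a : G, a ≠ 1
  · obtain ⟨a, ha⟩ := ha
    refine ((transfer (j := 1) ![1, a]).trans (h G hg a ha)).trans ?_
    gcongr
    exact le_max_left _ _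
  · push Not at ha
    have h1 : Fintype.card G = 1 := by
      rw [Fintype.card_eq_one_iff]
      exact ⟨1, ha⟩
    have h2 : (((univ : Finset (Finset G)).filter fun S => ¬ Identified 3 (cay S)).card : ℝ) ≤ 2 ^ Fintype.card G := by
      have := Finset.card_filter_le (univ : Finset (Finset G)) fun S => ¬ Identified 3 (cay S)
      rw [card_univ, Fintype.card_finset] at this
      exact_mod_cast this
    refine h2.trans ?_
    rw [h1]
    simp

end CDG
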