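import Pool.Agent.CDG.Defs

/-!
# CDG.Inv: at most three quarters of the elements are involutions

PROOF. Suppose that `I = {g : g² = 1}` has more than `3n/4` elements. For `a ∈ I` more than `n/2` elements `b` satisfy `b ∈ I` and `ab ∈ I`; then `abab = 1`, `a² = b² = 1`, so `ab = ba`. Hence the centraliser
of `a` has more than `n/2` elements and is `G` (a proper subgroup has at most `n/2` elements: `Subgroup.card_subgroup_dvd_card` or Lagrange). So `I` is contained in the centre, the centre has more than `n/2` elements, `G` is commutative, `I`
is a subgroup with more than `n/2` elements, `I = G`: contradiction to `h`.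
-/

namespace CDG

open Finset

private lemma Inv_half {G : Type} [Group G] [Fintype G] [DecidableEq G] (K : Subgroup G)
    (s : Finset G) (hs : ∀ x ∈ s, x ∈ K) (h : Fintype.card G < 2 * s.card) : K = ⊤ := by
  by_contra hK
  have h1 : K.index ≠ 1 := fun h => hK (Subgroup.index_eq_one.1 h)
  have h2 : Nat.card K * K.index = Nat.card G := K.card_mul_index
  have h3 : K.index ≠ 0 := Subgroup.index_ne_zero_of_finite
  rw [Nat.card_eq_fintype_card (α := G)] at h2
  have h4 : 2 ≤ K.index := by omega
  have h5 : s.card ≤ Nat.card K := by
    rw [← Set.ncard_coe_finset s]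
    exact Set.ncard_le_ncard (t := (K : Set G)) (fun x hx => hs x (by simpa using hx)) (Set.toFinite _)
  nlinarith

theorem card_inv_le {G : Type} [Group G] [Fintype G] [DecidableEq G] (h : ∃ g : G, g * g ≠ 1) :
    4 * (univ.filter fun g : G => g * g = 1).card ≤ 3 * Fintype.card G := by
  by_contra hcon
  push Not at hcon
  set I : Finset G := univ.filter fun g : G => g * g = 1 with hI
  have hmem : ∀ g, g ∈ I ↔ g * g = 1 := fun g => by simp [hI]
  -- the centraliser of `a ∈ I` is everything
  have hcomm : ∀ a ∈ I, ∀ b : G, a * b = b * a := by
    intro a ha b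
    have hsub : ∀ b ∈ (I.filter fun b => a * b ∈ I), b ∈ Subgroup.centralizer {a} := by
      intro b hb
      simp only [mem_filter, hmem] at hb
      obtain ⟨hb1, hb2⟩ := hb
      have ha1 := (hmem a).1 ha
      have ha2 : a⁻¹ = a := inv_eq_of_mul_eq_one_right ha1
      have hb3 : b⁻¹ = b := inv_eq_of_mul_eq_one_right hb1
      have hab : (a * b)⁻¹ = a * b := inv_eq_of_mul_eq_one_right hb2
      rw [Subgroup.mem_centralizer_singleton_iff]
      rw [mul_inv_rev, ha2, hb3] at hab
      first | exact hab | exact hab.symm
    have hcard : Fintype.card G < 2 * (I.filter fun b => a * b ∈ I).card := by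
      have h1 : (I.filter fun b => a * b ∈ I).card + (I.filter fun b => ¬ a * b ∈ I).card = I.card :=
        Finset.card_filter_add_card_filter_not (s := I) (p := fun b => a * b ∈ I)
      have h2 : (I.filter fun b => ¬ a * b ∈ I).card ≤ (univ \ I).card := by
        refine Finset.card_le_card_of_injOn (fun b => a * b) ?_ ?_
        · intro b hb
          simp only [coe_filter, Set.mem_ofPred_eq] at hb
          simp [hb.2]
        · intro b _ c _ hbc
          exact mul_left_cancel hbc
      have h3 : (univ \ I).card + I.card = Fintype.card G := by
        rw [Finset.card_sdiff_add_card_eq_card (Finset.subset_univ I), card_univ]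
      omega
    have htop : Subgroup.centralizer {a} = ⊤ := Inv_half _ _ hsub hcard
    have : b ∈ Subgroup.centralizer {a} := by rw [htop]; trivial
    rw [Subgroup.mem_centralizer_singleton_iff] at this
    first | exact this | exact this.symm
  -- `I` is a subgroup
  let K : Subgroup G :=
    { carrier := {g | g * g = 1}
      mul_mem' := by
        intro a b ha hb
        simp only [Set.mem_ofPred_eq] at ha hb ⊢
        have := hcomm a ((hmem a).2 ha) b
        calc a * b * (a * b) = a * (b * a) * b := by group
          _ = a * (a * b) * b := by rw [this]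
          _ = (a * a) * (b * b) := by group
          _ = 1 := by rw [ha, hb, one_mul]
      one_mem' := by simp
      inv_mem' := by
        intro a ha
        simp only [Set.mem_ofPred_eq] at ha ⊢
        rw [← mul_inv_rev, ha, inv_one] }
  have hK : K = ⊤ := by
    apply Inv_half K I
    · intro x hx
      exact (hmem x).1 hx
    · omega
  obtain ⟨g, hg⟩ := h
  have : g ∈ K := by rw [hK]; trivial
  exact hg this

end CDG
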