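import Pool.Agent.CDG.Alg

/-!
# CDG.Span: three free dimensions

PROOF. `span_of_diff`: a subspace (the span of the range) which contains three linearly independent differences of elements of the range is everything.

Use `incr_pair` and `S` supported on `{u⁻¹, g, g⁻¹}` (resp. `{u⁻¹, g₁, g₂}`) `⊆ {u⁻¹} ∪ PP x u`: all the bits of `PP x' u` are then `false` (`h.disj`, `not_mem_PP`), so the second `Wf` is `Wf φ b (0,0) (0,0) (0,0) (0,0)` (`0 = false`).

CASE I (`span_I`): let `g = x⁻¹u` or `g = x⁻¹u⁻¹` with `g² ≠ 1`, and `S = S_(b,p,q)` with `S u⁻¹ = b`, `S g = p`, `S g⁻¹ = q`, all other bits `false` (`u⁻¹`, `g`, `g⁻¹` are different). Each of the four pairs `(S g_j, S g_j⁻¹)`, `g₁ = x⁻¹u`, `g₂ = x⁻¹u⁻¹`, `g₃ = xu`, `g₄ = xu⁻¹`, is `(p, q)` if `g_j = g`, `(q, p)` if `g_j = g⁻¹`,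
and `(false, false)` otherwise. Let `w(b,p,q)` be the value of `Wf phI`. Whatever the coincidences are (`3⁴` patterns, at least one of `g₁`, `g₂` is `g`): with `k` = number of the `j` with `g_j ∈ {g, g⁻¹}`, `k ≥ 1`,
`w(0,1,0) - w(0,0,0) = k(1,0,0)`, `w(0,1,1) - w(0,1,0) = -k(0,0,1)`, `w(1,1,1) - w(1,1,0) = k(0,1,0)` (`decide` over the patterns).

CASE II (`span_II`): `g₁ = x⁻¹u`, `g₂ = x⁻¹u⁻¹` with `g₁² = g₂² = 1`; `g₁ ≠ g₂` as `u² ≠ 1`. `S = S_(b,p,q)` with `S u⁻¹ = b`, `S g₁ = p`, `S g₂ = q`, all other bits `false`. Then `τ₁ = (p,p)`, `τ₂ = (q,q)`, and `τ₃ = (S g₃, S g₃⁻¹)` is `(p,p)` if `g₃ = g₁`, `(q,q)` if `g₃ = g₂`, otherwise `(0,0)` (if `g₃⁻¹ = g₁` then `g₃ = g₁`),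
and the same for `τ₄`. With the value `w(b,p,q)` of `Wf phII`: `w(0,1,0) - w(0,0,0) = (1,0,0)`, `w(0,0,1) - w(0,0,0) = (0,1,0)`, `w(1,1,0) - w(1,0,0) = (0,-1,k)` with `k ≥ 1`, for all the patterns.
-/

namespace CDG

open Finset

theorem span_of_diff {α : Type*} (w : α → (Fin 3 → ℤ)) (p₁ q₁ p₂ q₂ p₃ q₃ : α)
    (h : LinearIndependent ℚ (fun (j : Fin 3) (i : Fin 3) =>
      (((![w p₁ - w q₁, w p₂ - w q₂, w p₃ - w q₃] : Fin 3 → (Fin 3 → ℤ)) j i : ℤ) : ℚ))) :
    Submodule.span ℚ (Set.range fun s : α => fun i => ((w s i : ℤ) : ℚ)) = ⊤ := by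
  have h1 := h.span_eq_top_of_card_eq_finrank' (by simp)
  rw [eq_top_iff, ← h1, Submodule.span_le]
  have key : ∀ p q : α, (fun i => (((w p - w q) i : ℤ) : ℚ)) ∈
      Submodule.span ℚ (Set.range fun s : α => fun i => ((w s i : ℤ) : ℚ)) := by
    intro p q
    have : (fun i => (((w p - w q) i : ℤ) : ℚ)) = (fun i => ((w p i : ℤ) : ℚ)) - (fun i => ((w q i : ℤ) : ℚ)) := by
      funext i
      simp
    rw [this]
    exact Submodule.sub_mem _ (Submodule.subset_span ⟨p, rfl⟩) (Submodule.subset_span ⟨q, rfl⟩)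
  rintro _ ⟨j, rfl⟩
  fin_cases j
  · exact key p₁ q₁
  · exact key p₂ q₂
  · exact key p₃ q₃

private def SpanT (c : Fin 3) (p q : Bool) : Bool × Bool := ![(p, q), (q, p), (false, false)] c

private def SpanU (c : Fin 3) (p q : Bool) : Bool × Bool := ![(p, p), (q, q), (false, false)] c

private def SpanK (c : Fin 3) : ℤ := ![1, 1, 0] c

private def SpanL (c : Fin 3) : ℤ := ![1, 0, 0] c

private lemma Span_I1 : ∀ c₁ c₂ c₃ c₄ : Fin 3,
    Wf phI false (SpanT c₁ true false) (SpanT c₂ true false) (SpanT c₃ true false) (SpanT c₄ true false) -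
      Wf phI false (SpanT c₁ false false) (SpanT c₂ false false) (SpanT c₃ false false) (SpanT c₄ false false) =
      ![SpanK c₁ + SpanK c₂ + SpanK c₃ + SpanK c₄, 0, 0] := by decide

private lemma Span_I2 : ∀ c₁ c₂ c₃ c₄ : Fin 3,
    Wf phI true (SpanT c₁ true true) (SpanT c₂ true true) (SpanT c₃ true true) (SpanT c₄ true true) -
      Wf phI true (SpanT c₁ true false) (SpanT c₂ true false) (SpanT c₃ true false) (SpanT c₄ true false) =
      ![0, SpanK c₁ + SpanK c₂ + SpanK c₃ + SpanK c₄, 0] := by decide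

private lemma Span_I3 : ∀ c₁ c₂ c₃ c₄ : Fin 3,
    Wf phI false (SpanT c₁ true true) (SpanT c₂ true true) (SpanT c₃ true true) (SpanT c₄ true true) -
      Wf phI false (SpanT c₁ true false) (SpanT c₂ true false) (SpanT c₃ true false) (SpanT c₄ true false) =
      ![0, 0, -(SpanK c₁ + SpanK c₂ + SpanK c₃ + SpanK c₄)] := by decide

private lemma Span_II1 : ∀ c₃ c₄ : Fin 3,
    Wf phII false (SpanU 0 true false) (SpanU 1 true false) (SpanU c₃ true false) (SpanU c₄ true false) -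
      Wf phII false (SpanU 0 false false) (SpanU 1 false false) (SpanU c₃ false false) (SpanU c₄ false false) =
      ![1, 0, 0] := by decide

private lemma Span_II2 : ∀ c₃ c₄ : Fin 3,
    Wf phII false (SpanU 0 false true) (SpanU 1 false true) (SpanU c₃ false true) (SpanU c₄ false true) -
      Wf phII false (SpanU 0 false false) (SpanU 1 false false) (SpanU c₃ false false) (SpanU c₄ false false) =
      ![0, 1, 0] := by decide

private lemma Span_II3 : ∀ c₃ c₄ : Fin 3,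
    Wf phII true (SpanU 0 true false) (SpanU 1 true false) (SpanU c₃ true false) (SpanU c₄ true false) -
      Wf phII true (SpanU 0 false false) (SpanU 1 false false) (SpanU c₃ false false) (SpanU c₄ false false) =
      ![0, -1, 1 + SpanL c₃ + SpanL c₄] := by decide

private lemma Span_K : ∀ c₁ c₂ c₃ c₄ : Fin 3, (c₁ = 0 ∨ c₂ = 0) →
    0 < SpanK c₁ + SpanK c₂ + SpanK c₃ + SpanK c₄ := by decide

private lemma Span_L : ∀ c₃ c₄ : Fin 3, 0 < 1 + SpanL c₃ + SpanL c₄ := by decide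

theorem span_I {G : Type} [Group G] [Fintype G] [DecidableEq G] {x x' u : G} (hx : x ≠ 1) (hx' : x' ≠ 1)
    (h : GoodU x x' u) (hI : (x⁻¹ * u) * (x⁻¹ * u) ≠ 1 ∨ (x⁻¹ * u⁻¹) * (x⁻¹ * u⁻¹) ≠ 1) :
    Submodule.span ℚ (Set.range fun S : G → Bool => fun i =>
      ((incr (fun S => Phi phI S x - Phi phI S x') u S i : ℤ) : ℚ)) = ⊤ := by
  obtain ⟨hx1, hx2⟩ := not_mem_PP hx h.h1 h.h2
  obtain ⟨hx1', hx2'⟩ := not_mem_PP hx' h.h1' h.h2'
  obtain ⟨g, hgg, hg⟩ : ∃ g : G, g * g ≠ 1 ∧ (g = x⁻¹ * u ∨ g = x⁻¹ * u⁻¹) := by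
    rcases hI with hI | hI
    · exact ⟨_, hI, Or.inl rfl⟩
    · exact ⟨_, hI, Or.inr rfl⟩
  have hgP : g ∈ PP x u := by
    rcases hg with rfl | rfl <;> simp [PP]
  have hgP' : g⁻¹ ∈ PP x u := by
    rcases hg with rfl | rfl <;> simp [PP]
  have hgi : g⁻¹ ≠ g := fun hh => hgg (by nth_rewrite 1 [← hh]; simp)
  let Sf : Bool → Bool → Bool → G → Bool := fun b p q z =>
    if z = u⁻¹ then b else if z = g then p else if z = g⁻¹ then q else false
  have hSu : ∀ b p q, Sf b p q u⁻¹ = b := fun b p q => by simp [Sf]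
  have hS' : ∀ b p q, ∀ z ∈ PP x' u, Sf b p q z = false := by
    intro b p q z hz
    have h1 : z ≠ u⁻¹ := by rintro rfl; exact hx2' hz
    have h2 : z ≠ g := by rintro rfl; exact Finset.disjoint_left.1 h.disj hgP hz
    have h3 : z ≠ g⁻¹ := by rintro rfl; exact Finset.disjoint_left.1 h.disj hgP' hz
    simp [Sf, h1, h2, h3]
  let cc : G → Fin 3 := fun z => if z = g then 0 else if z = g⁻¹ then 1 else 2
  have hpair : ∀ b p q, ∀ z, z ∈ PP x u → z⁻¹ ∈ PP x u → (Sf b p q z, Sf b p q z⁻¹) = SpanT (cc z) p q := by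
    intro b p q z hz hz'
    have h1 : z ≠ u⁻¹ := by rintro rfl; exact hx2 hz
    have h2 : z⁻¹ ≠ u⁻¹ := by
      intro hh; rw [hh] at hz'; exact hx2 hz'
    by_cases h3 : z = g
    · subst h3
      simp [Sf, cc, h1, h2, hgi, SpanT]
    · by_cases h4 : z = g⁻¹
      · subst h4
        have h5 : g ≠ u⁻¹ := by simpa using h2
        simp [Sf, cc, h1, h3, h5, SpanT]
      · have h5 : z⁻¹ ≠ g := fun hh => h4 (by rw [← hh, inv_inv])
        have h6 : z⁻¹ ≠ g⁻¹ := fun hh => h3 (inv_injective hh)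
        simp [Sf, cc, h1, h2, h3, h4, h5, h6, SpanT]
  have i1 : (x⁻¹ * u)⁻¹ = u⁻¹ * x := by group
  have i2 : (x⁻¹ * u⁻¹)⁻¹ = u * x := by group
  have i3 : (x * u)⁻¹ = u⁻¹ * x⁻¹ := by group
  have i4 : (x * u⁻¹)⁻¹ = u * x⁻¹ := by group
  have p1 : ∀ b p q, (Sf b p q (x⁻¹ * u), Sf b p q (u⁻¹ * x)) = SpanT (cc (x⁻¹ * u)) p q := by
    intro b p q
    have := hpair b p q (x⁻¹ * u) (by simp [PP]) (by rw [i1]; simp [PP])
    rwa [i1] at this
  have p2 : ∀ b p q, (Sf b p q (x⁻¹ * u⁻¹), Sf b p q (u * x)) = SpanT (cc (x⁻¹ * u⁻¹)) p q := by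
    intro b p q
    have := hpair b p q (x⁻¹ * u⁻¹) (by simp [PP]) (by rw [i2]; simp [PP])
    rwa [i2] at this
  have p3 : ∀ b p q, (Sf b p q (x * u), Sf b p q (u⁻¹ * x⁻¹)) = SpanT (cc (x * u)) p q := by
    intro b p q
    have := hpair b p q (x * u) (by simp [PP]) (by rw [i3]; simp [PP])
    rwa [i3] at this
  have p4 : ∀ b p q, (Sf b p q (x * u⁻¹), Sf b p q (u * x⁻¹)) = SpanT (cc (x * u⁻¹)) p q := by
    intro b p q
    have := hpair b p q (x * u⁻¹) (by simp [PP]) (by rw [i4]; simp [PP])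
    rwa [i4] at this
  have hval : ∀ b p q, incr (fun S => Phi phI S x - Phi phI S x') u (Sf b p q) =
      Wf phI b (SpanT (cc (x⁻¹ * u)) p q) (SpanT (cc (x⁻¹ * u⁻¹)) p q) (SpanT (cc (x * u)) p q)
        (SpanT (cc (x * u⁻¹)) p q) -
      Wf phI b (false, false) (false, false) (false, false) (false, false) := by
    intro b p q
    rw [incr_pair phI hx hx' h, hSu, p1, p2, p3, p4]
    rw [hS' b p q (x'⁻¹ * u) (by simp [PP]), hS' b p q (u⁻¹ * x') (by simp [PP]),
      hS' b p q (x'⁻¹ * u⁻¹) (by simp [PP]), hS' b p q (u * x') (by simp [PP]),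
      hS' b p q (x' * u) (by simp [PP]), hS' b p q (u⁻¹ * x'⁻¹) (by simp [PP]),
      hS' b p q (x' * u⁻¹) (by simp [PP]), hS' b p q (u * x'⁻¹) (by simp [PP])]
  set K := SpanK (cc (x⁻¹ * u)) + SpanK (cc (x⁻¹ * u⁻¹)) + SpanK (cc (x * u)) + SpanK (cc (x * u⁻¹)) with hK
  have hKpos : 0 < K := by
    apply Span_K
    rcases hg with rfl | rfl
    · left; simp [cc]
    · right; simp [cc]
  apply span_of_diff (fun S : G → Bool => incr (fun S => Phi phI S x - Phi phI S x') u S)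
    (Sf false true false) (Sf false false false) (Sf true true true) (Sf true true false)
    (Sf false true true) (Sf false true false)
  have e1 : incr (fun S => Phi phI S x - Phi phI S x') u (Sf false true false) -
      incr (fun S => Phi phI S x - Phi phI S x') u (Sf false false false) = ![K, 0, 0] := by
    rw [hval, hval, sub_sub_sub_cancel_right]
    exact Span_I1 _ _ _ _
  have e2 : incr (fun S => Phi phI S x - Phi phI S x') u (Sf true true true) -
      incr (fun S => Phi phI S x - Phi phI S x') u (Sf true true false) = ![0, K, 0] := by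
    rw [hval, hval, sub_sub_sub_cancel_right]
    exact Span_I2 _ _ _ _
  have e3 : incr (fun S => Phi phI S x - Phi phI S x') u (Sf false true true) -
      incr (fun S => Phi phI S x - Phi phI S x') u (Sf false true false) = ![0, 0, -K] := by
    rw [hval, hval, sub_sub_sub_cancel_right]
    exact Span_I3 _ _ _ _
  rw [e1, e2, e3]
  rw [Fintype.linearIndependent_iff]
  intro c hc
  have hKq : ((K : ℤ) : ℚ) ≠ 0 := by exact_mod_cast hKpos.ne'
  have c0 := congrFun hc 0
  have c1 := congrFun hc 1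
  have c2 := congrFun hc 2
  simp only [Fin.sum_univ_three, Pi.add_apply, Pi.smul_apply, smul_eq_mul, Pi.zero_apply] at c0 c1 c2
  simp [hKq] at c0 c1 c2
  intro i
  fin_cases i
  · exact c0
  · exact c1
  · exact c2

theorem span_II {G : Type} [Group G] [Fintype G] [DecidableEq G] {x x' u : G} (hx : x ≠ 1) (hx' : x' ≠ 1)
    (h : GoodU x x' u) (h1 : (x⁻¹ * u) * (x⁻¹ * u) = 1) (h2 : (x⁻¹ * u⁻¹) * (x⁻¹ * u⁻¹) = 1) :
    Submodule.span ℚ (Set.range fun S : G → Bool => fun i =>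
      ((incr (fun S => Phi phII S x - Phi phII S x') u S i : ℤ) : ℚ)) = ⊤ := by
  obtain ⟨hx1, hx2⟩ := not_mem_PP hx h.h1 h.h2
  obtain ⟨hx1', hx2'⟩ := not_mem_PP hx' h.h1' h.h2'
  set g₁ := x⁻¹ * u with hg₁
  set g₂ := x⁻¹ * u⁻¹ with hg₂
  have i1 : g₁⁻¹ = g₁ := inv_eq_of_mul_eq_one_right h1
  have i2 : g₂⁻¹ = g₂ := inv_eq_of_mul_eq_one_right h2
  have j1 : u⁻¹ * x = g₁ := by rw [← i1, hg₁]; group
  have j2 : u * x = g₂ := by rw [← i2, hg₂]; group
  have hgne : g₁ ≠ g₂ := by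
    intro hh
    rw [hg₁, hg₂] at hh
    have := mul_left_cancel hh
    apply h.sq
    nth_rewrite 1 [this]
    simp
  have hg1P : g₁ ∈ PP x u := by simp [PP, hg₁]
  have hg2P : g₂ ∈ PP x u := by simp [PP, hg₂]
  let Sf : Bool → Bool → Bool → G → Bool := fun b p q z =>
    if z = u⁻¹ then b else if z = g₁ then p else if z = g₂ then q else false
  have hSu : ∀ b p q, Sf b p q u⁻¹ = b := fun b p q => by simp [Sf]
  have hS' : ∀ b p q, ∀ z ∈ PP x' u, Sf b p q z = false := by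
    intro b p q z hz
    have h1 : z ≠ u⁻¹ := by rintro rfl; exact hx2' hz
    have h2 : z ≠ g₁ := by rintro rfl; exact Finset.disjoint_left.1 h.disj hg1P hz
    have h3 : z ≠ g₂ := by rintro rfl; exact Finset.disjoint_left.1 h.disj hg2P hz
    simp [Sf, h1, h2, h3]
  let cc : G → Fin 3 := fun z => if z = g₁ then 0 else if z = g₂ then 1 else 2
  have hpair : ∀ b p q, ∀ z, z ∈ PP x u → z⁻¹ ∈ PP x u → (Sf b p q z, Sf b p q z⁻¹) = SpanU (cc z) p q := by
    intro b p q z hz hz'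
    have h1 : z ≠ u⁻¹ := by rintro rfl; exact hx2 hz
    have h2 : z⁻¹ ≠ u⁻¹ := by
      intro hh; rw [hh] at hz'; exact hx2 hz'
    by_cases h3 : z = g₁
    · have h3' : z⁻¹ = g₁ := by rw [h3, i1]
      have h4 : g₁ ≠ u⁻¹ := by rw [← h3]; exact h1
      rw [h3']
      simp [Sf, cc, h3, h4, SpanU]
    · by_cases h4 : z = g₂
      · have h3' : z⁻¹ = g₂ := by rw [h4, i2]
        have h5 : g₂ ≠ u⁻¹ := by rw [← h4]; exact h1
        rw [h3']
        simp [Sf, cc, h4, h5, hgne.symm, SpanU]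
      · have h5 : z⁻¹ ≠ g₁ := fun hh => h3 (by rw [← i1, ← hh, inv_inv])
        have h6 : z⁻¹ ≠ g₂ := fun hh => h4 (by rw [← i2, ← hh, inv_inv])
        simp [Sf, cc, h1, h2, h3, h4, h5, h6, SpanU]
  have i3 : (x * u)⁻¹ = u⁻¹ * x⁻¹ := by group
  have i4 : (x * u⁻¹)⁻¹ = u * x⁻¹ := by group
  have p1 : ∀ b p q, (Sf b p q g₁, Sf b p q (u⁻¹ * x)) = SpanU 0 p q := by
    intro b p q
    have := hpair b p q g₁ hg1P (by rw [i1]; exact hg1P)
    rw [j1]
    rw [i1] at this
    simpa [cc] using this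
  have p2 : ∀ b p q, (Sf b p q g₂, Sf b p q (u * x)) = SpanU 1 p q := by
    intro b p q
    have := hpair b p q g₂ hg2P (by rw [i2]; exact hg2P)
    rw [j2]
    rw [i2] at this
    simpa [cc, hgne.symm] using this
  have p3 : ∀ b p q, (Sf b p q (x * u), Sf b p q (u⁻¹ * x⁻¹)) = SpanU (cc (x * u)) p q := by
    intro b p q
    have := hpair b p q (x * u) (by simp [PP]) (by rw [i3]; simp [PP])
    rwa [i3] at this
  have p4 : ∀ b p q, (Sf b p q (x * u⁻¹), Sf b p q (u * x⁻¹)) = SpanU (cc (x * u⁻¹)) p q := by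
    intro b p q
    have := hpair b p q (x * u⁻¹) (by simp [PP]) (by rw [i4]; simp [PP])
    rwa [i4] at this
  have hval : ∀ b p q, incr (fun S => Phi phII S x - Phi phII S x') u (Sf b p q) =
      Wf phII b (SpanU 0 p q) (SpanU 1 p q) (SpanU (cc (x * u)) p q) (SpanU (cc (x * u⁻¹)) p q) -
      Wf phII b (false, false) (false, false) (false, false) (false, false) := by
    intro b p q
    rw [incr_pair phII hx hx' h, hSu, ← hg₁, ← hg₂, p1, p2, p3, p4]
    rw [hS' b p q (x'⁻¹ * u) (by simp [PP]), hS' b p q (u⁻¹ * x') (by simp [PP]),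
      hS' b p q (x'⁻¹ * u⁻¹) (by simp [PP]), hS' b p q (u * x') (by simp [PP]),
      hS' b p q (x' * u) (by simp [PP]), hS' b p q (u⁻¹ * x'⁻¹) (by simp [PP]),
      hS' b p q (x' * u⁻¹) (by simp [PP]), hS' b p q (u * x'⁻¹) (by simp [PP])]
  set K := 1 + SpanL (cc (x * u)) + SpanL (cc (x * u⁻¹)) with hK
  have hKpos : 0 < K := Span_L _ _
  apply span_of_diff (fun S : G → Bool => incr (fun S => Phi phII S x - Phi phII S x') u S)
    (Sf false true false) (Sf false false false) (Sf false false true) (Sf false false false)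
    (Sf true true false) (Sf true false false)
  have e1 : incr (fun S => Phi phII S x - Phi phII S x') u (Sf false true false) -
      incr (fun S => Phi phII S x - Phi phII S x') u (Sf false false false) = ![1, 0, 0] := by
    rw [hval, hval, sub_sub_sub_cancel_right]
    exact Span_II1 _ _
  have e2 : incr (fun S => Phi phII S x - Phi phII S x') u (Sf false false true) -
      incr (fun S => Phi phII S x - Phi phII S x') u (Sf false false false) = ![0, 1, 0] := by
    rw [hval, hval, sub_sub_sub_cancel_right]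
    exact Span_II2 _ _
  have e3 : incr (fun S => Phi phII S x - Phi phII S x') u (Sf true true false) -
      incr (fun S => Phi phII S x - Phi phII S x') u (Sf true false false) = ![0, -1, K] := by
    rw [hval, hval, sub_sub_sub_cancel_right]
    exact Span_II3 _ _
  rw [e1, e2, e3]
  rw [Fintype.linearIndependent_iff]
  intro c hc
  have hKq : ((K : ℤ) : ℚ) ≠ 0 := by exact_mod_cast hKpos.ne'
  have c0 := congrFun hc 0
  have c1 := congrFun hc 1
  have c2 := congrFun hc 2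
  simp only [Fin.sum_univ_three, Pi.add_apply, Pi.smul_apply, smul_eq_mul, Pi.zero_apply] at c0 c1 c2
  simp [hKq] at c0 c1 c2
  intro i
  fin_cases i
  · exact c0
  · simpa [c2] using c1
  · exact c2

end CDG
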