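import Pool.Agent.CDG.SB
import Pool.Agent.CDG.Span
import Pool.Agent.CDG.Inv

/-!
# CDG.Gen: the generic pairs

PROOF. `loc_gen`: for `U` a set of `u` with `GoodU x x' u` and a `φ` with values in `{0, 1}`, `f S = Phi φ S x - Phi φ S x'` and `N u = insert u⁻¹ (PP x u ∪ PP x' u)` satisfy all the assumptions of `Loc` with `M = 20` except `span`: `|N u| ≤ 17`; `g ∈ N u` determines `u` up to 17 possibilities (each of the 17 elements is an injective function of `u`);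
`u ∉ N u` (`not_mem_PP` for `x` and `x'`, `u ≠ u⁻¹`); locality and the bound (each `Wf` is a sum of eight terms, each entry between `-4` and `4`) from `incr_pair`.
`gen_pair`: the set `V` of the good `u` (`GoodU x x' u`) has at least `n/4 - n/8 = n/8` elements (`card_inv_le`, `hE`). Split `V` into the `u` of Case I (`hI` of `span_I`) and the others (Case II): one of them, `U`, has at least `n/16` elements. Apply `small_ball 3 20` with `phI` resp. `phII`;
`{S : F S t x = F S t x'} ⊆ {S : f S = 0}` by `Phi_of_F` (`t = fun _ : Fin 1 => 1`).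
-/

namespace CDG

open Finset

private lemma Gen_card8 {G : Type} [DecidableEq G] (a b c d e f g h : G) :
    ({a, b, c, d, e, f, g, h} : Finset G).card ≤ 8 :=
  (Finset.card_insert_le _ _).trans (Nat.succ_le_succ ((Finset.card_insert_le _ _).trans
    (Nat.succ_le_succ Finset.card_le_six)))

private lemma Gen_inv {G : Type} [Group G] [DecidableEq G] {x u g : G} (h : g ∈ PP x u) :
    u ∈ ({x * g, x * g⁻¹, g⁻¹ * x⁻¹, g * x⁻¹, x⁻¹ * g, x⁻¹ * g⁻¹, g⁻¹ * x, g * x} : Finset G) := by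
  simp only [PP, mem_insert, mem_singleton] at h
  simp only [mem_insert, mem_singleton]
  rcases h with rfl | rfl | rfl | rfl | rfl | rfl | rfl | rfl
  · left; group
  · right; left; group
  · right; right; left; group
  · right; right; right; left; group
  · right; right; right; right; left; group
  · right; right; right; right; right; left; group
  · right; right; right; right; right; right; left; group
  · right; right; right; right; right; right; right; group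

private lemma Gen_Wf {d : ℕ} (φ : Bool × Bool → Bool × Bool → (Fin d → ℤ))
    (hφ : ∀ c c' i, φ c c' i = 0 ∨ φ c c' i = 1) (b : Bool) (τ₁ τ₂ τ₃ τ₄ : Bool × Bool) (i : Fin d) :
    -4 ≤ Wf φ b τ₁ τ₂ τ₃ τ₄ i ∧ Wf φ b τ₁ τ₂ τ₃ τ₄ i ≤ 4 := by
  have h : ∀ c c', 0 ≤ φ c c' i ∧ φ c c' i ≤ 1 := fun c c' => by
    rcases hφ c c' i with h | h <;> rw [h] <;> norm_num
  have h1 := h (true, b) τ₁
  have h2 := h (false, b) τ₁
  have h3 := h (b, true) τ₂
  have h4 := h (b, false) τ₂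
  have h5 := h τ₃ (true, b)
  have h6 := h τ₃ (false, b)
  have h7 := h τ₄ (b, true)
  have h8 := h τ₄ (b, false)
  simp only [Wf, Pi.add_apply, Pi.sub_apply]
  omega

theorem loc_gen {G : Type} [Group G] [Fintype G] [DecidableEq G] {d : ℕ}
    (φ : Bool × Bool → Bool × Bool → (Fin d → ℤ)) (hφ : ∀ c c' i, φ c c' i = 0 ∨ φ c c' i = 1) {x x' : G}
    (hx : x ≠ 1) (hx' : x' ≠ 1) (U : Finset G) (hU : ∀ u ∈ U, GoodU x x' u)
    (hs : ∀ u ∈ U, Submodule.span ℚ (Set.range fun S : G → Bool => fun i =>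
      ((incr (fun S => Phi φ S x - Phi φ S x') u S i : ℤ) : ℚ)) = ⊤) :
    Loc (fun S => Phi φ S x - Phi φ S x') U (fun u => insert u⁻¹ (PP x u ∪ PP x' u)) 20 := by
  refine ⟨?_, ?_, ?_, ?_, ?_, hs⟩
  · intro u _
    refine (Finset.card_insert_le _ _).trans ?_
    have h1 : (PP x u).card ≤ 8 := Gen_card8 _ _ _ _ _ _ _ _
    have h2 : (PP x' u).card ≤ 8 := Gen_card8 _ _ _ _ _ _ _ _
    have h3 := Finset.card_union_le (PP x u) (PP x' u)
    omega
  · intro g
    have hsub : (U.filter fun u => g ∈ insert u⁻¹ (PP x u ∪ PP x' u)) ⊆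
        insert g⁻¹ (({x * g, x * g⁻¹, g⁻¹ * x⁻¹, g * x⁻¹, x⁻¹ * g, x⁻¹ * g⁻¹, g⁻¹ * x, g * x} : Finset G) ∪
          ({x' * g, x' * g⁻¹, g⁻¹ * x'⁻¹, g * x'⁻¹, x'⁻¹ * g, x'⁻¹ * g⁻¹, g⁻¹ * x', g * x'} : Finset G)) := by
      intro u hu
      rw [mem_filter, mem_insert, mem_union] at hu
      rw [mem_insert, mem_union]
      rcases hu.2 with h | h | h
      · left; rw [h, inv_inv]
      · right; left; exact Gen_inv h
      · right; right; exact Gen_inv h
    refine (Finset.card_le_card hsub).trans ((Finset.card_insert_le _ _).trans ?_)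
    have h1 : ({x * g, x * g⁻¹, g⁻¹ * x⁻¹, g * x⁻¹, x⁻¹ * g, x⁻¹ * g⁻¹, g⁻¹ * x, g * x} : Finset G).card ≤ 8 :=
      Gen_card8 _ _ _ _ _ _ _ _
    have h2 : ({x' * g, x' * g⁻¹, g⁻¹ * x'⁻¹, g * x'⁻¹, x'⁻¹ * g, x'⁻¹ * g⁻¹, g⁻¹ * x', g * x'} : Finset G).card ≤ 8 :=
      Gen_card8 _ _ _ _ _ _ _ _
    have h3 := Finset.card_union_le ({x * g, x * g⁻¹, g⁻¹ * x⁻¹, g * x⁻¹, x⁻¹ * g, x⁻¹ * g⁻¹, g⁻¹ * x, g * x} : Finset G)
      ({x' * g, x' * g⁻¹, g⁻¹ * x'⁻¹, g * x'⁻¹, x'⁻¹ * g, x'⁻¹ * g⁻¹, g⁻¹ * x', g * x'} : Finset G)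
    omega
  · intro u hu h
    have hg := hU u hu
    rw [mem_insert, mem_union] at h
    rcases h with h | h | h
    · apply hg.sq
      nth_rewrite 1 [h]
      simp
    · exact (not_mem_PP hx hg.h1 hg.h2).1 h
    · exact (not_mem_PP hx' hg.h1' hg.h2').1 h
  · intro u hu S S' h
    have hg := hU u hu
    rw [incr_pair φ hx hx' hg, incr_pair φ hx hx' hg]
    have h0 : S u⁻¹ = S' u⁻¹ := h _ (mem_insert_self _ _)
    have h1 : ∀ z ∈ PP x u, S z = S' z := fun z hz => h z (mem_insert_of_mem (mem_union_left _ hz))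
    have h2 : ∀ z ∈ PP x' u, S z = S' z := fun z hz => h z (mem_insert_of_mem (mem_union_right _ hz))
    rw [h0, h1 (x⁻¹ * u) (by simp [PP]), h1 (u⁻¹ * x) (by simp [PP]),
      h1 (x⁻¹ * u⁻¹) (by simp [PP]), h1 (u * x) (by simp [PP]),
      h1 (x * u) (by simp [PP]), h1 (u⁻¹ * x⁻¹) (by simp [PP]),
      h1 (x * u⁻¹) (by simp [PP]), h1 (u * x⁻¹) (by simp [PP]),
      h2 (x'⁻¹ * u) (by simp [PP]), h2 (u⁻¹ * x') (by simp [PP]),
      h2 (x'⁻¹ * u⁻¹) (by simp [PP]), h2 (u * x') (by simp [PP]),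
      h2 (x' * u) (by simp [PP]), h2 (u⁻¹ * x'⁻¹) (by simp [PP]),
      h2 (x' * u⁻¹) (by simp [PP]), h2 (u * x'⁻¹) (by simp [PP])]
  · intro u hu S i
    have hg := hU u hu
    rw [incr_pair φ hx hx' hg, Pi.sub_apply, abs_le]
    have h1 := Gen_Wf φ hφ (S u⁻¹) (S (x⁻¹ * u), S (u⁻¹ * x)) (S (x⁻¹ * u⁻¹), S (u * x)) (S (x * u), S (u⁻¹ * x⁻¹))
        (S (x * u⁻¹), S (u * x⁻¹)) i
    have h2 := Gen_Wf φ hφ (S u⁻¹) (S (x'⁻¹ * u), S (u⁻¹ * x')) (S (x'⁻¹ * u⁻¹), S (u * x')) (S (x' * u), S (u⁻¹ * x'⁻¹))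
        (S (x' * u⁻¹), S (u * x'⁻¹)) i
    push_cast
    constructor <;> linarith [h1.1, h1.2, h2.1, h2.2]

private lemma Gen_phI : ∀ (c c' : Bool × Bool) (i : Fin 3), phI c c' i = 0 ∨ phI c c' i = 1 := by decide

private lemma Gen_phII : ∀ (c c' : Bool × Bool) (i : Fin 3), phII c c' i = 0 ∨ phII c c' i = 1 := by decide

private lemma Gen_apply {C : ℝ} (hC : 0 < C) {n k : ℕ} {X : ℝ} (hn : 0 < n) (hk : n ≤ 16 * k)
    (h : X ≤ C * 2 ^ n / √((k : ℝ) + 1) ^ 3) : X ≤ 64 * C * 2 ^ n / √(n : ℝ) ^ 3 := by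
  refine h.trans ?_
  have hnr : (0 : ℝ) < n := by exact_mod_cast hn
  have h1 : √(n : ℝ) ≤ 4 * √((k : ℝ) + 1) := by
    have h4 : (4 : ℝ) = √16 := by
      rw [show (16 : ℝ) = 4 ^ 2 by norm_num, Real.sqrt_sq (by norm_num)]
    rw [h4, ← Real.sqrt_mul (by norm_num)]
    apply Real.sqrt_le_sqrt
    have : (n : ℝ) ≤ 16 * k := by exact_mod_cast hk
    linarith
  have hp1 : 0 < √(n : ℝ) := Real.sqrt_pos.2 hnr
  have hp2 : 0 < √((k : ℝ) + 1) := Real.sqrt_pos.2 (by positivity)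
  rw [div_le_div_iff₀ (by positivity) (by positivity)]
  have h2 : √(n : ℝ) ^ 3 ≤ 64 * √((k : ℝ) + 1) ^ 3 := by
    calc √(n : ℝ) ^ 3 ≤ (4 * √((k : ℝ) + 1)) ^ 3 := pow_le_pow_left₀ hp1.le h1 3
      _ = 64 * √((k : ℝ) + 1) ^ 3 := by ring
  calc C * 2 ^ n * √(n : ℝ) ^ 3 ≤ C * 2 ^ n * (64 * √((k : ℝ) + 1) ^ 3) := by gcongr
    _ = _ := by ring

open Classical in
theorem gen_pair : ∃ C : ℝ, 0 < C ∧ ∀ (G : Type) [Group G] [Fintype G] [DecidableEq G],
    (∃ g : G, g * g ≠ 1) → ∀ x x' : G, x ≠ 1 → x' ≠ 1 →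
    8 * (univ.filter fun u : G => u * u ≠ 1 ∧ ¬ GoodU x x' u).card ≤ Fintype.card G →
    ((univ.filter fun S : G → Bool => F S (fun _ : Fin 1 => (1 : G)) x = F S (fun _ : Fin 1 => (1 : G)) x').card : ℝ) ≤
      C * 2 ^ Fintype.card G / √(Fintype.card G : ℝ) ^ 3 := by
  obtain ⟨C, hC, hsb⟩ := small_ball 3 20
  refine ⟨64 * C, by positivity, ?_⟩
  intro G _ _ _ hsq x x' hx hx' hE
  have hn : 0 < Fintype.card G := Fintype.card_pos
  -- the good `u`
  set V : Finset G := univ.filter fun u => GoodU x x' u with hV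
  have hVc : Fintype.card G ≤ 8 * V.card := by
    have h1 := card_inv_le hsq
    have h2 : (univ.filter fun g : G => g * g = 1).card + (univ.filter fun g : G => ¬ g * g = 1).card = Fintype.card G := by
      rw [Finset.card_filter_add_card_filter_not, card_univ]
    have h3 : (univ.filter fun g : G => ¬ g * g = 1).card ≤ V.card + (univ.filter fun u : G => u * u ≠ 1 ∧ ¬ GoodU x x' u).card := by
      refine (Finset.card_le_card ?_).trans (Finset.card_union_le _ _)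
      intro u hu
      simp only [mem_filter, mem_univ, true_and, hV, mem_union] at hu ⊢
      by_cases h : GoodU x x' u
      · exact Or.inl h
      · exact Or.inr ⟨hu, h⟩
    omega
  set V₁ : Finset G := V.filter fun u => (x⁻¹ * u) * (x⁻¹ * u) ≠ 1 ∨ (x⁻¹ * u⁻¹) * (x⁻¹ * u⁻¹) ≠ 1 with hV₁
  set V₂ : Finset G := V.filter fun u => ¬ ((x⁻¹ * u) * (x⁻¹ * u) ≠ 1 ∨ (x⁻¹ * u⁻¹) * (x⁻¹ * u⁻¹) ≠ 1) with hV₂
  have hsplit : V₁.card + V₂.card = V.card := Finset.card_filter_add_card_filter_not _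
  have hgood : ∀ u ∈ V, GoodU x x' u := fun u hu => (Finset.mem_filter.1 hu).2
  have hsub : ∀ φ : Bool × Bool → Bool × Bool → (Fin 3 → ℤ),
      ((univ.filter fun S : G → Bool => F S (fun _ : Fin 1 => (1 : G)) x = F S (fun _ : Fin 1 => (1 : G)) x').card : ℝ) ≤
      ((univ.filter fun S : G → Bool => Phi φ S x - Phi φ S x' = 0).card : ℝ) := by
    intro φ
    exact_mod_cast Finset.card_le_card (by
      intro S hS
      simp only [mem_filter, mem_univ, true_and] at hS ⊢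
      rw [sub_eq_zero]
      exact Phi_of_F φ (t := fun _ : Fin 1 => (1 : G)) rfl hS)
  rcases Nat.lt_or_ge (16 * V₁.card) (Fintype.card G) with hlt | hge
  · have hV2c : Fintype.card G ≤ 16 * V₂.card := by omega
    have hloc := loc_gen phII Gen_phII hx hx' V₂ (fun u hu => hgood u (Finset.mem_filter.1 hu).1) (by
      intro u hu
      have h := (Finset.mem_filter.1 hu).2
      push Not at h
      exact span_II hx hx' (hgood u (Finset.mem_filter.1 hu).1) h.1 h.2)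
    exact Gen_apply hC hn hV2c ((hsub phII).trans (hsb G _ V₂ _ hloc))
  · have hloc := loc_gen phI Gen_phI hx hx' V₁ (fun u hu => hgood u (Finset.mem_filter.1 hu).1) (by
      intro u hu
      exact span_I hx hx' (hgood u (Finset.mem_filter.1 hu).1) (Finset.mem_filter.1 hu).2)
    exact Gen_apply hC hn hge ((hsub phI).trans (hsb G _ V₁ _ hloc))

end CDG
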