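import Pool.Agent.CDG.SBb
import Pool.Agent.CDG.Greedy

/-!
# CDG.SB: the small ball estimate

PROOF. Greedy choice: `R u v` if `u ≠ v` and (`v ∈ N u` or `u ∈ N v` or `N u ∩ N v ≠ ∅`); each `u ∈ U` is in relation with at most `M + M + M²` elements of `U` (`card_le`, `mem_le`), so there is `H₁ ⊆ U` without relations,
`|U| ≤ ((M+1)²) |H₁|`. For `u ∈ H₁` the set of the values `A u = {incr f u S : S}` is a subset of the finite set of the integer vectors with entries in `[-M, M]`; it spans, so it contains a basis `a` (`exists_linearIndependent`, indexed by `Fin d`: `d` linearly independent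
vectors). Pigeonhole over the finitely many `a : Fin d → Fin d → [-M, M]` (their number `K` depends only on `d`, `M`): some `a` is attained by all the `u` of a subset `H ⊆ H₁` with `|H₁| ≤ K |H|`. Apply `sb_indep` to `H`; `|U| + 1 ≤ C' (|H| + 1)`.
-/

namespace CDG

open Finset

private lemma SB_basis {α : Type*} {d : ℕ} (w : α → (Fin d → ℤ))
    (h : Submodule.span ℚ (Set.range fun S : α => fun i => ((w S i : ℤ) : ℚ)) = ⊤) :
    ∃ S : Fin d → α, LinearIndependent ℚ (fun (j : Fin d) (i : Fin d) => ((w (S j) i : ℤ) : ℚ)) := by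
  obtain ⟨b, hbs, hspan, hli⟩ := exists_linearIndependent ℚ (Set.range fun S : α => fun i => ((w S i : ℤ) : ℚ))
  rw [h] at hspan
  let B : Module.Basis b ℚ (Fin d → ℚ) := Module.Basis.mk hli (by
    rw [Subtype.range_coe_subtype]
    simpa using hspan.ge)
  let e : Fin d ≃ b := (Pi.basisFun ℚ (Fin d)).indexEquiv B
  have hch : ∀ j : Fin d, ∃ S : α, (fun i => ((w S i : ℤ) : ℚ)) = (e j : Fin d → ℚ) := fun j => hbs (e j).2
  choose S hS using hch
  refine ⟨S, ?_⟩
  have h1 := hli.comp e e.injective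
  have h2 : (fun (j : Fin d) (i : Fin d) => ((w (S j) i : ℤ) : ℚ)) = (Subtype.val : b → (Fin d → ℚ)) ∘ e := by
    funext j
    exact hS j
  rw [h2]
  exact h1

theorem small_ball (d M : ℕ) : ∃ C : ℝ, 0 < C ∧ ∀ (G : Type) [Fintype G] [DecidableEq G]
    (f : (G → Bool) → (Fin d → ℤ)) (U : Finset G) (N : G → Finset G), Loc f U N M →
    ((univ.filter fun S : G → Bool => f S = 0).card : ℝ) ≤
      C * 2 ^ Fintype.card G / √((U.card : ℝ) + 1) ^ d := by
  classical
  obtain ⟨C, hC, hmain⟩ := sb_indep d M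
  let Bt : Finset (Fin d → Fin d → ℤ) :=
    Fintype.piFinset fun _ => Fintype.piFinset fun _ => Finset.Icc (-(M : ℤ)) (M : ℤ)
  set K : ℕ := Bt.card with hK
  set D : ℕ := 2 * M + M * M with hD
  set L : ℕ := (D + 1) * K + 1 with hL
  refine ⟨C * √(L : ℝ) ^ d + 1, by positivity, ?_⟩
  intro G _ _ f U N hLoc
  have h2 : (0 : ℝ) < 2 ^ Fintype.card G := by positivity
  rcases U.eq_empty_or_nonempty with rfl | hU
  · have h3 : ((univ.filter fun S : G → Bool => f S = 0).card : ℝ) ≤ 2 ^ Fintype.card G := by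
      have := Finset.card_filter_le (univ : Finset (G → Bool)) fun S => f S = 0
      rw [Finset.card_univ, Fintype.card_fun, Fintype.card_bool] at this
      exact_mod_cast this
    have h4 : (C * √(L : ℝ) ^ d + 1) * 2 ^ Fintype.card G / √(((∅ : Finset G).card : ℝ) + 1) ^ d =
        (C * √(L : ℝ) ^ d + 1) * 2 ^ Fintype.card G := by simp
    rw [h4]
    have h5 : 0 ≤ C * √(L : ℝ) ^ d := by positivity
    nlinarith
  -- greedy
  obtain ⟨H₁, hH₁U, hH₁, hH₁c⟩ := greedy (fun u v : G => u ≠ v ∧ (v ∈ N u ∨ u ∈ N v ∨ ¬ Disjoint (N u) (N v)))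
    (by
      intro u v h
      refine ⟨h.1.symm, ?_⟩
      rcases h.2 with h | h | h
      · exact Or.inr (Or.inl h)
      · exact Or.inl h
      · exact Or.inr (Or.inr fun h' => h h'.symm)) D U (by
      intro u hu
      have hsub : (U.filter fun v => u ≠ v ∧ (v ∈ N u ∨ u ∈ N v ∨ ¬ Disjoint (N u) (N v))) ⊆
          N u ∪ ((U.filter fun v => u ∈ N v) ∪ (N u).biUnion fun g => U.filter fun v => g ∈ N v) := by
        intro v hv
        simp only [mem_filter] at hv
        simp only [mem_union, mem_filter, mem_biUnion]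
        rcases hv.2.2 with h | h | h
        · exact Or.inl h
        · exact Or.inr (Or.inl ⟨hv.1, h⟩)
        · rw [Finset.not_disjoint_iff] at h
          obtain ⟨g, hg1, hg2⟩ := h
          exact Or.inr (Or.inr ⟨g, hg1, hv.1, hg2⟩)
      refine (Finset.card_le_card hsub).trans ((Finset.card_union_le _ _).trans ?_)
      have h1 := hLoc.card_le u hu
      have h2 := Finset.card_union_le (U.filter fun v => u ∈ N v) ((N u).biUnion fun g => U.filter fun v => g ∈ N v)
      have h3 := hLoc.mem_le u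
      have h4 : ((N u).biUnion fun g => U.filter fun v => g ∈ N v).card ≤ M * M := by
        refine Finset.card_biUnion_le.trans ((Finset.sum_le_sum fun g _ => hLoc.mem_le g).trans ?_)
        rw [Finset.sum_const, smul_eq_mul]
        exact Nat.mul_le_mul_right _ h1
      omega)
  -- bases
  have hch : ∀ u : G, ∃ a : Fin d → Fin d → ℤ, u ∈ U →
      LinearIndependent ℚ (fun (j : Fin d) (i : Fin d) => ((a j i : ℤ) : ℚ)) ∧ (∀ j, ∃ S, incr f u S = a j) ∧ a ∈ Bt := by
    intro u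
    by_cases hu : u ∈ U
    · obtain ⟨S, hS⟩ := SB_basis (fun S : G → Bool => incr f u S) (hLoc.span u hu)
      refine ⟨fun j => incr f u (S j), fun _ => ⟨hS, fun j => ⟨S j, rfl⟩, ?_⟩⟩
      simp only [Bt, Fintype.mem_piFinset, Finset.mem_Icc]
      intro j i
      exact abs_le.1 (hLoc.bdd u hu (S j) i)
    · exact ⟨0, fun h => absurd h hu⟩
  choose α hα using hch
  have hH₁ne : H₁.Nonempty := by
    rw [← Finset.card_pos]
    have := hU.card_pos
    rcases Nat.eq_zero_or_pos H₁.card with h | h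
    · rw [h] at hH₁c; omega
    · exact h
  obtain ⟨u₀, hu₀⟩ := hH₁ne
  have hKpos : 0 < K := Finset.card_pos.2 ⟨α u₀, (hα u₀ (hH₁U hu₀)).2.2⟩
  obtain ⟨a, haBt, ha⟩ := Finset.exists_le_card_fiber_of_nsmul_le_card_of_maps_to (s := H₁) (t := Bt) (f := α)
    (b := (H₁.card : ℝ) / K) (fun u hu => (hα u (hH₁U hu)).2.2) ⟨α u₀, (hα u₀ (hH₁U hu₀)).2.2⟩ (by
      rw [nsmul_eq_mul, ← hK]
      have : (K : ℝ) ≠ 0 := by positivity
      field_simp
      exact le_refl _)
  set H : Finset G := H₁.filter fun u => α u = a with hH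
  have hHne : H.Nonempty := by
    rw [← Finset.card_pos]
    have h1 : (0 : ℝ) < (H₁.card : ℝ) / K := by
      have : 0 < H₁.card := Finset.card_pos.2 ⟨u₀, hu₀⟩
      positivity
    exact_mod_cast h1.trans_le ha
  obtain ⟨u₁, hu₁⟩ := hHne
  have hHU : ∀ u ∈ H, u ∈ U := fun u hu => hH₁U (Finset.mem_filter.1 hu).1
  have hαH : ∀ u ∈ H, α u = a := fun u hu => (Finset.mem_filter.1 hu).2
  have hrel : ∀ u ∈ H, ∀ v ∈ H, u ≠ v → ¬ (v ∈ N u ∨ u ∈ N v ∨ ¬ Disjoint (N u) (N v)) := by
    intro u hu v hv huv h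
    exact hH₁ u (Finset.mem_filter.1 hu).1 v (Finset.mem_filter.1 hv).1 huv ⟨huv, h⟩
  have hfin := hmain G f H N a (by rw [← hαH u₁ hu₁]; exact (hα u₁ (hHU u₁ hu₁)).1)
    (fun u hu => hLoc.card_le u (hHU u hu))
    (fun u hu v hv hvN => by
      by_cases huv : u = v
      · subst huv; exact hLoc.not_mem u (hHU u hu) hvN
      · exact hrel u hu v hv huv (Or.inl hvN))
    (fun u hu v hv huv => by
      by_contra h
      exact hrel u hu v hv huv (Or.inr (Or.inr h)))
    (fun u hu => hLoc.loc u (hHU u hu))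
    (fun u hu => by rw [← hαH u hu]; exact (hα u (hHU u hu)).2.1)
  refine hfin.trans ?_
  have hcardU : (U.card : ℝ) + 1 ≤ L * ((H.card : ℝ) + 1) := by
    have h1 : (H₁.card : ℝ) ≤ K * H.card := by
      have hKr : (0 : ℝ) < K := by positivity
      rw [div_le_iff₀ hKr] at ha
      linarith
    have h3 : (U.card : ℝ) ≤ (D + 1) * H₁.card := by exact_mod_cast hH₁c
    have h4 : (L : ℝ) = (D + 1) * K + 1 := by rw [hL]; push_cast; ring
    rw [h4]
    have h5 : (0 : ℝ) ≤ (D : ℝ) + 1 := by positivity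
    have h6 : ((D : ℝ) + 1) * H₁.card ≤ ((D : ℝ) + 1) * (K * H.card) := mul_le_mul_of_nonneg_left h1 h5
    have h7 : (0 : ℝ) ≤ ((D : ℝ) + 1) * K := by positivity
    nlinarith [show (0 : ℝ) ≤ (H.card : ℝ) by positivity]
  have hr : √((U.card : ℝ) + 1) ≤ √(L : ℝ) * √((H.card : ℝ) + 1) := by
    rw [← Real.sqrt_mul (by positivity)]
    exact Real.sqrt_le_sqrt hcardU
  have hp1 : 0 < √((U.card : ℝ) + 1) := Real.sqrt_pos.2 (by positivity)
  have hp2 : 0 < √((H.card : ℝ) + 1) := Real.sqrt_pos.2 (by positivity)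
  rw [div_le_div_iff₀ (by positivity) (by positivity)]
  have hrd : √((U.card : ℝ) + 1) ^ d ≤ √(L : ℝ) ^ d * √((H.card : ℝ) + 1) ^ d := by
    rw [← mul_pow]
    exact pow_le_pow_left₀ hp1.le hr d
  calc C * 2 ^ Fintype.card G * √((U.card : ℝ) + 1) ^ d
      ≤ C * 2 ^ Fintype.card G * (√(L : ℝ) ^ d * √((H.card : ℝ) + 1) ^ d) := by gcongr
    _ = (C * √(L : ℝ) ^ d) * 2 ^ Fintype.card G * √((H.card : ℝ) + 1) ^ d := by ring
    _ ≤ (C * √(L : ℝ) ^ d + 1) * 2 ^ Fintype.card G * √((H.card : ℝ) + 1) ^ d := by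
        gcongr; linarith

end CDG
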