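import Pool.Agent.CDG.Defs
import Pool.Agent.CDG.Ind

/-!
# CDG.SBa: the small ball estimate for fixed vectors

PROOF. `choose_le`: `h.choose k ≤ h.choose (h/2)` (`Nat.choose_le_middle`) and a bound of the central binomial coefficient by induction.
`sb_vec`: for fixed values of `ξ` outside `⋃_j H j` the condition is `∑_j k_j a_j = t'` with `k_j` = number of the `u ∈ H j` with `ξ u = true`. As the `a j` are independent there is at most one `(k_j)`,
and the number of the `ξ` on `⋃ H j` with these `k_j` is `∏_j C(|H j|, k_j) ≤ ∏_j 2^|H j| (2/√(|H j|+1))` (`indep_two`, `indep_prod`).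
-/

namespace CDG

open Finset

private lemma SBa_central (m : ℕ) : (Nat.centralBinom m) ^ 2 * (2 * m + 1) ≤ 16 ^ m := by
  induction m with
  | zero => simp
  | succ m ih =>
    have h := Nat.succ_mul_centralBinom_succ m
    have h2 : ((m + 1) * Nat.centralBinom (m + 1)) ^ 2 * (2 * (m + 1) + 1) ≤ (m + 1) ^ 2 * 16 ^ (m + 1) := by
      rw [h]
      calc (2 * (2 * m + 1) * Nat.centralBinom m) ^ 2 * (2 * (m + 1) + 1)
          = (Nat.centralBinom m ^ 2 * (2 * m + 1)) * (4 * ((2 * m + 1) * (2 * m + 3))) := by ring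
        _ ≤ 16 ^ m * (4 * (4 * (m + 1) ^ 2)) := by
            apply Nat.mul_le_mul ih
            nlinarith
        _ = (m + 1) ^ 2 * 16 ^ (m + 1) := by ring
    have h3 : (m + 1) ^ 2 * (Nat.centralBinom (m + 1) ^ 2 * (2 * (m + 1) + 1)) ≤ (m + 1) ^ 2 * 16 ^ (m + 1) := by
      calc _ = ((m + 1) * Nat.centralBinom (m + 1)) ^ 2 * (2 * (m + 1) + 1) := by ring
        _ ≤ _ := h2
    exact Nat.le_of_mul_le_mul_left h3 (by positivity)

private lemma SBa_choose (n k : ℕ) : (n.choose k) ^ 2 * n ≤ 4 ^ n := by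
  have h1 : (n.choose k) ^ 2 * n ≤ (n.choose (n / 2)) ^ 2 * n :=
    Nat.mul_le_mul_right _ (Nat.pow_le_pow_left (Nat.choose_le_middle k n) 2)
  refine le_trans h1 ?_
  rcases Nat.even_or_odd' n with ⟨m, rfl | rfl⟩
  · have h2 : 2 * m / 2 = m := by omega
    rw [h2]
    have h3 := SBa_central m
    rw [Nat.centralBinom] at h3
    calc (Nat.choose (2 * m) m) ^ 2 * (2 * m) ≤ (Nat.choose (2 * m) m) ^ 2 * (2 * m + 1) :=
          Nat.mul_le_mul_left _ (by omega)
      _ ≤ 16 ^ m := h3
      _ = 4 ^ (2 * m) := by rw [pow_mul]; norm_num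
  · have h2 : (2 * m + 1) / 2 = m := by omega
    rw [h2]
    have h3 := SBa_central (m + 1)
    have h4 : Nat.centralBinom (m + 1) = 2 * Nat.choose (2 * m + 1) m := by
      rw [Nat.centralBinom, show 2 * (m + 1) = (2 * m + 1) + 1 by ring, Nat.choose_succ_succ]
      have h5 : Nat.choose (2 * m + 1) (m + 1) = Nat.choose (2 * m + 1) m := by
        rw [← Nat.choose_symm_of_eq_add]; ring
      rw [h5]; ring
    rw [h4] at h3
    have h6 : 4 * ((Nat.choose (2 * m + 1) m) ^ 2 * (2 * m + 1)) ≤ 4 * 4 ^ (2 * m + 1) := by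
      calc 4 * ((Nat.choose (2 * m + 1) m) ^ 2 * (2 * m + 1))
          ≤ (2 * Nat.choose (2 * m + 1) m) ^ 2 * (2 * (m + 1) + 1) := by
            have : (2 * Nat.choose (2 * m + 1) m) ^ 2 * (2 * (m + 1) + 1) =
              4 * ((Nat.choose (2 * m + 1) m) ^ 2 * (2 * (m + 1) + 1)) := by ring
            rw [this]
            apply Nat.mul_le_mul_left
            apply Nat.mul_le_mul_left
            omega
        _ ≤ 16 ^ (m + 1) := h3
        _ = 4 * 4 ^ (2 * m + 1) := by
            rw [show (16 : ℕ) = 4 ^ 2 by norm_num, ← pow_mul, ← pow_succ']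
            congr 1
    exact Nat.le_of_mul_le_mul_left h6 (by norm_num)

theorem choose_le (h k : ℕ) : ((h.choose k : ℕ) : ℝ) ≤ 2 ^ h * (2 / √((h : ℝ) + 1)) := by
  have hs : (0 : ℝ) < √((h : ℝ) + 1) := Real.sqrt_pos.2 (by positivity)
  have h1 : ((h.choose k : ℕ) : ℝ) ^ 2 * ((h : ℝ) + 1) ≤ (2 * 2 ^ h) ^ 2 := by
    rcases Nat.eq_zero_or_pos h with rfl | hh
    · have : ((Nat.choose 0 k : ℕ) : ℝ) ≤ 1 := by
        rcases k with _ | k <;> simp
      have h0 : (0 : ℝ) ≤ ((Nat.choose 0 k : ℕ) : ℝ) := by positivity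
      norm_num
      nlinarith
    · have h2 : ((h.choose k : ℕ) : ℝ) ^ 2 * (h : ℝ) ≤ 4 ^ h := by exact_mod_cast SBa_choose h k
      have h3 : (1 : ℝ) ≤ h := by exact_mod_cast hh
      have h4 : (2 * 2 ^ h : ℝ) ^ 2 = 4 * 4 ^ h := by
        rw [mul_pow, ← pow_mul, mul_comm h 2, pow_mul]; norm_num
      rw [h4]
      have h5 : 0 ≤ ((h.choose k : ℕ) : ℝ) ^ 2 := by positivity
      nlinarith
  have h2 : ((h.choose k : ℕ) : ℝ) * √((h : ℝ) + 1) ≤ 2 * 2 ^ h := by
    apply le_of_sq_le_sq _ (by positivity)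
    rw [mul_pow, Real.sq_sqrt (by positivity)]
    exact h1
  rw [mul_div_assoc', le_div_iff₀ hs]
  linarith

private lemma SBa_count {ι : Type} [Fintype ι] [DecidableEq ι] (H : Finset ι) (k : ℕ) :
    ((univ.filter fun ξ : ι → Bool => (H.filter fun u => ξ u = true).card = k).card : ℝ) ≤
      2 ^ Fintype.card ι * (2 / √((H.card : ℝ) + 1)) := by
  have h1 : (univ.filter fun ξ : ι → Bool => (H.filter fun u => ξ u = true).card = k).card ≤
      ((Finset.powersetCard k H) ×ˢ (Finset.powerset (univ \ H))).card := by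
    refine Finset.card_le_card_of_injOn (fun ξ => (H.filter fun u => ξ u = true, (univ \ H).filter fun u => ξ u = true)) ?_ ?_
    · intro ξ hξ
      simp only [coe_filter, mem_univ, true_and, Set.mem_ofPred_eq] at hξ
      simp only [coe_product, Set.mem_prod, mem_coe, mem_powersetCard, mem_powerset]
      exact ⟨⟨Finset.filter_subset _ _, hξ⟩, Finset.filter_subset _ _⟩
    · intro ξ _ η _ h
      simp only [Prod.mk.injEq] at h
      funext u
      by_cases hu : u ∈ H
      · have := Finset.ext_iff.1 h.1 u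
        simp only [mem_filter, hu, true_and] at this
        exact Bool.eq_iff_iff.2 this
      · have := Finset.ext_iff.1 h.2 u
        simp only [mem_filter, mem_sdiff, mem_univ, hu, not_false_eq_true, true_and] at this
        exact Bool.eq_iff_iff.2 this
  rw [Finset.card_product, Finset.card_powersetCard, Finset.card_powerset] at h1
  have h2 : H.card + (univ \ H).card = Fintype.card ι := by
    rw [add_comm, Finset.card_sdiff_add_card_eq_card (Finset.subset_univ H), card_univ]
  calc ((univ.filter fun ξ : ι → Bool => (H.filter fun u => ξ u = true).card = k).card : ℝ)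
      ≤ ((H.card.choose k * 2 ^ (univ \ H).card : ℕ) : ℝ) := by exact_mod_cast h1
    _ = ((H.card.choose k : ℕ) : ℝ) * 2 ^ (univ \ H).card := by push_cast; ring
    _ ≤ (2 ^ H.card * (2 / √((H.card : ℝ) + 1))) * 2 ^ (univ \ H).card := by
        gcongr
        exact choose_le _ _
    _ = 2 ^ Fintype.card ι * (2 / √((H.card : ℝ) + 1)) := by
        rw [← h2, pow_add]; ring

theorem sb_vec {ι : Type} [Fintype ι] [DecidableEq ι] {d : ℕ} (a : Fin d → (Fin d → ℤ))
    (ha : LinearIndependent ℚ (fun (j : Fin d) (i : Fin d) => ((a j i : ℤ) : ℚ))) (H : Fin d → Finset ι)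
    (hd : ∀ j k, j ≠ k → Disjoint (H j) (H k)) (v : ι → (Fin d → ℤ)) (hv : ∀ j, ∀ u ∈ H j, v u = a j)
    (t : Fin d → ℤ) (m : ℕ) (hm : ∀ j, m ≤ (H j).card) :
    ((univ.filter fun ξ : ι → Bool => t + ∑ u, (if ξ u = true then v u else 0) = 0).card : ℝ) ≤
      2 ^ Fintype.card ι * (2 / √((m : ℝ) + 1)) ^ d := by
  classical
  set A : Finset ι := univ.biUnion H with hA
  let c : (ι → Bool) → Fin d → ℕ := fun ξ j => ((H j).filter fun u => ξ u = true).card
  let E : (Fin d → ℕ) → (ι → Bool) → Prop := fun k ξ =>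
    t + ∑ u ∈ univ \ A, (if ξ u = true then v u else 0) + ∑ j, (k j : ℤ) • a j = 0
  have hsplit : ∀ ξ : ι → Bool, ∑ u, (if ξ u = true then v u else 0) =
      ∑ u ∈ univ \ A, (if ξ u = true then v u else 0) + ∑ j, (c ξ j : ℤ) • a j := by
    intro ξ
    rw [← Finset.sum_sdiff (Finset.subset_univ A)]
    congr 1
    rw [hA, Finset.sum_biUnion (fun j _ k _ hjk => hd j k hjk)]
    refine Finset.sum_congr rfl fun j _ => ?_
    rw [← Finset.sum_filter, Finset.sum_congr rfl (fun u hu => hv j u (Finset.mem_filter.1 hu).1), Finset.sum_const]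
    simp [c]
  have hEc : ∀ ξ : ι → Bool, t + ∑ u, (if ξ u = true then v u else 0) = 0 → E (c ξ) ξ := by
    intro ξ h
    simp only [E]
    rw [add_assoc, ← hsplit ξ]
    exact h
  have hEinj : ∀ ξ k k', E k ξ → E k' ξ → k = k' := by
    intro ξ k k' h h'
    have h1 : ∑ j, (k j : ℤ) • a j = ∑ j, (k' j : ℤ) • a j := by
      simp only [E] at h h'
      have := h.trans h'.symm
      exact add_left_cancel this
    have h2 : ∑ j, ((k j : ℚ) - (k' j : ℚ)) • (fun i => ((a j i : ℤ) : ℚ)) = (0 : Fin d → ℚ) := by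
      funext i
      have h3 := congrFun h1 i
      simp only [Finset.sum_apply, Pi.smul_apply, smul_eq_mul] at h3 ⊢
      have h4 : ((∑ j, (k j : ℤ) * a j i : ℤ) : ℚ) = ((∑ j, (k' j : ℤ) * a j i : ℤ) : ℚ) := by rw [h3]
      push_cast at h4
      simp only [sub_mul, Finset.sum_sub_distrib]
      rw [h4]
      simp
    have h3 := Fintype.linearIndependent_iff.1 ha _ h2
    funext j
    have h4 := h3 j
    have h5 : (k j : ℚ) = k' j := by linarith
    exact_mod_cast h5
  let K : Finset (Fin d → ℕ) := Fintype.piFinset fun _ => Finset.range (Fintype.card ι + 1)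
  have hcK : ∀ ξ, c ξ ∈ K := by
    intro ξ
    simp only [K, Fintype.mem_piFinset, Finset.mem_range, c]
    intro j
    have := (Finset.card_filter_le (H j) (fun u => ξ u = true)).trans (Finset.card_le_univ (H j))
    omega
  -- the probability of `c = k`
  have hq : ∀ k : Fin d → ℕ, ∑ ξ : ι → Bool, (if c ξ = k then (1 : ℝ) else 0) ≤
      2 ^ Fintype.card ι * (2 / √((m : ℝ) + 1)) ^ d := by
    intro k
    have h1 : ∀ ξ : ι → Bool, (if c ξ = k then (1 : ℝ) else 0) = ∏ j ∈ (univ : Finset (Fin d)), (if c ξ j = k j then (1 : ℝ) else 0) := by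
      intro ξ
      by_cases h : c ξ = k
      · rw [if_pos h]
        symm
        exact Finset.prod_eq_one fun j _ => if_pos (congrFun h j)
      · rw [if_neg h]
        obtain ⟨j, hj⟩ := Function.ne_iff.1 h
        symm
        exact Finset.prod_eq_zero (Finset.mem_univ j) (if_neg hj)
    rw [Finset.sum_congr rfl fun ξ _ => h1 ξ]
    rw [indep_prod (univ : Finset (Fin d)) H (fun j ξ => if c ξ j = k j then (1 : ℝ) else 0)
      (fun i _ j _ hij => hd i j hij) (by
        intro j _ ξ ξ' hξ
        have : c ξ j = c ξ' j := by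
          simp only [c]
          congr 1
          refine Finset.filter_congr fun u hu => by rw [hξ u hu]
        simp only [this])]
    gcongr
    calc ∏ j, ((∑ ξ : ι → Bool, (if c ξ j = k j then (1 : ℝ) else 0)) / 2 ^ Fintype.card ι)
        ≤ ∏ _j : Fin d, (2 / √((m : ℝ) + 1)) := by
          refine Finset.prod_le_prod (fun j _ => ?_) fun j _ => ?_
          · refine div_nonneg (Finset.sum_nonneg fun ξ _ => ?_) (by positivity)
            split_ifs <;> norm_num
          · rw [div_le_iff₀ (by positivity), Finset.sum_boole]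
            refine (SBa_count (H j) (k j)).trans ?_
            rw [mul_comm]
            gcongr
            exact_mod_cast hm j
      _ = (2 / √((m : ℝ) + 1)) ^ d := by rw [Finset.prod_const, Finset.card_univ, Fintype.card_fin]
  -- the sum over `k`
  have hind : ∀ k : Fin d → ℕ, 2 ^ Fintype.card ι * ∑ ξ : ι → Bool, (if c ξ = k then (1 : ℝ) else 0) * (if E k ξ then (1 : ℝ) else 0) =
      (∑ ξ : ι → Bool, (if c ξ = k then (1 : ℝ) else 0)) * ∑ ξ : ι → Bool, (if E k ξ then (1 : ℝ) else 0) := by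
    intro k
    refine indep_two A _ _ ?_ ?_
    · intro ξ ξ' h
      have : c ξ = c ξ' := by
        funext j
        simp only [c]
        congr 1
        refine Finset.filter_congr fun u hu => by
          rw [h u (by rw [hA]; exact Finset.mem_biUnion.2 ⟨j, Finset.mem_univ j, hu⟩)]
      simp only [this]
    · intro ξ ξ' h
      have : E k ξ ↔ E k ξ' := by
        simp only [E]
        have : ∑ u ∈ univ \ A, (if ξ u = true then v u else 0) = ∑ u ∈ univ \ A, (if ξ' u = true then v u else 0) := by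
          refine Finset.sum_congr rfl fun u hu => ?_
          rw [h u (by simpa using hu)]
        rw [this]
      simp only [this]
  have h2 : (0 : ℝ) < 2 ^ Fintype.card ι := by positivity
  have hfin : ((univ.filter fun ξ : ι → Bool => t + ∑ u, (if ξ u = true then v u else 0) = 0).card : ℝ) ≤
      ∑ k ∈ K, ∑ ξ : ι → Bool, (if c ξ = k then (1 : ℝ) else 0) * (if E k ξ then (1 : ℝ) else 0) := by
    rw [Finset.sum_comm]
    rw [← Finset.sum_boole]
    refine Finset.sum_le_sum fun ξ _ => ?_
    by_cases h : t + ∑ u, (if ξ u = true then v u else 0) = 0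
    · rw [if_pos h]
      refine le_trans ?_ (Finset.single_le_sum (f := fun k => (if c ξ = k then (1 : ℝ) else 0) * (if E k ξ then (1 : ℝ) else 0))
        (fun k _ => ?_) (hcK ξ))
      · simp [hEc ξ h]
      · positivity
    · rw [if_neg h]
      refine Finset.sum_nonneg fun k _ => ?_
      positivity
  have hle1 : ∑ k ∈ K, ∑ ξ : ι → Bool, (if E k ξ then (1 : ℝ) else 0) ≤ 2 ^ Fintype.card ι := by
    rw [Finset.sum_comm]
    have : ∀ ξ : ι → Bool, ∑ k ∈ K, (if E k ξ then (1 : ℝ) else 0) ≤ 1 := by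
      intro ξ
      rw [Finset.sum_boole]
      have : (K.filter fun k => E k ξ).card ≤ 1 := by
        rw [Finset.card_le_one]
        intro k hk k' hk'
        exact hEinj ξ k k' (Finset.mem_filter.1 hk).2 (Finset.mem_filter.1 hk').2
      exact_mod_cast this
    refine (Finset.sum_le_sum fun ξ _ => this ξ).trans ?_
    simp
  have hmul : 2 ^ Fintype.card ι * ((univ.filter fun ξ : ι → Bool => t + ∑ u, (if ξ u = true then v u else 0) = 0).card : ℝ) ≤
      2 ^ Fintype.card ι * (2 ^ Fintype.card ι * (2 / √((m : ℝ) + 1)) ^ d) := by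
    calc _ ≤ 2 ^ Fintype.card ι * ∑ k ∈ K, ∑ ξ : ι → Bool, (if c ξ = k then (1 : ℝ) else 0) * (if E k ξ then (1 : ℝ) else 0) := by
          gcongr
      _ = ∑ k ∈ K, (∑ ξ : ι → Bool, (if c ξ = k then (1 : ℝ) else 0)) * ∑ ξ : ι → Bool, (if E k ξ then (1 : ℝ) else 0) := by
          rw [Finset.mul_sum]
          exact Finset.sum_congr rfl fun k _ => hind k
      _ ≤ ∑ k ∈ K, (2 ^ Fintype.card ι * (2 / √((m : ℝ) + 1)) ^ d) * ∑ ξ : ι → Bool, (if E k ξ then (1 : ℝ) else 0) := by
          refine Finset.sum_le_sum fun k _ => ?_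
          gcongr
          exact hq k
      _ = (2 ^ Fintype.card ι * (2 / √((m : ℝ) + 1)) ^ d) * ∑ k ∈ K, ∑ ξ : ι → Bool, (if E k ξ then (1 : ℝ) else 0) := by
          rw [Finset.mul_sum]
      _ ≤ (2 ^ Fintype.card ι * (2 / √((m : ℝ) + 1)) ^ d) * 2 ^ Fintype.card ι := by gcongr
      _ = _ := by ring
  exact le_of_mul_le_mul_left hmul h2

end CDG
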